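import Pool.Agent.H95.G1N.Data

/-!
# Genus one: checks of the rows 0 to 1535
-/

namespace Pool.Agent.H95.G1N

theorem chk0 : D.chkL rows0 0 = true := by decide +kernel

theorem chk1 : D.chkL rows1 512 = true := by decide +kernel

theorem chk2 : D.chkL rows2 1024 = true := by decide +kernel

end Pool.Agent.H95.G1N
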