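import Pool.Agent.H95.G1N.Data

/-!
# Genus one: checks of the rows 1536 to 3113
-/

namespace Pool.Agent.H95.G1N

theorem chk3 : D.chkL rows3 1536 = true := by decide +kernel

theorem chk4 : D.chkL rows4 2048 = true := by decide +kernel

theorem chk5 : D.chkL rows5 2560 = true := by decide +kernel

theorem chk6 : D.chkL rows6 3072 = true := by decide +kernel

end Pool.Agent.H95.G1N
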