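import Pool.Agent.H95.G1N.Data

/-!
# Genus one: existence of the facets, windows through gluings
-/

namespace Pool.Agent.H95.G1N

theorem chkX : ((List.range 24).all fun f => D.chkX f) = true := by decide +kernel

theorem chkQ : D.QtOK := by
  unfold Tab.QtOK
  decide +kernel

end Pool.Agent.H95.G1N
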