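import Pool.Agent.H95.G1N.Final
import Pool.Agent.H95.G1N.ChkA
import Pool.Agent.H95.G1N.ChkB
import Pool.Agent.H95.G1N.ChkC

/-!
# Genus one: the gluing complex with 3114 facets is the weighted quotient
-/

namespace Pool.Agent.H95.G1N

open Pool.Agent.H34.PLE Pool.Agent.H2.G1

lemma chkL_append (D : Tab) : ∀ (L L' : List ℕ) (k : ℕ), D.chkL L k = true → D.chkL L' (k + L.length) = true →
    D.chkL (L ++ L') k = true
  | [], L', k, _, h => h
  | r :: L, L', k, h, h' => by
    unfold Tab.chkL at h
    rw [Bool.and_eq_true] at h
    show (D.chkR k r && D.chkL (L ++ L') (Nat.succ k)) = true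
    rw [Bool.and_eq_true]
    refine ⟨h.1, chkL_append D L L' (Nat.succ k) h.2 ?_⟩
    rw [List.length_cons] at h'
    rw [show Nat.succ k + L.length = k + (L.length + 1) by omega]
    exact h'

lemma chkL_get (D : Tab) : ∀ (L : List ℕ) (k : ℕ), D.chkL L k = true → ∀ j < L.length,
    D.chkR (k + j) (L.getD j 0) = true
  | [], _, _, j, hj => absurd hj (Nat.not_lt_zero j)
  | r :: L, k, h, j, hj => by
    unfold Tab.chkL at h
    rw [Bool.and_eq_true] at h
    cases j with
    | zero => exact h.1
    | succ j =>
      have := chkL_get D L (Nat.succ k) h.2 j (by rw [List.length_cons] at hj; omega)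
      rw [show k + (j + 1) = Nat.succ k + j by omega]
      exact this

theorem len0 : rows0.length = 512 := by decide +kernel

theorem len1 : rows1.length = 512 := by decide +kernel

theorem len2 : rows2.length = 512 := by decide +kernel

theorem len3 : rows3.length = 512 := by decide +kernel

theorem len4 : rows4.length = 512 := by decide +kernel

theorem len5 : rows5.length = 512 := by decide +kernel

theorem len6 : rows6.length = 42 := by decide +kernel

theorem chkAll : D.chkL rowsM 0 = true := by
  unfold rowsM
  refine chkL_append D _ _ _ chk0 ?_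
  rw [len0]
  refine chkL_append D _ _ _ chk1 ?_
  rw [len1]
  refine chkL_append D _ _ _ chk2 ?_
  rw [len2]
  refine chkL_append D _ _ _ chk3 ?_
  rw [len3]
  refine chkL_append D _ _ _ chk4 ?_
  rw [len4]
  refine chkL_append D _ _ _ chk5 ?_
  rw [len5]
  exact chk6

theorem lenM : rowsM.length = 3114 := by
  unfold rowsM
  simp only [List.length_append, len0, len1, len2, len3, len4, len5, len6]

theorem ok : D.OK where
  len := lenM
  cR k hk := by
    have := chkL_get D rowsM 0 chkAll k (lt_of_lt_of_eq hk lenM.symm)
    rw [Nat.zero_add] at this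
    exact this
  cX f hf := List.all_eq_true.1 chkX f (List.mem_range.2 hf)
  cQ := chkQ

/-- The realisation of the complex with 3114 facets is `(S³ × S⁵)/S¹` with the weights `(1,1;2,3,4)`. -/
theorem homeo (S : Sec) : Nonempty ((glueL 7 24 rowsM).Real ≃ₜ WSphere wts) := Tab.homeo ok S

end Pool.Agent.H95.G1N
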