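import Pool.Agent.H95.G1N.GMap
import Pool.Agent.H34.PLE.Poly

/-!
# Genus one: the map is bijective
-/

open Finset

namespace Pool.Agent.H95.G1N

open Pool.Agent.H34.PLE Pool.Agent.H95.TB Pool.Agent.H2.G1

variable {K : Glue 7} {M : Mdl K}

/-- a cut is determined by the total length before it -/
lemma cut_unique5 {a b a' b' : Fin 5 → ℝ} (ha : ∀ X, 0 ≤ a X) (hb : ∀ X, 0 ≤ b X) (ha' : ∀ X, 0 ≤ a' X)
    (hb' : ∀ X, 0 ≤ b' X) (h : ∀ X Y, 0 < a X → 0 < b Y → Y ≤ X) (h' : ∀ X Y, 0 < a' X → 0 < b' Y → Y ≤ X)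
    (hs : ∀ X, a X + b X = a' X + b' X) (ht : ∑ X, b X = ∑ X, b' X) : b = b' := by
  by_contra hne
  have hex : ∃ Y, b' Y < b Y := by
    by_contra hn
    push Not at hn
    apply hne
    funext X
    by_contra hX
    exact absurd ht (ne_of_lt (sum_lt_sum (fun Y _ => hn Y) ⟨X, mem_univ _, lt_of_le_of_ne (hn X) hX⟩))
  obtain ⟨Y, hY⟩ := hex
  have hex2 : ∃ Z, b Z < b' Z := by
    by_contra hn
    push Not at hn
    exact absurd ht (ne_of_gt (sum_lt_sum (fun Y _ => hn Y) ⟨Y, mem_univ _, hY⟩))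
  obtain ⟨Z, hZ⟩ := hex2
  have h1 : Y ≤ Z := h Z Y (by linarith [hs Z, ha' Z]) (by linarith [hb' Y])
  have h2 : Z ≤ Y := h' Y Z (by linarith [hs Y, ha Y]) (by linarith [hb Z])
  have h3 : Y = Z := le_antisymm h1 h2
  rw [h3] at hY
  linarith

/-- the weights of the slots on the circles are determined by the lengths of the circles -/
lemma l_unique {f : Fin 24} {F F' : Fac} {d d' : Dat} (hF : F.f = f) (hF' : F'.f = f) (h : Comp F d) (h' : Comp F' d')
    (hP : d'.P = d.P) (hw : d'.w f 0 = d.w f 0) : d'.l = d.l := by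
  have n : ∀ s, (0 : ℝ) < (wd f).count s := fun s => by exact_mod_cast count_pos f s
  have hsum : ∀ (d : Dat) s, d.P s = d.l 0 s + d.l 1 s := fun d s => by
    unfold Dat.P; rw [Fin.sum_univ_two]
  have key : ∀ {F : Fac} {d : Dat}, Comp F d → ∀ X Y : Fin 5, 0 < ((wd f).count X : ℝ) * d.l 1 X →
      0 < ((wd f).count Y : ℝ) * d.l 0 Y → Y ≤ X := by
    intro F d h X Y h1 h2
    have h3 : 0 < d.l 1 X := (mul_pos_iff_of_pos_left (n X)).1 h1
    have h4 : 0 < d.l 0 Y := (mul_pos_iff_of_pos_left (n Y)).1 h2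
    have h5 : al 1 F.i X = true := by
      by_contra hne
      rw [Bool.not_eq_true] at hne
      exact h3.ne' (h.off 1 X hne)
    have h6 : al 0 F.i Y = true := by
      by_contra hne
      rw [Bool.not_eq_true] at hne
      exact h4.ne' (h.off 0 Y hne)
    unfold al at h5 h6
    rw [if_neg (by decide)] at h5
    rw [if_pos rfl] at h6
    exact (of_decide_eq_true h6).trans (of_decide_eq_true h5)
  have hb := cut_unique5 (a := fun s => ((wd f).count s : ℝ) * d'.l 1 s) (b := fun s => ((wd f).count s : ℝ) * d'.l 0 s)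
    (a' := fun s => ((wd f).count s : ℝ) * d.l 1 s) (b' := fun s => ((wd f).count s : ℝ) * d.l 0 s)
    (fun s => mul_nonneg (n s).le (h'.nn 1 s)) (fun s => mul_nonneg (n s).le (h'.nn 0 s))
    (fun s => mul_nonneg (n s).le (h.nn 1 s)) (fun s => mul_nonneg (n s).le (h.nn 0 s))
    (key h') (key h) (fun s => by
      have := congrFun hP s
      rw [hsum, hsum] at this
      rw [← mul_add, ← mul_add, add_comm (d'.l 1 s), add_comm (d.l 1 s), this])
    (by
      have h1 := hw
      unfold Dat.w at h1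
      rw [len_eq_count, len_eq_count] at h1
      exact h1)
  have h0 : ∀ s, d'.l 0 s = d.l 0 s := fun s => mul_left_cancel₀ (n s).ne' (congrFun hb s)
  funext c s
  have hc : c = 0 ∨ c = 1 := by omega
  rcases hc with rfl | rfl
  · exact h0 s
  · have := congrFun hP s
    rw [hsum, hsum, h0 s] at this
    linarith

namespace Mdl

variable (S : Sec)

/-- chains of gluings lift to the realisation -/
lemma lift_reach (hM : M.Good) {f g : Fin 24} {P Q : Fin 5 → ℝ} {s : ℝ} (hr : Reach f P s g Q) :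
    ∀ {F : Fac} {d : Dat} {p : K.Real}, M.IsPt F d p → F.f = f → d.P = P →
      ∃ F' d', M.IsPt F' d' p ∧ F'.f = g ∧ d'.P = Q ∧ ∀ c, d.u f c = ee s * d'.u g c := by
  induction hr with
  | refl f P =>
    intro F d p hp hf hP
    exact ⟨F, d, hp, hf, hP, fun c => by rw [ee_zero, one_mul]⟩
  | step f P a hPa t g Q hr ih =>
    intro F d p hp hf hP
    have h := hp.1
    have ha : ∀ c, d.l c a = 0 := by
      have h0 : ∑ c, d.l c a = 0 := by
        have : d.P a = 0 := by rw [hP, hPa]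
        exact this
      intro c
      exact (sum_eq_zero_iff_of_nonneg (fun c _ => h.nn c a)).1 h0 c (mem_univ c)
    obtain ⟨F1, d1, h1, h2, h3⟩ := cross hM hp ha
    subst hf
    obtain ⟨e1, _, _⟩ := glue_coord h1.1.nice ha h3
    obtain ⟨F', d', h4, h5, h6, h7⟩ := ih h1 h2 (by rw [e1, hP])
    refine ⟨F', d', h4, h5, h6, fun c => ?_⟩
    have e2 := u_glue h1.1.nice ha h3 c
    rw [h7, hP] at e2
    rw [ee_add, mul_assoc, e2, ← mul_assoc, ← ee_add, add_neg_cancel, ee_zero, one_mul]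

lemma ee_of_norm {z : ℂ} (hz : ‖z‖ = 1) : ∃ t, z = ee t := by
  obtain ⟨t, _, _, ht⟩ := exists_polar z
  refine ⟨t, ?_⟩
  rw [hz, mul_one, φ_one] at ht
  exact ht

theorem GG_injective (hM : M.Good) : Function.Injective (GG S hM) := by
  intro p p' hpp
  obtain ⟨k, x, rfl⟩ := K.exists_pt p
  obtain ⟨k', x', rfl⟩ := K.exists_pt p'
  have hp := isPt_dd hM k x
  have hp' := isPt_dd hM k' x'
  have h := hp.1
  have h' := hp'.1
  rw [GG_isPt S hM hp, GG_isPt S hM hp'] at hpp
  generalize M.dd k x.1 = d at hp h hpp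
  generalize M.dd k' x'.1 = d' at hp' h' hpp
  obtain ⟨z, hz, h1, h2⟩ := wcl_inj hpp
  obtain ⟨t, rfl⟩ := ee_of_norm hz
  have hu := h.nice.u_ne (M.F k).f
  have hu' := h'.nice.u_ne (M.F k').f
  have hv := S.v_ne (f := (M.F k).f) h.nice.sim
  have hv' := S.v_ne (f := (M.F k').f) h'.nice.sim
  obtain ⟨s, n, hr, hst⟩ := S.inj (M.F k).f d.P (M.F k').f d'.P h.nice.sim h'.nice.sim t
    (‖S.v (M.F k').f d'.P‖ / ‖S.v (M.F k).f d.P‖) (div_pos (norm_pos_iff.2 hv') (norm_pos_iff.2 hv)) (fun j => by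
      have := h2 j
      rw [Sec.v_apply, Sec.v_apply, wts_eq, ee_pow] at this
      rw [this]
      push_cast
      rfl)
  obtain ⟨F1, d1, hp1, hf1, hP1, hu1⟩ := lift_reach hM hr hp rfl rfl
  set A := ‖d'.u (M.F k').f‖ / ‖d.u (M.F k).f‖ with hA
  have hA0 : 0 < A := div_pos (norm_pos_iff.2 hu') (norm_pos_iff.2 hu)
  -- the vectors in `ℂ²` are proportional
  have h3 : ∀ c, d'.u (M.F k').f c = (A : ℂ) * d1.u (M.F k').f c := by
    intro c
    have e1 : ee t * ee s = 1 := by
      rw [← ee_add, add_comm, hst, ee_int]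
    rw [h1 c, hu1 c, mul_assoc, ← mul_assoc (ee t), e1, one_mul]
  have hw1 := hp1.1.nice.w_nonneg (M.F k').f
  have hw' := h'.nice.w_nonneg (M.F k').f
  have h4 : ∀ c, d'.w (M.F k').f c = A * d1.w (M.F k').f c := by
    intro c
    have := congrArg norm (h3 c)
    rw [Dat.u_apply, Dat.u_apply, norm_mul, norm_φ, norm_φ, abs_of_nonneg (hw' c), abs_of_nonneg (hw1 c),
      Complex.norm_real, Real.norm_of_nonneg hA0.le] at this
    exact this
  have hA1 : A = 1 := by
    have e1 : ∑ c, d'.w (M.F k').f c = A * ∑ c, d1.w (M.F k').f c := by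
      rw [mul_sum]; exact sum_congr rfl fun c _ => h4 c
    have e2 : ∑ c, d'.w (M.F k').f c = ∑ c, d1.w (M.F k').f c := by rw [sum_w, sum_w, hP1]
    have e3 := hp1.1.nice.sum_w_pos (M.F k').f
    rw [e2] at e1
    have : (A - 1) * ∑ c, d1.w (M.F k').f c = 0 := by linarith
    rcases mul_eq_zero.1 this with h5 | h5
    · linarith
    · exact absurd h5 e3.ne'
  rw [hA1] at h3 h4
  simp only [one_mul, Complex.ofReal_one] at h3 h4
  have hl : d'.l = d1.l := l_unique hf1 rfl hp1.1 h' (by rw [hP1]) (h4 0)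
  refine same hM hp1 hp' hf1.symm ?_
  rw [hf1]
  refine ⟨hl, fun c => ?_⟩
  rcases (hw1 c).eq_or_lt with h0 | h0
  · have b1 := X_bd hp1.1 c
    have b2 := X_bd h' c
    rw [hf1] at b1
    have e1 : len (d1.l c) (wd (M.F k').f) = 0 := h0.symm
    rw [hl] at b2
    rw [e1] at b1 b2
    exact ⟨0, by rw [e1]; linarith [b1.1, b1.2, b2.1, b2.2]⟩
  · have h5 := h3 c
    rw [Dat.u_apply, Dat.u_apply, h4 c] at h5
    obtain ⟨m, hm⟩ := φ_inj h0 h5
    refine ⟨-m, ?_⟩
    unfold Dat.y Dat.κ at hm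
    rw [hP1, hl] at hm
    unfold Dat.w at hm
    push_cast
    linarith

/-- a cut of the slots -/
lemma exists_cut {f : Fin 24} {P : Fin 5 → ℝ} (hP : Sim P) {w0 : ℝ} (h0 : 0 ≤ w0)
    (h1 : w0 ≤ ∑ s, ((wd f).count s : ℝ) * P s) :
    ∃ (i : Fin 5) (l : Fin 2 → Fin 5 → ℝ), (∀ c s, 0 ≤ l c s) ∧ (∀ c s, al c i s = false → l c s = 0) ∧
      (∀ s, ∑ c, l c s = P s) ∧ len (l 0) (wd f) = w0 := by
  have n : ∀ s, (0 : ℝ) < (wd f).count s := fun s => by exact_mod_cast count_pos f s
  have hpos : 0 < ∑ s, ((wd f).count s : ℝ) * P s := by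
    have h2 : ∑ s, P s ≤ ∑ s, ((wd f).count s : ℝ) * P s := by
      refine sum_le_sum fun s _ => ?_
      have h2 : (1 : ℝ) ≤ (wd f).count s := by exact_mod_cast count_pos f s
      exact le_mul_of_one_le_left (hP.1 s) h2
    rw [hP.2] at h2
    linarith
  set m : Fin 5 → ℝ := fun s => ((wd f).count s : ℝ) * P s with hm
  have hm0 : ∀ s, 0 ≤ m s := fun s => mul_nonneg (n s).le (hP.1 s)
  have hlen : len m [0, 1, 2, 3, 4] = ∑ s, m s := by
    simp only [len_cons, len_nil, Fin.sum_univ_five]; ring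
  obtain ⟨q, hq, h3, h4, h5⟩ := exists_letter (l := m) (W := [0, 1, 2, 3, 4]) hm0 (by rw [hlen]; exact hpos) h0
    (by rw [hlen]; exact h1)
  have hq5 : q < 5 := hq
  rw [st_succ hq] at h5
  -- the sum of the first letters
  have hst : ∀ q < 5, ∀ g : Fin 5 → ℝ, st g [0, 1, 2, 3, 4] q = ∑ s : Fin 5, if (s : ℕ) < q then g s else 0 := by
    intro q hq g
    have : q = 0 ∨ q = 1 ∨ q = 2 ∨ q = 3 ∨ q = 4 := by omega
    rcases this with rfl | rfl | rfl | rfl | rfl <;>
      simp [st, len_cons, len_nil, Fin.sum_univ_five] <;> ring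
  have hlt : lt [0, 1, 2, 3, 4] q = ⟨q, hq5⟩ := by
    have : q = 0 ∨ q = 1 ∨ q = 2 ∨ q = 3 ∨ q = 4 := by omega
    rcases this with rfl | rfl | rfl | rfl | rfl <;> rfl
  rw [hlt] at h3 h5
  set i : Fin 5 := ⟨q, hq5⟩ with hi
  set r : ℝ := (w0 - st m [0, 1, 2, 3, 4] q) / (wd f).count i with hr
  have hr0 : 0 ≤ r := div_nonneg (by linarith) (n i).le
  have hr1 : r ≤ P i := by
    rw [hr, div_le_iff₀ (n i)]
    have : m i = P i * (wd f).count i := mul_comm _ _
    linarith
  let l0 : Fin 5 → ℝ := fun s => if (s : ℕ) < q then P s else if s = i then r else 0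
  have hl0 : ∀ s, 0 ≤ l0 s := by
    intro s
    simp only [l0]
    split_ifs
    · exact hP.1 s
    · exact hr0
    · exact le_rfl
  have hl1 : ∀ s, l0 s ≤ P s := by
    intro s
    simp only [l0]
    split_ifs with h6 h7
    · exact le_rfl
    · rw [h7]; exact hr1
    · exact hP.1 s
  refine ⟨i, ![l0, fun s => P s - l0 s], ?_, ?_, ?_, ?_⟩
  · intro c s
    have hc : c = 0 ∨ c = 1 := by omega
    rcases hc with rfl | rfl
    · exact hl0 s
    · exact sub_nonneg.2 (hl1 s)
  · intro c s hs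
    have hc : c = 0 ∨ c = 1 := by omega
    rcases hc with rfl | rfl
    · unfold al at hs
      rw [if_pos rfl, decide_eq_false_iff_not, Fin.le_def] at hs
      have hiv : (i : ℕ) = q := rfl
      show l0 s = 0
      simp only [l0]
      rw [if_neg (by omega), if_neg]
      intro he
      rw [he] at hs
      omega
    · unfold al at hs
      rw [if_neg (by decide), decide_eq_false_iff_not, Fin.le_def] at hs
      have hiv : (i : ℕ) = q := rfl
      show P s - l0 s = 0
      simp only [l0]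
      rw [if_pos (by omega), sub_self]
  · intro s
    rw [Fin.sum_univ_two]
    show l0 s + (P s - l0 s) = P s
    ring
  · show len l0 (wd f) = w0
    rw [len_eq_count]
    have e1 : ∀ s, ((wd f).count s : ℝ) * l0 s = (if (s : ℕ) < q then m s else 0) +
        if s = i then ((wd f).count i : ℝ) * r else 0 := by
      intro s
      simp only [l0, hm]
      by_cases h6 : (s : ℕ) < q
      · have h7 : s ≠ i := by
          intro he
          rw [he] at h6
          exact absurd h6 (lt_irrefl q)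
        simp [h6, h7]
      · by_cases h7 : s = i
        · rw [if_neg h6, if_neg h6, if_pos h7, if_pos h7, h7]; ring
        · simp [h6, h7]
    rw [sum_congr rfl fun s _ => e1 s, sum_add_distrib, ← hst q hq5 m, sum_ite_eq']
    simp only [mem_univ, if_true]
    rw [hr]
    have := (n i).ne'
    field_simp
    ring

theorem GG_surjective (hM : M.Good) : Function.Surjective (GG S hM) := by
  intro τ
  induction τ using Quot.ind with
  | mk p =>
  obtain ⟨u, v⟩ := p
  have hvne : (fun k => v.1 k) ≠ 0 := by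
    intro h0
    obtain ⟨j, hj⟩ := exists_ne_zero v
    exact hj (congrFun h0 j)
  obtain ⟨f, P, hP, t, b, hb, hv⟩ := S.surj (fun k => v.1 k) hvne
  -- the first factor
  let u' : Fin 2 → ℂ := fun c => ee (-t) * u.1 c
  have hu' : ∀ c, ‖u' c‖ = ‖u.1 c‖ := fun c => by simp only [u', norm_mul, norm_ee, one_mul]
  obtain ⟨j0, hj0⟩ := exists_ne_zero u
  have hR : 0 < ∑ c, ‖u.1 c‖ :=
    lt_of_lt_of_le (norm_pos_iff.2 hj0) (single_le_sum (f := fun c => ‖u.1 c‖) (fun c _ => norm_nonneg _) (mem_univ j0))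
  set R := ∑ c, ‖u.1 c‖ with hRd
  have hL : 0 < ∑ s, ((wd f).count s : ℝ) * P s := by
    have h2 : ∑ s, P s ≤ ∑ s, ((wd f).count s : ℝ) * P s := by
      refine sum_le_sum fun s _ => ?_
      have h2 : (1 : ℝ) ≤ (wd f).count s := by exact_mod_cast count_pos f s
      exact le_mul_of_one_le_left (hP.1 s) h2
    rw [hP.2] at h2
    linarith
  set L := ∑ s, ((wd f).count s : ℝ) * P s with hLd
  let w : Fin 2 → ℝ := fun c => L * ‖u.1 c‖ / R
  have hw : ∀ c, 0 ≤ w c := fun c => div_nonneg (mul_nonneg hL.le (norm_nonneg _)) hR.le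
  have hws : ∑ c, w c = L := by
    simp only [w]
    rw [← sum_div, ← mul_sum, ← hRd, mul_div_assoc, div_self hR.ne', mul_one]
  obtain ⟨i, l, hl0, hoff, hlP, hlw⟩ := exists_cut (f := f) hP (hw 0) (by
    rw [← hLd, ← hws, Fin.sum_univ_two]; linarith [hw 1])
  have hsum : ∑ c, ∑ s, l c s = 1 := by
    rw [sum_comm, sum_congr rfl fun s _ => hlP s, hP.2]
  have hlen : ∀ c, len (l c) (wd f) = w c := by
    have h1 : ∑ c, len (l c) (wd f) = L := by
      have := sum_w ⟨l, fun _ => 0⟩ f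
      unfold Dat.w Dat.P at this
      rw [this, hLd]
      exact sum_congr rfl fun s _ => by rw [← hlP s]
    intro c
    have hc : c = 0 ∨ c = 1 := by omega
    rcases hc with rfl | rfl
    · exact hlw
    · rw [← hws, Fin.sum_univ_two, Fin.sum_univ_two] at h1
      linarith
  -- the positions
  have hpol : ∀ c, ∃ t : ℝ, u' c = φ ‖u.1 c‖ (t * ‖u.1 c‖) := by
    intro c
    obtain ⟨t, _, _, ht⟩ := exists_polar (u' c)
    exact ⟨t, by rw [hu' c] at ht; exact ht⟩
  choose τ hτ using hpol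
  let μ : Fin 2 → ℝ := fun c => MM (fun s => P s / ((wd f).count s : ℝ)) (l c) (wd f)
  let X : Fin 2 → ℝ := fun c => w c * Int.fract (-τ c + μ c / w c)
  let d : Dat := ⟨l, X⟩
  have hdP : d.P = P := funext hlP
  obtain ⟨q, hc, _⟩ := exists_comp (f := f) (i := i) (d := d) hl0 hoff hsum
    (fun c => mul_nonneg (hw c) (Int.fract_nonneg _))
    (fun c => by
      show X c ≤ len (l c) (wd f)
      rw [hlen]
      exact mul_le_of_le_one_right (hw c) (Int.fract_lt_one _).le)
  obtain ⟨p, hp⟩ := exists_isPt hM hc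
  refine ⟨p, ?_⟩
  rw [GG_isPt S hM hp, mk_eq_wcl]
  refine wcl_eq (z := ee t) (norm_ee _) (α := R / L) (β := b) (div_pos hR hL) hb (fun c => ?_) (fun k => ?_)
  · rw [Dat.u_apply]
    show u.1 c = _
    have ew : d.w f c = w c := hlen c
    have ey : d.y f c = X c - μ c := by
      unfold Dat.y Dat.κ
      rw [hdP]
    have e6 : φ (w c) (-(X c - μ c)) = φ (w c) (τ c * w c) := by
      by_cases h0 : w c = 0
      · rw [h0, φ_zero, φ_zero]
      · have e7 : -(X c - μ c) = τ c * w c + ((⌊-τ c + μ c / w c⌋ : ℤ) : ℝ) * w c := by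
          simp only [X, Int.fract]
          field_simp
          ring
        rw [e7, φ_add_int]
    have e8 : ((R / L : ℝ) : ℂ) * φ (w c) (τ c * w c) = u' c := by
      have hRL : R / L ≠ 0 := (div_pos hR hL).ne'
      have : ((R / L : ℝ) : ℂ) * φ (w c) (τ c * w c) = φ (R / L * w c) (R / L * (τ c * w c)) := by
        rw [φ_eq, φ_eq, mul_div_mul_left _ _ hRL]
        push_cast
        ring
      rw [this, hτ c]
      congr 1
      · simp only [w]; field_simp
      · simp only [w]; field_simp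
    rw [ew, ey, e6]
    have e9 : ((R / L : ℝ) : ℂ) * (ee t * φ (w c) (τ c * w c)) = ee t * (((R / L : ℝ) : ℂ) * φ (w c) (τ c * w c)) := by
      ring
    rw [e9, e8]
    simp only [u']
    rw [← mul_assoc, ← ee_add, add_neg_cancel, ee_zero, one_mul]
  · rw [Sec.v_apply, hdP, wts_eq, ee_pow]
    have := hv k
    simp only at this
    rw [this]
    push_cast
    ring

include S in
/-- The realisation of the gluing complex is the weighted quotient. -/
theorem homeo (hM : M.Good) [Finite K.ι] : Nonempty (K.Real ≃ₜ WSphere wts) := by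
  let e : K.Real ≃ WSphere wts := Equiv.ofBijective (GG S hM) ⟨GG_injective S hM, GG_surjective S hM⟩
  have hc : Continuous e := GG_continuous S hM
  exact ⟨hc.homeoOfEquivCompactToT2⟩

end Mdl

end Pool.Agent.H95.G1N
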