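import Pool.Agent.H95.TB.Base

/-!
# Genus one: a words complex with 24 cells of dimension 4

Every cell has five slots `0, ..., 4` and a cyclic word in the slots.  The face opposite to the slot `a` of the cell
`f` is glued with the face opposite to the slot `gs f a` of the cell `gc f a` by the order preserving bijection
of the remaining slots; the word of `f` without `a` becomes the word of the other cell without `gs f a`, rotated by
`gk f a` letters.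
-/

open Finset

namespace Pool.Agent.H95.G1N

open Pool.Agent.H95.TB

/-- points of the simplex -/
def Sim {m : ℕ} (P : Fin m → ℝ) : Prop := (∀ s, 0 ≤ P s) ∧ ∑ s, P s = 1

/-- the words -/
def wdL : List (List ℕ) := [
  [1, 0, 2, 3, 1, 2, 0, 1, 2, 4],
  [1, 2, 0, 3, 1, 0, 1, 4],
  [1, 2, 3, 0, 1, 2, 1, 0, 2, 4],
  [1, 2, 0, 1, 1, 3, 0, 4],
  [1, 2, 3, 1, 0, 2, 1, 2, 4, 0],
  [0, 1, 2, 3, 0, 1, 2, 0, 1, 2, 4],
  [0, 1, 2, 3, 0, 1, 0, 1, 4],
  [0, 1, 2, 3, 0, 1, 2, 0, 1, 2, 4],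
  [0, 1, 2, 0, 1, 0, 1, 3, 4],
  [0, 1, 2, 3, 0, 1, 2, 0, 1, 2, 4],
  [0, 1, 2, 3, 0, 0, 4],
  [0, 1, 2, 0, 0, 3, 4],
  [0, 1, 0, 0, 2, 3, 4],
  [1, 0, 2, 3, 1, 2, 1, 0, 2, 1, 2, 4],
  [1, 2, 0, 3, 1, 1, 0, 1, 4],
  [1, 2, 3, 1, 0, 2, 1, 2, 1, 0, 2, 4],
  [1, 2, 1, 0, 1, 1, 3, 0, 4],
  [0, 1, 2, 3, 0, 1, 2, 0, 1, 2, 0, 1, 2, 4],
  [0, 1, 2, 3, 0, 1, 0, 1, 0, 1, 4],
  [0, 1, 2, 3, 0, 1, 2, 0, 1, 2, 0, 1, 2, 4],
  [0, 1, 2, 0, 1, 0, 1, 0, 1, 3, 4],
  [0, 1, 2, 3, 0, 0, 0, 4],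
  [0, 1, 2, 0, 0, 0, 3, 4],
  [0, 1, 0, 0, 0, 2, 3, 4]]

/-- the gluings: cell, slot, rotation, packed as `200 * cell + 20 * slot + rotation` -/
def glL : List (List ℕ) := [
  [1000, 846, 240, 883, 465],
  [1200, 2820, 40, 420, 643],
  [1400, 260, 660, 84, 865],
  [1600, 3220, 284, 440, 820],
  [1800, 680, 21, 484, 66],
  [0, 1840, 1240, 1884, 1466],
  [200, 2020, 1040, 1420, 1644],
  [400, 1260, 1660, 1084, 1866],
  [600, 2220, 1284, 1440, 1820],
  [800, 1680, 1020, 1484, 1066],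
  [4200, 1220, 2280, 2260, 2422],
  [4400, 1620, 2440, 2060, 2040],
  [4600, 2084, 2240, 2480, 2460],
  [3400, 3287, 2840, 3083, 3067],
  [3600, 220, 2640, 3020, 3244],
  [3800, 2860, 3260, 2684, 2668],
  [4000, 620, 2884, 3040, 2621],
  [2600, 4080, 3640, 3884, 3869],
  [2800, 4220, 3440, 3820, 4046],
  [3000, 3660, 4060, 3484, 3469],
  [3200, 4420, 3684, 3840, 3420],
  [2000, 3620, 4480, 4460, 4623],
  [2200, 4020, 4640, 4260, 4240],
  [2400, 4284, 4440, 4680, 4660]]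

/-- the word of a cell -/
def wd (f : Fin 24) : List (Fin 5) := (wdL.getD f.1 []).map (Fin.ofNat 5)

/-- the packed gluing -/
def glu (f : Fin 24) (a : Fin 5) : ℕ := (glL.getD f.1 []).getD a.1 0

/-- the neighbour cell -/
def gc (f : Fin 24) (a : Fin 5) : Fin 24 := Fin.ofNat 24 (glu f a / 200)

/-- the slot of the neighbour -/
def gs (f : Fin 24) (a : Fin 5) : Fin 5 := Fin.ofNat 5 (glu f a % 200 / 20)

/-- the rotation -/
def gk (f : Fin 24) (a : Fin 5) : ℕ := glu f a % 20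

/-- transport of a point from the face opposite to `a` to the face opposite to `b` -/
noncomputable def tp (a b : Fin 5) (P : Fin 5 → ℝ) : Fin 5 → ℝ :=
  b.insertNth (α := fun _ => ℝ) 0 fun s => P (a.succAbove s)

/-- the letters of the neighbour (without the slot `gs f a`) before the rotation point -/
def pfx (f : Fin 24) (a : Fin 5) : List (Fin 5) := ((wd (gc f a)).filter fun s => s ≠ gs f a).take (gk f a)

/-- the angle of a gluing -/
noncomputable def th (f : Fin 24) (a : Fin 5) (P : Fin 5 → ℝ) : ℝ :=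
  ((pfx f a).map fun s => tp a (gs f a) P s / ((wd (gc f a)).count s : ℝ)).sum

/-- chains of gluings with their total angle -/
inductive Reach : Fin 24 → (Fin 5 → ℝ) → ℝ → Fin 24 → (Fin 5 → ℝ) → Prop
  | refl (f : Fin 24) (P : Fin 5 → ℝ) : Reach f P 0 f P
  | step (f : Fin 24) (P : Fin 5 → ℝ) (a : Fin 5) (h : P a = 0) (t : ℝ) (g : Fin 24) (Q : Fin 5 → ℝ)
      (hr : Reach (gc f a) (tp a (gs f a) P) t g Q) : Reach f P (th f a P + t) g Q

/-- A section: vectors in `ℂ³` (with the weights 2, 3, 4) over the points of the cells, compatible with the gluings,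
injective and surjective modulo the circle action, positive scalings, and the gluings. -/
structure Sec where
  U : Fin 24 → (Fin 5 → ℝ) → Fin 3 → ℂ
  cont : ∀ f, ContinuousOn (U f) {P | Sim P}
  ne : ∀ f P, Sim P → U f P ≠ 0
  law : ∀ f a P, Sim P → P a = 0 → ∀ k : Fin 3,
    U f P k = ee (((k : ℕ) + 2 : ℝ) * th f a P) * U (gc f a) (tp a (gs f a) P) k
  inj : ∀ f P g Q, Sim P → Sim Q → ∀ t c : ℝ, 0 < c →
    (∀ k : Fin 3, U g Q k = (c : ℂ) * ee (((k : ℕ) + 2 : ℝ) * t) * U f P k) →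
    ∃ (s : ℝ) (n : ℤ), Reach f P s g Q ∧ s + t = n
  surj : ∀ v : Fin 3 → ℂ, v ≠ 0 → ∃ f P, Sim P ∧ ∃ t c : ℝ, 0 < c ∧
    ∀ k : Fin 3, v k = (c : ℂ) * ee (((k : ℕ) + 2 : ℝ) * t) * U f P k

end Pool.Agent.H95.G1N
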