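import Pool.Agent.H95.G1N.Pos
import Pool.Agent.H95.TB.Conn

/-!
# Genus one: facets over the cells of a words complex, with two circles

A facet has a cell `f`, a level slot `i` (the slots `≤ i` lie on the circle 0, the slots `≥ i` on the circle 1) and a
window letter `q c` for every circle `c`.  The slot of the window letter is doubled (marks 1, 2), the other slots
have the mark 0.
-/

open Finset

namespace Pool.Agent.H95.G1N

open Pool.Agent.H34.PLE

/-- facets -/
@[ext] structure Fac where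
  f : Fin 24
  i : Fin 5
  q : Fin 2 → ℕ

/-- the slots of the circles -/
def al (c : Fin 2) (i s : Fin 5) : Bool := if c = 0 then decide (s ≤ i) else decide (i ≤ s)

namespace Fac

/-- the slot of the window of the circle `c` -/
def sl (F : Fac) (c : Fin 2) : Fin 5 := lt (wd F.f) (F.q c)

/-- admissible windows -/
def Valid (F : Fac) : Prop := ∀ c, F.q c < (wd F.f).length ∧ al c F.i (F.sl c) = true

/-- the vertices -/
def Exp (F : Fac) (κ : Fin 2 × Fin 5 × Fin 3) : Prop :=
  al κ.1 F.i κ.2.1 = true ∧ (if κ.2.1 = F.sl κ.1 then κ.2.2 ≠ 0 else κ.2.2 = 0)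

instance (F : Fac) (κ : Fin 2 × Fin 5 × Fin 3) : Decidable (F.Exp κ) := by
  unfold Exp; exact instDecidableAnd

end Fac

/-- weights and positions -/
@[ext] structure Dat where
  l : Fin 2 → Fin 5 → ℝ
  X : Fin 2 → ℝ

/-- weight of a vertex -/
noncomputable def val (F : Fac) (d : Dat) (κ : Fin 2 × Fin 5 × Fin 3) : ℝ :=
  if κ.2.2 = 0 then d.l κ.1 κ.2.1
  else if κ.2.2 = 1 then d.X κ.1 - st (d.l κ.1) (wd F.f) (F.q κ.1)
  else st (d.l κ.1) (wd F.f) (F.q κ.1 + 1) - d.X κ.1

/-- the data are realised in the facet -/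
structure Comp (F : Fac) (d : Dat) : Prop where
  valid : F.Valid
  nn : ∀ c s, 0 ≤ d.l c s
  off : ∀ c s, al c F.i s = false → d.l c s = 0
  sum : ∑ c, ∑ s, d.l c s = 1
  lo : ∀ c, st (d.l c) (wd F.f) (F.q c) ≤ d.X c
  hi : ∀ c, d.X c ≤ st (d.l c) (wd F.f) (F.q c + 1)

lemma Comp.succ {F : Fac} {d : Dat} (h : Comp F d) (c : Fin 2) :
    st (d.l c) (wd F.f) (F.q c + 1) = st (d.l c) (wd F.f) (F.q c) + d.l c (F.sl c) := st_succ (h.valid c).1

/-- order preserving bijection of the slots different from `a` to the slots different from `b` -/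
def pi (a b s : Fin 5) : Fin 5 :=
  if s = a then b
  else Fin.ofNat 5 (if (if s.1 < a.1 then s.1 else s.1 - 1) < b.1 then (if s.1 < a.1 then s.1 else s.1 - 1)
    else (if s.1 < a.1 then s.1 else s.1 - 1) + 1)

lemma pi_succAbove : ∀ (a b : Fin 5) (s : Fin 4), pi a b (a.succAbove s) = b.succAbove s := by decide

lemma pi_self (a b : Fin 5) : pi a b a = b := by unfold pi; rw [if_pos rfl]

lemma pi_lt : ∀ a b s t : Fin 5, s ≠ a → t ≠ a → (pi a b s ≤ pi a b t ↔ s ≤ t) := by decide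

lemma pi_ne : ∀ a b s : Fin 5, s ≠ a → pi a b s ≠ b := by decide

lemma pi_pi : ∀ a b s : Fin 5, pi b a (pi a b s) = s := by decide

lemma tp_same (a b : Fin 5) (P : Fin 5 → ℝ) : tp a b P b = 0 := by
  unfold tp; simp

lemma tp_pi (a b : Fin 5) (P : Fin 5 → ℝ) {s : Fin 5} (hs : s ≠ a) : tp a b P (pi a b s) = P s := by
  obtain ⟨t, rfl⟩ := Fin.exists_succAbove_eq hs
  rw [pi_succAbove]
  unfold tp; simp

lemma tp_pi' {a b : Fin 5} {P : Fin 5 → ℝ} (h : P a = 0) : (fun s => tp a b P (pi a b s)) = P := by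
  funext s
  by_cases hs : s = a
  · subst hs
    rw [pi_self, tp_same, h]
  · exact tp_pi a b P hs

/-- the vertices of the facets of a gluing complex -/
structure Mdl (K : Glue 7) where
  F : K.ι → Fac
  key : K.ι → Fin 8 → Fin 2 × Fin 5 × Fin 3
  /-- transport of windows through the gluings of cells -/
  qt : Fin 24 → Fin 5 → ℕ → ℕ

/-- change of the vertices when the window of the circle `c` moves from a letter in the slot `s` to a letter in
the slot `s'` -/
def mvW (c : Fin 2) (s s' : Fin 5) (κ : Fin 2 × Fin 5 × Fin 3) : Fin 2 × Fin 5 × Fin 3 :=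
  if κ.1 = c then
    if κ.2.2 = 1 then (c, s, if s = s' then 2 else 0)
    else if κ.2.1 = s' then (c, s', 2) else κ
  else κ

/-- the rest of the word -/
def sfx (f : Fin 24) (a : Fin 5) : List (Fin 5) := ((wd (gc f a)).filter fun s => s ≠ gs f a).drop (gk f a)

/-- the filtered beginning of a word -/
def fl (f : Fin 24) (a : Fin 5) (q : ℕ) : List (Fin 5) := ((wd f).take q).filter fun s => s ≠ a

variable {K : Glue 7} (M : Mdl K)

namespace Mdl

/-- the window of the circle `c` moves to the next letter -/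
structure RelW (k : K.ι) (a : Fin 8) (k' : K.ι) (b : Fin 8) (c : Fin 2) : Prop where
  next : IsNext (wd (M.F k).f) (al c (M.F k).i) ((M.F k).q c) ((M.F k').q c)
  F : M.F k' = ⟨(M.F k).f, (M.F k).i, Function.update (M.F k).q c ((M.F k').q c)⟩
  ka : M.key k a = (c, (M.F k).sl c, 2)
  kb : M.key k' b = (c, (M.F k').sl c, 1)
  ks : ∀ t, M.key k' (b.succAbove t) = mvW c ((M.F k).sl c) ((M.F k').sl c) (M.key k (a.succAbove t))

/-- the level slot decreases -/
structure RelI (k : K.ι) (a : Fin 8) (k' : K.ι) (b : Fin 8) : Prop where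
  hi : ((M.F k').i : ℕ) + 1 = (M.F k).i
  F : M.F k' = ⟨(M.F k).f, (M.F k').i, (M.F k).q⟩
  ka : M.key k a = (0, (M.F k).i, 0)
  kb : M.key k' b = (1, (M.F k').i, 0)
  ks : ∀ t, M.key k' (b.succAbove t) = M.key k (a.succAbove t)

/-- gluing of cells -/
structure RelG (k : K.ι) (a : Fin 8) (k' : K.ι) (b : Fin 8) (c : Fin 2) (s : Fin 5) : Prop where
  hs : s ≠ (M.F k).i
  F : M.F k' = ⟨gc (M.F k).f s, pi s (gs (M.F k).f s) (M.F k).i, fun c => M.qt (M.F k).f s ((M.F k).q c)⟩
  ka : M.key k a = (c, s, 0)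
  kb : ∃ c', M.key k' b = (c', gs (M.F k).f s, 0)
  ks : ∀ t, M.key k' (b.succAbove t) = ((M.key k (a.succAbove t)).1,
    pi s (gs (M.F k).f s) (M.key k (a.succAbove t)).2.1, (M.key k (a.succAbove t)).2.2)

/-- all gluings of facets -/
def Rel (k : K.ι) (a : Fin 8) (k' : K.ι) (b : Fin 8) : Prop :=
  (∃ c, M.RelW k a k' b c) ∨ M.RelI k a k' b ∨ ∃ c s, M.RelG k a k' b c s

/-- the axioms -/
structure Good : Prop where
  valid : ∀ k, (M.F k).Valid
  ex : ∀ F : Fac, F.Valid → ∃ k, M.F k = F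
  inj : ∀ k k', M.F k = M.F k' → k = k'
  kinj : ∀ k, Function.Injective (M.key k)
  kex : ∀ k κ, (M.F k).Exp κ ↔ ∃ a, M.key k a = κ
  nbW : ∀ k a c, M.key k a = (c, (M.F k).sl c, 2) → ∃ k' b, K.face k a = K.face k' b ∧ M.RelW k a k' b c
  nbI : ∀ k a, M.key k a = (0, (M.F k).i, 0) → ∃ k' b, K.face k a = K.face k' b ∧ M.RelI k a k' b
  nbG : ∀ k a c s, M.key k a = (c, s, 0) → s ≠ (M.F k).i → ∃ k' b, K.face k a = K.face k' b ∧ M.RelG k a k' b c s
  glue : ∀ k k' a b, K.face k a = K.face k' b → (k = k' ∧ a = b) ∨ M.Rel k a k' b ∨ M.Rel k' b k a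
  qtP : ∀ f a q, q < (wd f).length → lt (wd f) q ≠ a →
    M.qt f a q < (wd (gc f a)).length ∧ lt (wd (gc f a)) (M.qt f a q) = pi a (gs f a) (lt (wd f) q) ∧
    (fl (gc f a) (gs f a) (M.qt f a q) = pfx f a ++ (fl f a q).map (pi a (gs f a)) ∨
      (fl f a q).map (pi a (gs f a)) = sfx f a ++ fl (gc f a) (gs f a) (M.qt f a q))

end Mdl

end Pool.Agent.H95.G1N
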