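import Pool.Agent.H95.G1N.SoundR
import Pool.Agent.H95.G1N.Bij

/-!
# Genus one: a checked table gives a model
-/

open Finset

namespace Pool.Agent.H95.G1N

open Pool.Agent.H34.PLE Pool.Agent.H95.TB Pool.Agent.H2.G1

namespace Tab

variable {D : Tab}

section

variable (h : D.OK)

include h

lemma ixn_lt (k : (K D).ι) : ixn k < D.N :=
  lt_of_lt_of_eq (Fin.isLt (n := D.rows.length) k) h.len

omit h in
/-- the facet with given number -/
def mkf (k : ℕ) (hk : k < D.rows.length) : (K D).ι := (⟨k, hk⟩ : Fin D.rows.length)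

omit h in
lemma ixn_mk (k : ℕ) (hk : k < D.rows.length) : ixn (D := D) (mkf k hk) = k := rfl

omit h in
lemma ixn_inj {k k' : (K D).ι} (hk : ixn k = ixn k') : k = k' := Fin.ext (n := D.rows.length) hk

lemma chk (k : ℕ) (hk : k < D.N) : RecOK D k (D.e k) ∧ Nat.shiftRight (D.e k) 88 = D.rows.getD k 0 ∧
    ∀ a < 8, D.chkP k (D.e k) (dg 24 (D.rows.getD k 0) a) a = true := by
  have h1 := h.cR k hk
  unfold chkR at h1
  rw [fc_eq, Bool.and_eq_true, Bool.and_eq_true, List.all_eq_true] at h1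
  exact ⟨recOK_of h1.2.1, Nat.eq_of_beq_eq_true h1.1, fun a ha => h1.2.2 a (List.mem_range.2 ha)⟩

lemma rec' (k : (K D).ι) : RecOK D (ixn k) (D.e (ixn k)) := (chk h _ (ixn_lt h k)).1

/-- the other position of a face -/
lemma other (k : (K D).ι) (a : Fin 8) : ∃ (k' : (K D).ι) (b : Fin 8), (K D).face k a = (K D).face k' b ∧
    (cond (typ1 (D.e (ixn k)) a) (D.relB (D.e (ixn k')) (D.e (ixn k)) b a)
      (D.relB (D.e (ixn k)) (D.e (ixn k')) a b) = true) ∧
    (8 * ixn k + a = D.pos ((K D).face k a) % 65536 ∨ 8 * ixn k + a = D.pos ((K D).face k a) / 65536) ∧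
    8 * ixn k' + b = D.pos ((K D).face k a) % 65536 + D.pos ((K D).face k a) / 65536 - (8 * ixn k + a) := by
  have h1 := (chk h _ (ixn_lt h k)).2.2 a a.2
  rw [← face_eq] at h1
  unfold chkP at h1
  simp only [fc_eq, Bool.and_eq_true, Bool.or_eq_true, Nat.beq_eq, Nat.blt_eq] at h1
  obtain ⟨h2, h3, h5, h4⟩ := h1
  set o := D.pos ((K D).face k a) % 65536 + D.pos ((K D).face k a) / 65536 - (8 * ixn k + a) with ho
  have hk' : o / 8 < D.rows.length := by rw [h.len]; exact h3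
  refine ⟨mkf (o / 8) hk', ⟨o % 8, Nat.mod_lt _ (by norm_num)⟩, ?_, ?_, h2, ?_⟩
  · rw [face_eq (mkf (o / 8) hk'), ixn_mk, ← (chk h _ h3).2.1]
    exact h5.symm
  · rw [ixn_mk]
    exact h4
  · rw [ixn_mk]
    show 8 * (o / 8) + o % 8 = o
    omega

omit h in
lemma relB_sound {k k' : (K D).ι} {a b : Fin 8} (hk : RecOK D (ixn k) (D.e (ixn k)))
    (hk' : RecOK D (ixn k') (D.e (ixn k'))) (hr : D.relB (D.e (ixn k)) (D.e (ixn k')) a b = true) :
    (kN (D.e (ixn k)) a % 4 = 2 ∧ ∃ c, (model D).RelW k a k' b c) ∨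
    (kN (D.e (ixn k)) a = 4 * iN (D.e (ixn k)) ∧ (model D).RelI k a k' b) ∨
    (kN (D.e (ixn k)) a % 4 ≠ 2 ∧ kN (D.e (ixn k)) a ≠ 4 * iN (D.e (ixn k)) ∧ ∃ c s, (model D).RelG k a k' b c s) := by
  unfold relB at hr
  by_cases h1 : kN (D.e (ixn k)) a % 4 = 2
  · left
    rw [h1, Nat.beq_refl, cond_true] at hr
    obtain ⟨c, g1, g2, g3, g4, g5⟩ := relW_sound hk hk' hr
    exact ⟨h1, c, ⟨g1, g2, g3, g4, g5⟩⟩
  · right
    rw [show Nat.beq (kN (D.e (ixn k)) a % 4) 2 = false from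
      Bool.eq_false_iff.2 fun h => h1 (Nat.eq_of_beq_eq_true h), cond_false] at hr
    by_cases h2 : kN (D.e (ixn k)) a = 4 * iN (D.e (ixn k))
    · left
      rw [show Nat.beq (kN (D.e (ixn k)) a) (4 * iN (D.e (ixn k))) = true by rw [← h2]; exact Nat.beq_refl _,
        cond_true] at hr
      obtain ⟨g1, g2, g3, g4, g5⟩ := relI_sound hk hk' hr
      exact ⟨h2, ⟨g1, g2, g3, g4, g5⟩⟩
    · right
      rw [show Nat.beq (kN (D.e (ixn k)) a) (4 * iN (D.e (ixn k))) = false from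
        Bool.eq_false_iff.2 fun h => h2 (Nat.eq_of_beq_eq_true h), cond_false] at hr
      obtain ⟨c, s, g1, g2, g3, g4, g5⟩ := relG_sound hk hk' hr
      exact ⟨h1, h2, c, s, ⟨g1, g2, g3, g4, g5⟩⟩

lemma glue (k k' : (K D).ι) (a b : Fin 8) (hf : (K D).face k a = (K D).face k' b) :
    (k = k' ∧ a = b) ∨ (model D).Rel k a k' b ∨ (model D).Rel k' b k a := by
  obtain ⟨k1, b1, _, h1, h2, h3⟩ := other h k a
  obtain ⟨_, _, _, _, h2', _⟩ := other h k' b
  rw [← hf] at h2'
  set lo := D.pos ((K D).face k a) % 65536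
  set hi := D.pos ((K D).face k a) / 65536
  by_cases hme : 8 * ixn k + (a : ℕ) = 8 * ixn k' + b
  · left
    refine ⟨ixn_inj (by omega), Fin.ext (by omega)⟩
  · right
    have e1 : 8 * ixn k1 + (b1 : ℕ) = 8 * ixn k' + b := by omega
    have e2 : k1 = k' := ixn_inj (by omega)
    have e3 : b1 = b := Fin.ext (by omega)
    subst e2
    subst e3
    cases ht : typ1 (D.e (ixn k)) a
    · left
      rw [ht, cond_false] at h1
      rcases relB_sound (rec' h k) (rec' h k1) h1 with ⟨_, g⟩ | ⟨_, g⟩ | ⟨_, _, g⟩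
      · exact Or.inl g
      · exact Or.inr (Or.inl g)
      · exact Or.inr (Or.inr g)
    · right
      rw [ht, cond_true] at h1
      rcases relB_sound (rec' h k1) (rec' h k) h1 with ⟨_, g⟩ | ⟨_, g⟩ | ⟨_, _, g⟩
      · exact Or.inl g
      · exact Or.inr (Or.inl g)
      · exact Or.inr (Or.inr g)

lemma ex (F : Fac) (hF : F.Valid) : ∃ k, (model D).F k = F := by
  have h1 := h.cX F.f F.f.2
  unfold chkX at h1
  simp only [List.all_eq_true, List.mem_range] at h1
  have hq : ∀ c, F.q c < (wN F.f).length := fun c => by rw [← wd_length]; exact (hF c).1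
  have h2 := h1 F.i F.i.2 (F.q 0) (hq 0) (F.q 1) (hq 1)
  have hA : ∀ c : Fin 2, alN c F.i (ltN F.f (F.q c)) = true := by
    intro c
    have := (hF c).2
    unfold Fac.sl at this
    rw [al_alN, lt_wd] at this
    exact this
  have hA0 := hA 0
  have hA1 := hA 1
  have e0 : ((0 : Fin 2) : ℕ) = 0 := rfl
  have e1 : ((1 : Fin 2) : ℕ) = 1 := rfl
  rw [e0] at hA0
  rw [e1] at hA1
  rw [hA0, hA1, Bool.and_self, cond_true, fc_eq, Bool.and_eq_true, Nat.blt_eq] at h2
  obtain ⟨h3, h4⟩ := h2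
  have h4' := Nat.eq_of_beq_eq_true h4
  have hk : D.ix F.f F.i (F.q 0) (F.q 1) < D.rows.length := by rw [h.len]; exact h3
  refine ⟨mkf _ hk, ?_⟩
  show fac (D.e (ixn (D := D) (mkf _ hk))) = F
  rw [ixn_mk]
  have hlen : ∀ c, F.q c < 16 := by
    intro c
    have hl : ∀ f : Fin 24, (wN f).length ≤ 15 := by decide
    exact lt_of_lt_of_le (hq c) ((hl F.f).trans (by norm_num))
  have q0 := hlen 0
  have q1 := hlen 1
  have hf := F.f.2
  have hi := F.i.2
  -- the digits
  have key : ∀ e v : ℕ, dg 24 (Nat.shiftRight e 64) 0 = v → fN e = v % 256 ∧ iN e = v / 256 % 16 ∧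
      qN e 0 = v / 4096 % 16 ∧ qN e 1 = v / 65536 % 16 := by
    intro e v hv
    have hv' : e / 2 ^ 64 % 2 ^ 24 = v := by
      rw [← hv, ← Nat.shiftRight_eq_div_pow]
      rfl
    have e1 : fN e = e / 2 ^ 64 % 2 ^ 8 := by
      unfold fN; rw [dg_def, Nat.shiftRight_eq_div_pow]
    have e2 : iN e = e / 2 ^ 64 / 2 ^ 8 % 2 ^ 4 := by
      unfold iN; rw [dg_def, Nat.shiftRight_eq_div_pow, Nat.div_div_eq_div_mul]; norm_num
    have e3 : qN e 0 = e / 2 ^ 64 / 2 ^ 12 % 2 ^ 4 := by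
      unfold qN; rw [dg_def, Nat.shiftRight_eq_div_pow, Nat.div_div_eq_div_mul]; norm_num
    have e4 : qN e 1 = e / 2 ^ 64 / 2 ^ 16 % 2 ^ 4 := by
      unfold qN; rw [dg_def, Nat.shiftRight_eq_div_pow, Nat.div_div_eq_div_mul]; norm_num
    rw [e1, e2, e3, e4]
    generalize e / 2 ^ 64 = x at hv'
    omega
  obtain ⟨k1, k2, k3, k4⟩ := key _ _ h4'
  apply Fac.ext
  · apply Fin.ext
    show fN _ % 24 = _
    rw [k1]
    omega
  · apply Fin.ext
    show iN _ % 5 = _
    rw [k2]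
    omega
  · funext c
    fin_cases c
    · show qN _ 0 = F.q 0
      rw [k3]; omega
    · show qN _ 1 = F.q 1
      rw [k4]; omega

lemma inj (k k' : (K D).ι) (hF : (model D).F k = (model D).F k') : k = k' := by
  have h1 := rec' h k
  have h2 := rec' h k'
  apply ixn_inj
  rw [← h1.ix, ← h2.ix]
  have hF' : fac (D.e (ixn k)) = fac (D.e (ixn k')) := hF
  have e1 : fN (D.e (ixn k)) = fN (D.e (ixn k')) := by rw [← h1.fv, ← h2.fv, hF']
  have e2 : iN (D.e (ixn k)) = iN (D.e (ixn k')) := by rw [← h1.iv, ← h2.iv, hF']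
  have e3 : qN (D.e (ixn k)) 0 = qN (D.e (ixn k')) 0 := congrFun (congrArg Fac.q hF') 0
  have e4 : qN (D.e (ixn k)) 1 = qN (D.e (ixn k')) 1 := congrFun (congrArg Fac.q hF') 1
  rw [e1, e2, e3, e4]

/-- the neighbour of a face which is crossed from this side -/
lemma nb (k : (K D).ι) (a : Fin 8) (ht : typ1 (D.e (ixn k)) a = false) :
    ∃ (k' : (K D).ι) (b : Fin 8), (K D).face k a = (K D).face k' b ∧
      D.relB (D.e (ixn k)) (D.e (ixn k')) a b = true := by
  obtain ⟨k', b, h1, h2, _, _⟩ := other h k a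
  rw [ht, cond_false] at h2
  exact ⟨k', b, h1, h2⟩

omit h in
lemma typ1_of (k : (K D).ι) (a : Fin 8) (h1 : kN (D.e (ixn k)) a % 4 ≠ 1)
    (h2 : kN (D.e (ixn k)) a ≠ 32 + 4 * iN (D.e (ixn k))) : typ1 (D.e (ixn k)) a = false := by
  unfold typ1
  rw [show Nat.beq (kN (D.e (ixn k)) a % 4) 1 = false from
      Bool.eq_false_iff.2 fun h => h1 (Nat.eq_of_beq_eq_true h),
    show Nat.beq (kN (D.e (ixn k)) a) (32 + 4 * iN (D.e (ixn k))) = false from
      Bool.eq_false_iff.2 fun h => h2 (Nat.eq_of_beq_eq_true h)]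
  rfl

/-- the digits of a key -/
lemma digits (k : (K D).ι) (a : Fin 8) {c : Fin 2} {s : Fin 5} {m : Fin 3} (ha : (model D).key k a = (c, s, m)) :
    kN (D.e (ixn k)) a / 32 = c ∧ kN (D.e (ixn k)) a / 4 % 8 = s ∧ kN (D.e (ixn k)) a % 4 = m ∧
      kN (D.e (ixn k)) a < 64 := by
  have hv := (rec' h k).vk a a.2
  obtain ⟨v1, v2, v3⟩ := dk_val hv
  have ha' : dk (kN (D.e (ixn k)) a) = (c, s, m) := ha
  rw [ha'] at v1 v2 v3
  exact ⟨v1.symm, v2.symm, v3.symm, hv.1⟩

theorem good : (model D).Good where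
  valid k := (rec' h k).valid
  ex := ex h
  inj := inj h
  kinj k := (rec' h k).kinj
  kex k := (rec' h k).kex
  nbW k a c ha := by
    obtain ⟨d1, d2, d3, d4⟩ := digits h k a ha
    have hm : kN (D.e (ixn k)) a % 4 = 2 := d3
    obtain ⟨k', b, hf, hr⟩ := nb h k a (typ1_of k a (by omega) (by omega))
    refine ⟨k', b, hf, ?_⟩
    rcases relB_sound (rec' h k) (rec' h k') hr with ⟨_, c', g⟩ | ⟨g1, _⟩ | ⟨g1, _⟩
    · have := g.ka
      rw [ha] at this
      have hc : c = c' := congrArg Prod.fst this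
      subst hc
      exact g
    · omega
    · exact absurd hm g1
  nbI k a ha := by
    obtain ⟨d1, d2, d3, d4⟩ := digits h k a ha
    have hm : kN (D.e (ixn k)) a % 4 = 0 := d3
    have hc : kN (D.e (ixn k)) a / 32 = 0 := d1
    have hs : kN (D.e (ixn k)) a / 4 % 8 = iN (D.e (ixn k)) := by rw [d2]; exact (rec' h k).iv
    have hi := (rec' h k).i
    obtain ⟨k', b, hf, hr⟩ := nb h k a (typ1_of k a (by omega) (by omega))
    refine ⟨k', b, hf, ?_⟩
    rcases relB_sound (rec' h k) (rec' h k') hr with ⟨g1, _⟩ | ⟨_, g⟩ | ⟨_, g2, _⟩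
    · omega
    · exact g
    · exfalso; apply g2; omega
  nbG k a c s ha hsi := by
    obtain ⟨d1, d2, d3, d4⟩ := digits h k a ha
    have hm : kN (D.e (ixn k)) a % 4 = 0 := d3
    have hi := (rec' h k).i
    have hs : kN (D.e (ixn k)) a / 4 % 8 ≠ iN (D.e (ixn k)) := by
      rw [d2]
      intro he
      apply hsi
      apply Fin.ext
      rw [he]
      exact (rec' h k).iv.symm
    obtain ⟨k', b, hf, hr⟩ := nb h k a (typ1_of k a (by omega) (by omega))
    refine ⟨k', b, hf, ?_⟩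
    rcases relB_sound (rec' h k) (rec' h k') hr with ⟨g1, _⟩ | ⟨g1, _⟩ | ⟨_, _, c', s', g⟩
    · omega
    · exfalso; apply hs; omega
    · have := g.ka
      rw [ha] at this
      have hc : c = c' := congrArg Prod.fst this
      have hs' : s = s' := congrArg (fun p => p.2.1) this
      subst hc
      subst hs'
      exact g
  glue k k' a b hf := glue h k k' a b hf
  qtP := h.cQ

/-- The realisation of a checked table is the weighted quotient. -/
theorem homeo (S : Sec) : Nonempty ((glueL 7 24 D.rows).Real ≃ₜ WSphere wts) := by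
  have : Finite (K D).ι := inferInstanceAs (Finite (Fin D.rows.length))
  exact Mdl.homeo S (good h)

end

end Tab

end Pool.Agent.H95.G1N
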