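import Pool.Agent.H95.G1N.Law

/-!
# Genus one: the map from the realisation to the weighted quotient
-/

open Finset

namespace Pool.Agent.H95.G1N

open Pool.Agent.H34.PLE Pool.Agent.H95.TB Pool.Agent.H2.G1

variable {K : Glue 7} {M : Mdl K}

namespace Mdl

/-- weight of a vertex given by its key -/
noncomputable def xk (M : Mdl K) (k : K.ι) (x : Fin 8 → ℝ) (κ : Fin 2 × Fin 5 × Fin 3) : ℝ :=
  ∑ a, if M.key k a = κ then x a else 0

/-- the data of a point of a facet -/
noncomputable def dd (M : Mdl K) (k : K.ι) (x : Fin 8 → ℝ) : Dat where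
  l c s := ∑ m, M.xk k x (c, s, m)
  X c := st (fun s => ∑ m, M.xk k x (c, s, m)) (wd (M.F k).f) ((M.F k).q c) + M.xk k x (c, (M.F k).sl c, 1)

lemma dd_l (k : K.ι) (x : Fin 8 → ℝ) (c : Fin 2) (s : Fin 5) :
    (M.dd k x).l c s = ∑ m, M.xk k x (c, s, m) := rfl

lemma xk_key (hM : M.Good) (k : K.ι) (x : Fin 8 → ℝ) (a : Fin 8) : M.xk k x (M.key k a) = x a := by
  unfold xk
  rw [sum_eq_single a]
  · rw [if_pos rfl]
  · intro b _ hb
    rw [if_neg]
    intro h
    exact hb (hM.kinj k h)
  · intro h; exact absurd (mem_univ _) h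

lemma xk_zero (hM : M.Good) (k : K.ι) (x : Fin 8 → ℝ) {κ : Fin 2 × Fin 5 × Fin 3} (h : ¬ (M.F k).Exp κ) :
    M.xk k x κ = 0 := by
  unfold xk
  refine sum_eq_zero fun a _ => if_neg fun ha => h ?_
  rw [← ha]; exact exp_key hM k a

lemma dd_val (hM : M.Good) (k : K.ι) {d : Dat} (h : Comp (M.F k) d) :
    M.dd k (fun a => val (M.F k) d (M.key k a)) = d := by
  have h1 : ∀ κ, M.xk k (fun a => val (M.F k) d (M.key k a)) κ = if (M.F k).Exp κ then val (M.F k) d κ else 0 := by
    intro κ
    by_cases hE : (M.F k).Exp κ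
    · rw [if_pos hE]
      obtain ⟨a, rfl⟩ := (hM.kex k κ).1 hE
      exact xk_key hM k _ a
    · rw [if_neg hE]; exact xk_zero hM k _ hE
  have h2 : ∀ c s, ∑ m, M.xk k (fun a => val (M.F k) d (M.key k a)) (c, s, m) = d.l c s := by
    intro c s
    rw [← sum_marks h c s]
    exact sum_congr rfl fun m _ => h1 _
  apply Dat.ext
  · funext c s; exact h2 c s
  · funext c
    show st (fun s => ∑ m, M.xk k (fun a => val (M.F k) d (M.key k a)) (c, s, m)) (wd (M.F k).f) ((M.F k).q c) +
      M.xk k (fun a => val (M.F k) d (M.key k a)) (c, (M.F k).sl c, 1) = d.X c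
    have e1 : (fun s => ∑ m, M.xk k (fun a => val (M.F k) d (M.key k a)) (c, s, m)) = d.l c := funext (h2 c)
    have hE : (M.F k).Exp (c, (M.F k).sl c, 1) := by
      refine ⟨(h.valid c).2, ?_⟩
      rw [if_pos rfl]
      show (1 : Fin 3) ≠ 0
      decide
    rw [e1, h1, if_pos hE]
    unfold val
    simp only [show (1 : Fin 3) ≠ 0 by decide, if_false, if_true]
    ring

lemma xk_nonneg (k : K.ι) (x : Sx 7) (κ : Fin 2 × Fin 5 × Fin 3) : 0 ≤ M.xk k x.1 κ := by
  unfold xk
  refine sum_nonneg fun a _ => ?_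
  split_ifs
  · exact x.2.1 a
  · exact le_rfl

lemma dd_comp (hM : M.Good) (k : K.ι) (x : Sx 7) : Comp (M.F k) (M.dd k x.1) := by
  have hnn : ∀ c s, 0 ≤ (M.dd k x.1).l c s := fun c s => by
    rw [dd_l]; exact sum_nonneg fun m _ => xk_nonneg k x _
  refine ⟨hM.valid k, hnn, fun c s hs => ?_, ?_, fun c => ?_, fun c => ?_⟩
  · show ∑ m, M.xk k x.1 (c, s, m) = 0
    refine sum_eq_zero fun m _ => xk_zero hM k _ fun h => ?_
    have := h.1
    simp only at this
    rw [hs] at this
    exact absurd this (by decide)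
  · show ∑ c, ∑ s, ∑ m, M.xk k x.1 (c, s, m) = 1
    have h1 : ∑ c : Fin 2, ∑ s : Fin 5, ∑ m : Fin 3, M.xk k x.1 (c, s, m) = ∑ κ, M.xk k x.1 κ := by
      rw [Fintype.sum_prod_type]
      refine sum_congr rfl fun c _ => ?_
      rw [Fintype.sum_prod_type]
    rw [h1]
    unfold xk
    rw [sum_comm]
    rw [← x.2.2]
    refine sum_congr rfl fun a _ => ?_
    rw [sum_ite_eq]
    simp
  · show st (M.dd k x.1 |>.l c) (wd (M.F k).f) ((M.F k).q c) ≤
      st (M.dd k x.1 |>.l c) (wd (M.F k).f) ((M.F k).q c) + M.xk k x.1 (c, (M.F k).sl c, 1)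
    linarith [xk_nonneg (M := M) k x (c, (M.F k).sl c, 1)]
  · show st (M.dd k x.1 |>.l c) (wd (M.F k).f) ((M.F k).q c) + M.xk k x.1 (c, (M.F k).sl c, 1) ≤
      st (M.dd k x.1 |>.l c) (wd (M.F k).f) ((M.F k).q c + 1)
    rw [st_succ (hM.valid k c).1]
    have : M.xk k x.1 (c, (M.F k).sl c, 1) ≤ (M.dd k x.1).l c ((M.F k).sl c) :=
      single_le_sum (f := fun m => M.xk k x.1 (c, (M.F k).sl c, m)) (fun m _ => xk_nonneg k x _) (mem_univ 1)
    unfold Fac.sl at this ⊢
    linarith

lemma val_dd (hM : M.Good) (k : K.ι) (x : Fin 8 → ℝ) (a : Fin 8) :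
    val (M.F k) (M.dd k x) (M.key k a) = x a := by
  rw [← xk_key hM k x a]
  have hE := exp_key hM k a
  generalize M.key k a = κ at hE
  obtain ⟨c, s, m⟩ := κ
  by_cases hs : s = (M.F k).sl c
  · have h2 := hE.2
    simp only [hs, if_true] at h2
    have hm : m = 1 ∨ m = 2 := by
      have := m.2
      have h4 : (m : ℕ) ≠ 0 := fun h => h2 (Fin.ext h)
      rcases (by omega : (m : ℕ) = 1 ∨ (m : ℕ) = 2) with h | h
      · left; exact Fin.ext h
      · right; exact Fin.ext h
    have h0 : M.xk k x (c, (M.F k).sl c, 0) = 0 := by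
      apply xk_zero hM
      rintro ⟨_, h3⟩
      simp only [if_true] at h3
      exact h3 rfl
    subst hs
    rcases hm with rfl | rfl
    · unfold val dd
      simp only [show (1 : Fin 3) ≠ 0 by decide, if_false, if_true]
      ring
    · unfold val
      simp only [show (2 : Fin 3) ≠ 0 by decide, show (2 : Fin 3) ≠ 1 by decide, if_false]
      rw [st_succ (hM.valid k c).1]
      show st ((M.dd k x).l c) (wd (M.F k).f) ((M.F k).q c) + (∑ m, M.xk k x (c, (M.F k).sl c, m)) -
        (st ((M.dd k x).l c) (wd (M.F k).f) ((M.F k).q c) + M.xk k x (c, (M.F k).sl c, 1)) = _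
      rw [Fin.sum_univ_three, h0]
      ring
  · have h2 := hE.2
    simp only [hs, if_false] at h2
    subst h2
    unfold val
    simp only [if_true]
    show ∑ m, M.xk k x (c, s, m) = _
    rw [Fin.sum_univ_three]
    have h1 : ∀ m : Fin 3, m ≠ 0 → M.xk k x (c, s, m) = 0 := by
      intro m hm
      apply xk_zero hM
      rintro ⟨_, h3⟩
      simp only [hs, if_false] at h3
      exact hm h3
    rw [h1 1 (by decide), h1 2 (by decide)]
    ring

lemma isPt_dd (hM : M.Good) (k : K.ι) (x : Sx 7) : M.IsPt (M.F k) (M.dd k x.1) (K.pt k x) :=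
  ⟨dd_comp hM k x, k, rfl, x, fun a => (val_dd hM k x.1 a).symm, rfl⟩

/-! ### the map -/

variable (S : Sec)

/-- the map on one facet -/
noncomputable def G (hM : M.Good) (k : K.ι) (x : Sx 7) : WSphere wts :=
  gd S (M.F k).f (M.dd k x.1) (dd_comp hM k x).nice

lemma gd_congr {f f' : Fin 24} {d d' : Dat} {h : Nice d} {h' : Nice d'} (hf : f = f') (hd : d = d') :
    gd S f d h = gd S f' d' h' := by subst hf; subst hd; rfl

/-- transport of data gives the data of the transported point -/
lemma dd_tr (hM : M.Good) {k k' : K.ι} {a b : Fin 8} {d' : Dat} {x y : Sx 7}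
    (h : M.Tr k a k' b (M.dd k x.1) d') (hb : y.1 b = 0)
    (hs : ∀ t, x.1 (a.succAbove t) = y.1 (b.succAbove t)) : M.dd k' y.1 = d' := by
  have h1 : y.1 = fun t => val (M.F k') d' (M.key k' t) := by
    funext t
    refine Fin.succAboveCases b ?_ (fun t => ?_) t
    · rw [hb]; exact h.zb.symm
    · rw [← hs t, ← h.vt t, val_dd hM]
  rw [h1]
  exact dd_val hM k' h.comp

lemma G_rel1 (hM : M.Good) {k k' : K.ι} {a b : Fin 8} {x y : Sx 7} (hr : M.Rel k a k' b) (ha : x.1 a = 0)
    (hb : y.1 b = 0) (hs : ∀ t, x.1 (a.succAbove t) = y.1 (b.succAbove t)) : G S hM k x = G S hM k' y := by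
  have h := dd_comp hM k x
  have hz : val (M.F k) (M.dd k x.1) (M.key k a) = 0 := by rw [val_dd hM, ha]
  rcases hr with ⟨c, hr⟩ | hr | ⟨c, s, hr⟩
  · have hX : (M.dd k x.1).X c = st ((M.dd k x.1).l c) (wd (M.F k).f) ((M.F k).q c + 1) := by
      rw [hr.ka] at hz
      unfold val at hz
      simp only [show (2 : Fin 3) ≠ 0 by decide, show (2 : Fin 3) ≠ 1 by decide, if_false] at hz
      linarith
    have ht := trW hM hr h hX
    have e := dd_tr hM ht hb hs
    have hd' := dd_comp hM k' y
    have ef : (M.F k').f = (M.F k).f := by rw [hr.F]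
    have hn : Nice ⟨(M.dd k x.1).l, Function.update (M.dd k x.1).X c
        (st ((M.dd k x.1).l c) (wd (M.F k).f) ((M.F k').q c))⟩ := ht.comp.nice
    unfold G
    rw [gd_congr S (h' := hn) ef e]
    refine gd_same S _ _ ⟨rfl, fun c' => ?_⟩
    by_cases hc : c' = c
    · subst hc
      simp only [Function.update_self]
      rcases next_st (h.off c') hr.next with ⟨_, h2⟩ | ⟨_, h2, h3⟩
      · exact ⟨0, by rw [h2, hX]; simp⟩
      · exact ⟨-1, by rw [h2, hX, h3]; push_cast; ring⟩
    · simp only [Function.update_of_ne hc]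
      exact ⟨0, by simp⟩
  · have hl : (M.dd k x.1).l 0 (M.F k).i = 0 := by
      rw [hr.ka] at hz
      unfold val at hz
      simpa using hz
    have ht := trI hM hr h hl
    have e := dd_tr hM ht hb hs
    have ef : (M.F k').f = (M.F k).f := by rw [hr.F]
    unfold G
    exact (gd_congr S ef e).symm
  · have hl0 : (M.dd k x.1).l c s = 0 := by
      rw [hr.ka] at hz
      unfold val at hz
      simpa using hz
    have hE := exp_key hM k a
    rw [hr.ka] at hE
    have hl : ∀ c', (M.dd k x.1).l c' s = 0 := by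
      intro c'
      by_cases hc : c' = c
      · rw [hc]; exact hl0
      · apply h.off
        have h1 := hE.1
        simp only at h1
        have hi := hr.hs
        by_contra hne
        rw [Bool.not_eq_false] at hne
        unfold al at h1 hne
        have hcc : (c = 0 ∧ c' = 1) ∨ (c = 1 ∧ c' = 0) := by omega
        rcases hcc with ⟨rfl, rfl⟩ | ⟨rfl, rfl⟩
        · rw [if_pos rfl] at h1
          rw [if_neg (by decide)] at hne
          exact hi (le_antisymm (of_decide_eq_true h1) (of_decide_eq_true hne))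
        · rw [if_neg (by decide)] at h1
          rw [if_pos rfl] at hne
          exact hi (le_antisymm (of_decide_eq_true hne) (of_decide_eq_true h1))
    obtain ⟨d', ht, ef, hg⟩ := trG hM hr h hl
    have e := dd_tr hM ht hb hs
    unfold G
    rw [gd_congr S (h' := ht.comp.nice) ef e]
    exact gd_glue S h.nice _ hl hg

lemma G_rel (hM : M.Good) (p q : Σ _ : K.ι, Sx 7) (h : K.Rel p q) : G S hM p.1 p.2 = G S hM q.1 q.2 := by
  obtain ⟨k, x⟩ := p
  obtain ⟨k', y⟩ := q
  obtain ⟨a, b, ha, hb, hf, hs⟩ := h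
  simp only at ha hb hf hs ⊢
  rcases hM.glue _ _ _ _ hf with ⟨hk, hab⟩ | h | h
  · subst hk
    subst hab
    congr 1
    apply Subtype.ext
    funext t
    refine Fin.succAboveCases a ?_ (fun t => ?_) t
    · rw [ha, hb]
    · exact hs t
  · exact G_rel1 S hM h ha hb hs
  · exact (G_rel1 S hM h hb ha fun t => (hs t).symm).symm

/-- the map -/
noncomputable def GG (hM : M.Good) : K.Real → WSphere wts := Quot.lift (fun p => G S hM p.1 p.2) (G_rel S hM)

lemma GG_pt (hM : M.Good) (k : K.ι) (x : Sx 7) : GG S hM (K.pt k x) = G S hM k x := rfl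

lemma GG_isPt (hM : M.Good) {F : Fac} {d : Dat} {p : K.Real} (hp : M.IsPt F d p) :
    GG S hM p = gd S F.f d hp.1.nice := by
  obtain ⟨h, k, rfl, x, hx, rfl⟩ := id hp
  rw [GG_pt]
  unfold G
  refine gd_congr S rfl ?_
  have : x.1 = fun a => val (M.F k) d (M.key k a) := funext hx
  rw [this]
  exact dd_val hM k h

/-! ### continuity -/

lemma continuous_len {X α : Type*} [TopologicalSpace X] {l : X → α → ℝ} (hl : ∀ s, Continuous fun x => l x s)
    (W : List α) : Continuous fun x => len (l x) W := by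
  induction W with
  | nil => simp only [len_nil]; exact continuous_const
  | cons s W ih => simp only [len_cons]; exact (hl s).add ih

lemma continuous_MM {X α : Type*} [TopologicalSpace X] {κ l : X → α → ℝ} (hκ : ∀ s, Continuous fun x => κ x s)
    (hl : ∀ s, Continuous fun x => l x s) (W : List α) : Continuous fun x => MM (κ x) (l x) W := by
  induction W with
  | nil => simp only [MM_nil]; exact continuous_const
  | cons s W ih =>
    simp only [MM_cons]
    exact ((hκ s).mul ((hl s).div_const 2)).add (ih.add ((hl s).mul (continuous_len hκ W)))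

lemma xk_continuous (k : K.ι) (κ : Fin 2 × Fin 5 × Fin 3) : Continuous fun x : Sx 7 => M.xk k x.1 κ := by
  unfold xk
  refine continuous_finsetSum _ fun a _ => ?_
  split_ifs
  · exact (continuous_apply a).comp continuous_subtype_val
  · exact continuous_const

lemma l_continuous (k : K.ι) (c : Fin 2) (s : Fin 5) : Continuous fun x : Sx 7 => (M.dd k x.1).l c s := by
  simp only [dd_l]
  exact continuous_finsetSum _ fun m _ => xk_continuous k _

lemma X_continuous (k : K.ι) (c : Fin 2) : Continuous fun x : Sx 7 => (M.dd k x.1).X c := by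
  have h1 : Continuous fun x : Sx 7 => st ((M.dd k x.1).l c) (wd (M.F k).f) ((M.F k).q c) :=
    continuous_len (fun s => l_continuous k c s) _
  exact h1.add (xk_continuous k _)

lemma P_continuous (k : K.ι) (s : Fin 5) : Continuous fun x : Sx 7 => (M.dd k x.1).P s :=
  continuous_finsetSum _ fun c _ => l_continuous k c s

lemma G_continuous (hM : M.Good) (k : K.ι) : Continuous (G S hM k) := by
  have hw : ∀ c, Continuous fun x : Sx 7 => (M.dd k x.1).w (M.F k).f c := fun c =>
    continuous_len (fun s => l_continuous k c s) _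
  have hκ : ∀ s, Continuous fun x : Sx 7 => (M.dd k x.1).κ (M.F k).f s := fun s =>
    (P_continuous k s).div_const _
  have hy : ∀ c, Continuous fun x : Sx 7 => (M.dd k x.1).y (M.F k).f c := fun c =>
    (X_continuous k c).sub (continuous_MM hκ (fun s => l_continuous k c s) _)
  have hu : Continuous fun x : Sx 7 => (M.dd k x.1).u (M.F k).f := by
    refine (PiLp.continuous_toLp 2 (fun _ : Fin 2 => ℂ)).comp (continuous_pi fun c => ?_)
    exact continuous_φ.comp ((hw c).prodMk (hy c).neg)
  have hv : Continuous fun x : Sx 7 => S.v (M.F k).f (M.dd k x.1).P := by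
    refine (PiLp.continuous_toLp 2 (fun _ : Fin 3 => ℂ)).comp ?_
    have h1 : Continuous fun x : Sx 7 => (⟨(M.dd k x.1).P, (dd_comp hM k x).nice.sim⟩ :
        {P : Fin 5 → ℝ // Sim P}) :=
      Continuous.subtype_mk (continuous_pi fun s => P_continuous k s) _
    have h2 := (S.cont (M.F k).f).domRestrict
    exact h2.comp h1
  unfold G gd wcl
  exact continuous_quot_mk.comp ((nz_continuous hu fun x => (dd_comp hM k x).nice.u_ne _).prodMk
    (nz_continuous hv fun x => S.v_ne (dd_comp hM k x).nice.sim))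

lemma GG_continuous (hM : M.Good) : Continuous (GG S hM) := by
  refine continuous_quot_lift _ ?_
  rw [continuous_sigma_iff]
  intro k
  exact G_continuous S hM k

end Mdl

end Pool.Agent.H95.G1N
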