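import Pool.Agent.H2.G1.T1

/-!
# The weighted quotient of a product of two spheres: Hausdorff property and classes of vectors
-/

namespace Pool.Agent.H95.G1N

open Pool.Agent.H95.TB Pool.Agent.H2.G1

variable {r : ℕ} {a : Fin r → ℕ}

lemma WRel.refl (a : Fin r → ℕ) (p : SC 2 × SC r) : WRel a p p :=
  ⟨1, norm_one, fun _ => (one_mul _).symm, fun _ => by rw [one_pow, one_mul]⟩

lemma WRel.symm {p q : SC 2 × SC r} (h : WRel a p q) : WRel a q p := by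
  obtain ⟨z, hz, h1, h2⟩ := h
  refine ⟨(starRingEnd ℂ) z, by rw [RCLike.norm_conj, hz], fun j => ?_, fun k => ?_⟩
  · rw [h1, ← mul_assoc, conj_mul_of_norm hz, one_mul]
  · rw [h2, ← mul_assoc, ← mul_pow, conj_mul_of_norm hz, one_pow, one_mul]

lemma WRel.trans {p q s : SC 2 × SC r} (h : WRel a p q) (h' : WRel a q s) : WRel a p s := by
  obtain ⟨z, hz, h1, h2⟩ := h
  obtain ⟨z', hz', h1', h2'⟩ := h'
  refine ⟨z' * z, by rw [norm_mul, hz, hz', one_mul], fun j => ?_, fun k => ?_⟩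
  · rw [h1', h1, mul_assoc]
  · rw [h2', h2, mul_pow, mul_assoc]

lemma WS_exact {p q : SC 2 × SC r} (h : (Quot.mk (WRel a) p : WSphere a) = Quot.mk (WRel a) q) : WRel a p q :=
  (Equivalence.quot_mk_eq_iff ⟨WRel.refl a, WRel.symm, WRel.trans⟩ p q).1 h

/-- the invariants of the action -/
noncomputable def winv (a : Fin r → ℕ) (p : SC 2 × SC r) : (Fin 2 → Fin 2 → ℂ) × (Fin 2 → Fin r → ℂ) :=
  (fun i j => p.1.1 i * (starRingEnd ℂ) (p.1.1 j), fun j k => ((starRingEnd ℂ) (p.1.1 j)) ^ a k * p.2.1 k)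

lemma winv_continuous (a : Fin r → ℕ) : Continuous (winv a) := by
  have c1 : ∀ j, Continuous fun p : SC 2 × SC r => p.1.1 j := fun j => by fun_prop
  have c2 : ∀ k, Continuous fun p : SC 2 × SC r => p.2.1 k := fun k => by fun_prop
  refine Continuous.prodMk ?_ ?_
  · exact continuous_pi fun i => continuous_pi fun j => (c1 i).mul (Complex.continuous_conj.comp (c1 j))
  · exact continuous_pi fun j => continuous_pi fun k => ((Complex.continuous_conj.comp (c1 j)).pow _).mul (c2 k)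

lemma winv_rel {p q : SC 2 × SC r} (h : WRel a p q) : winv a p = winv a q := by
  obtain ⟨z, hz, h1, h2⟩ := h
  have hz' := conj_mul_of_norm hz
  unfold winv
  refine Prod.ext ?_ ?_
  · funext i j
    simp only [h1, map_mul]
    calc p.1.1 i * (starRingEnd ℂ) (p.1.1 j) = ((starRingEnd ℂ) z * z) * (p.1.1 i * (starRingEnd ℂ) (p.1.1 j)) := by
          rw [hz', one_mul]
      _ = _ := by ring
  · funext j k
    simp only [h1, h2, map_mul]
    calc ((starRingEnd ℂ) (p.1.1 j)) ^ a k * p.2.1 k =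
          ((starRingEnd ℂ) z * z) ^ a k * (((starRingEnd ℂ) (p.1.1 j)) ^ a k * p.2.1 k) := by
          rw [hz', one_pow, one_mul]
      _ = _ := by rw [mul_pow, mul_pow]; ring

lemma wrel_of_inv {p q : SC 2 × SC r} (h : winv a p = winv a q) : WRel a p q := by
  have h1 : ∀ i j, p.1.1 i * (starRingEnd ℂ) (p.1.1 j) = q.1.1 i * (starRingEnd ℂ) (q.1.1 j) := fun i j =>
    congrFun (congrFun (congrArg Prod.fst h) i) j
  have h2 : ∀ j k, ((starRingEnd ℂ) (p.1.1 j)) ^ a k * p.2.1 k = ((starRingEnd ℂ) (q.1.1 j)) ^ a k * q.2.1 k :=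
    fun j k => congrFun (congrFun (congrArg Prod.snd h) j) k
  obtain ⟨b, hb⟩ := exists_ne_zero p.1
  have hbb := h1 b b
  rw [Complex.mul_conj, Complex.mul_conj, Complex.normSq_eq_norm_sq, Complex.normSq_eq_norm_sq] at hbb
  have hbb' : ‖p.1.1 b‖ ^ 2 = ‖q.1.1 b‖ ^ 2 := Complex.ofReal_injective hbb
  have hnorm : ‖p.1.1 b‖ = ‖q.1.1 b‖ := (pow_left_inj₀ (norm_nonneg _) (norm_nonneg _) (by norm_num)).1 hbb'
  have hqb : q.1.1 b ≠ 0 := by
    intro h0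
    rw [h0, norm_zero] at hnorm
    exact hb (norm_eq_zero.1 hnorm)
  have hcb : (starRingEnd ℂ) (q.1.1 b) ≠ 0 := by simpa using hqb
  have hz : ‖(starRingEnd ℂ) (p.1.1 b) / (starRingEnd ℂ) (q.1.1 b)‖ = 1 := by
    rw [norm_div, RCLike.norm_conj, RCLike.norm_conj, hnorm, div_self (by simpa using hqb)]
  have hu : ∀ j, q.1.1 j = (starRingEnd ℂ) (p.1.1 b) / (starRingEnd ℂ) (q.1.1 b) * p.1.1 j := by
    intro j
    have := h1 j b
    field_simp
    rw [← this]; ring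
  refine ⟨_, hz, hu, fun k => ?_⟩
  have h4 := h2 b k
  rw [div_pow]
  field_simp
  rw [mul_comm (q.2.1 k)]
  exact h4.symm

instance : T2Space (WSphere a) := by
  let f : WSphere a → (Fin 2 → Fin 2 → ℂ) × (Fin 2 → Fin r → ℂ) := Quot.lift (winv a) fun p q h => winv_rel h
  have hc : Continuous f := continuous_quot_lift _ (winv_continuous a)
  refine T2Space.of_injective_continuous (f := f) ?_ hc
  intro x y hxy
  induction x using Quot.ind with
  | mk p =>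
    induction y using Quot.ind with
    | mk q => exact Quot.sound (wrel_of_inv hxy)

/-- the class of a pair of nonzero vectors -/
noncomputable def wcl (a : Fin r → ℕ) (u : EuclideanSpace ℂ (Fin 2)) (hu : u ≠ 0)
    (v : EuclideanSpace ℂ (Fin r)) (hv : v ≠ 0) : WSphere a := Quot.mk _ (nz u hu, nz v hv)

lemma wcl_eq {u u' : EuclideanSpace ℂ (Fin 2)} {hu : u ≠ 0} {hu' : u' ≠ 0}
    {v v' : EuclideanSpace ℂ (Fin r)} {hv : v ≠ 0} {hv' : v' ≠ 0} {z : ℂ} (hz : ‖z‖ = 1) {α β : ℝ} (hα : 0 < α)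
    (hβ : 0 < β) (h1 : ∀ j, u' j = (α : ℂ) * (z * u j))
    (h2 : ∀ k, v' k = (β : ℂ) * (z ^ a k * v k)) :
    wcl a u hu v hv = wcl a u' hu' v' hv' := by
  have n1 : ‖u'‖ = α * ‖u‖ := by
    have : ‖u'‖ = ‖(α : ℂ) • u‖ := norm_eq_of_comp fun j => by
      rw [h1, PiLp.smul_apply, smul_eq_mul, norm_mul, norm_mul, norm_mul, hz, one_mul]
    rw [this, norm_smul, Complex.norm_real, Real.norm_of_nonneg hα.le]
  have n2 : ‖v'‖ = β * ‖v‖ := by
    have : ‖v'‖ = ‖(β : ℂ) • v‖ := norm_eq_of_comp fun k => by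
      rw [h2, PiLp.smul_apply, smul_eq_mul, norm_mul, norm_mul, norm_mul, norm_pow, hz, one_pow, one_mul]
    rw [this, norm_smul, Complex.norm_real, Real.norm_of_nonneg hβ.le]
  have hαc : (α : ℂ) ≠ 0 := by exact_mod_cast hα.ne'
  have hβc : (β : ℂ) ≠ 0 := by exact_mod_cast hβ.ne'
  refine Quot.sound ⟨z, hz, fun j => ?_, fun k => ?_⟩
  · simp only [nz_apply, n1, h1]
    push_cast
    rw [mul_inv]
    calc (α : ℂ)⁻¹ * (‖u‖ : ℂ)⁻¹ * ((α : ℂ) * (z * u j)) = ((α : ℂ)⁻¹ * α) * (z * ((‖u‖ : ℂ)⁻¹ * u j)) := by ring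
      _ = _ := by rw [inv_mul_cancel₀ hαc, one_mul]
  · simp only [nz_apply, n2, h2]
    push_cast
    rw [mul_inv]
    calc (β : ℂ)⁻¹ * (‖v‖ : ℂ)⁻¹ * ((β : ℂ) * (z ^ a k * v k)) =
          ((β : ℂ)⁻¹ * β) * (z ^ a k * ((‖v‖ : ℂ)⁻¹ * v k)) := by ring
      _ = _ := by rw [inv_mul_cancel₀ hβc, one_mul]

lemma mk_eq_wcl (a : Fin r → ℕ) (u : SC 2) (v : SC r) :
    (Quot.mk (WRel a) (u, v) : WSphere a) = wcl a u.1 (SC_ne u) v.1 (SC_ne v) := by
  have h : ∀ {m : ℕ} (u : SC m), nz u.1 (SC_ne u) = u := by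
    intro m u
    apply Subtype.ext
    have h2 : ‖u.1‖ = 1 := mem_sphere_zero_iff_norm.1 u.2
    show ((‖u.1‖⁻¹ : ℝ) : ℂ) • u.1 = u.1
    rw [h2]; simp
  unfold wcl
  rw [h, h]

lemma wcl_inj {u u' : EuclideanSpace ℂ (Fin 2)} {hu : u ≠ 0} {hu' : u' ≠ 0}
    {v v' : EuclideanSpace ℂ (Fin r)} {hv : v ≠ 0} {hv' : v' ≠ 0}
    (h : wcl a u hu v hv = wcl a u' hu' v' hv') :
    ∃ z : ℂ, ‖z‖ = 1 ∧ (∀ j, u' j = ((‖u'‖ / ‖u‖ : ℝ) : ℂ) * z * u j) ∧
      ∀ k, v' k = ((‖v'‖ / ‖v‖ : ℝ) : ℂ) * z ^ a k * v k := by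
  obtain ⟨z, hz, h1, h2⟩ := WS_exact h
  have nu' : ((‖u'‖ : ℝ) : ℂ) ≠ 0 := by exact_mod_cast norm_ne_zero_iff.2 hu'
  have nv' : ((‖v'‖ : ℝ) : ℂ) ≠ 0 := by exact_mod_cast norm_ne_zero_iff.2 hv'
  refine ⟨z, hz, fun j => ?_, fun k => ?_⟩
  · have := h1 j
    simp only [nz_apply] at this
    push_cast at this ⊢
    have h3 : u' j = (‖u'‖ : ℂ) * ((‖u'‖ : ℂ)⁻¹ * u' j) := by rw [mul_inv_cancel_left₀ nu']
    rw [h3, this]; ring
  · have := h2 k
    simp only [nz_apply] at this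
    push_cast at this ⊢
    have h3 : v' k = (‖v'‖ : ℂ) * ((‖v'‖ : ℂ)⁻¹ * v' k) := by rw [mul_inv_cancel_left₀ nv']
    rw [h3, this]; ring

end Pool.Agent.H95.G1N
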