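import Pool.Agent.H95.G1N.Over
import Pool.Agent.H95.G1N.WTarget

/-!
# Genus one: the map to the weighted quotient in coordinates
-/

open Finset

namespace Pool.Agent.H95.G1N

open Pool.Agent.H95.TB Pool.Agent.H2.G1

/-! ### the words of the gluings -/

lemma words_ok : ∀ (f : Fin 24) (a : Fin 5),
    ((wd f).filter fun s => s ≠ a).map (pi a (gs f a)) = sfx f a ++ pfx f a := by decide +kernel

lemma count_pos : ∀ (f : Fin 24) (s : Fin 5), 0 < (wd f).count s := by decide +kernel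

lemma count_gc : ∀ (f : Fin 24) (a s : Fin 5), s ≠ a → (wd (gc f a)).count (pi a (gs f a) s) = (wd f).count s := by
  decide +kernel

lemma len_eq_count (l : Fin 5 → ℝ) (W : List (Fin 5)) : len l W = ∑ s, (W.count s : ℝ) * l s := by
  induction W with
  | nil => simp [len_nil]
  | cons t W ih =>
    rw [len_cons, ih]
    have : ∀ s, ((t :: W).count s : ℝ) * l s = (if t = s then l s else 0) + (W.count s : ℝ) * l s := by
      intro s
      rw [List.count_cons]
      by_cases h : t = s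
      · simp [h]; ring
      · simp [h]
    rw [sum_congr rfl fun s _ => this s, sum_add_distrib, sum_ite_eq]
    simp

/-- nonnegative weights with sum 1 -/
structure Nice (d : Dat) : Prop where
  nn : ∀ c s, 0 ≤ d.l c s
  sum : ∑ c, ∑ s, d.l c s = 1

lemma Comp.nice {F : Fac} {d : Dat} (h : Comp F d) : Nice d := ⟨h.nn, h.sum⟩

namespace Dat

/-- weights of the slots -/
noncomputable def P (d : Dat) (s : Fin 5) : ℝ := ∑ c, d.l c s

/-- weights of the letters -/
noncomputable def κ (d : Dat) (f : Fin 24) (s : Fin 5) : ℝ := d.P s / ((wd f).count s : ℝ)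

/-- lengths of the circles -/
noncomputable def w (d : Dat) (f : Fin 24) (c : Fin 2) : ℝ := len (d.l c) (wd f)

/-- positions relative to the mean position -/
noncomputable def y (d : Dat) (f : Fin 24) (c : Fin 2) : ℝ := d.X c - MM (d.κ f) (d.l c) (wd f)

/-- the vector in `ℂ²` -/
noncomputable def u (d : Dat) (f : Fin 24) : EuclideanSpace ℂ (Fin 2) :=
  WithLp.toLp 2 fun c => φ (d.w f c) (-(d.y f c))

lemma u_apply (d : Dat) (f : Fin 24) (c : Fin 2) : d.u f c = φ (d.w f c) (-(d.y f c)) := rfl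

end Dat

lemma Nice.sim {d : Dat} (h : Nice d) : Sim d.P :=
  ⟨fun s => sum_nonneg fun c _ => h.nn c s, by unfold Dat.P; rw [sum_comm]; exact h.sum⟩

lemma Nice.w_nonneg {d : Dat} (h : Nice d) (f : Fin 24) (c : Fin 2) : 0 ≤ d.w f c := len_nonneg (h.nn c) _

lemma sum_w (d : Dat) (f : Fin 24) : ∑ c, d.w f c = ∑ s, ((wd f).count s : ℝ) * d.P s := by
  unfold Dat.w Dat.P
  rw [sum_congr rfl fun c _ => len_eq_count (d.l c) (wd f), sum_comm]
  exact sum_congr rfl fun s _ => (mul_sum _ _ _).symm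

lemma Nice.sum_w_pos {d : Dat} (h : Nice d) (f : Fin 24) : 0 < ∑ c, d.w f c := by
  rw [sum_w]
  have h1 : ∑ s, d.P s ≤ ∑ s, ((wd f).count s : ℝ) * d.P s := by
    refine sum_le_sum fun s _ => ?_
    have h2 : (1 : ℝ) ≤ (wd f).count s := by exact_mod_cast count_pos f s
    exact le_mul_of_one_le_left (h.sim.1 s) h2
  rw [h.sim.2] at h1
  linarith

lemma Nice.u_ne {d : Dat} (h : Nice d) (f : Fin 24) : d.u f ≠ 0 := by
  intro h0
  have h1 : ∀ c, d.w f c = 0 := by
    intro c
    have h2 : φ (d.w f c) (-(d.y f c)) = 0 := by rw [← Dat.u_apply, h0]; rfl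
    have h3 := congrArg norm h2
    rw [norm_φ, norm_zero] at h3
    exact abs_eq_zero.1 h3
  have h2 := h.sum_w_pos f
  rw [sum_congr rfl fun c _ => h1 c] at h2
  simp at h2

variable (S : Sec)

/-- the vector in `ℂ³` -/
noncomputable def Sec.v (f : Fin 24) (P : Fin 5 → ℝ) : EuclideanSpace ℂ (Fin 3) := WithLp.toLp 2 (S.U f P)

lemma Sec.v_apply (f : Fin 24) (P : Fin 5 → ℝ) (k : Fin 3) : S.v f P k = S.U f P k := rfl

lemma Sec.v_ne {f : Fin 24} {P : Fin 5 → ℝ} (h : Sim P) : S.v f P ≠ 0 := by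
  intro h0
  apply S.ne f P h
  funext k
  rw [← S.v_apply, h0]; rfl

/-- the class of the data -/
noncomputable def gd (f : Fin 24) (d : Dat) (h : Nice d) : WSphere wts :=
  wcl wts (d.u f) (h.u_ne f) (S.v f d.P) (S.v_ne h.sim)

/-- equality modulo the lengths -/
lemma gd_same {f : Fin 24} {d d' : Dat} (h : Nice d) (h' : Nice d') (hs : Mdl.SameD f d d') :
    gd S f d h = gd S f d' h' := by
  have eP : d'.P = d.P := by unfold Dat.P; rw [hs.l]
  refine wcl_eq (z := 1) norm_one one_pos one_pos (fun c => ?_) (fun k => ?_)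
  · rw [Dat.u_apply, Dat.u_apply]
    obtain ⟨m, hm⟩ := hs.X c
    have ew : d'.w f c = d.w f c := by unfold Dat.w; rw [hs.l]
    have ey : -(d'.y f c) = -(d.y f c) + ((-m : ℤ) : ℝ) * d.w f c := by
      unfold Dat.y Dat.κ Dat.w
      rw [hm, eP, hs.l]; push_cast; ring
    rw [ew, ey, φ_add_int]
    simp
  · rw [Sec.v_apply, Sec.v_apply, eP]; simp

lemma ee_pow (t : ℝ) (n : ℕ) : ee t ^ n = ee (n * t) := by
  induction n with
  | zero => simp [ee_zero]
  | succ n ih => rw [pow_succ, ih, ← ee_add]; congr 1; push_cast; ring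

lemma wts_eq (k : Fin 3) : wts k = k + 2 := by fin_cases k <;> rfl

lemma κ_pi {d d' : Dat} {f : Fin 24} {a : Fin 5} (hP : d'.P = tp a (gs f a) d.P) (ha : d.P a = 0) :
    (fun s => d'.κ (gc f a) (pi a (gs f a) s)) = d.κ f := by
  funext s
  unfold Dat.κ
  rw [hP]
  by_cases hs : s = a
  · subst hs
    rw [pi_self, tp_same, ha]; simp
  · rw [tp_pi _ _ _ hs, count_gc f a s hs]

omit S in
/-- gluing of the cells: slots, lengths and positions -/
lemma glue_coord {f : Fin 24} {a : Fin 5} {d d' : Dat} (h' : Nice d') (ha : ∀ c, d.l c a = 0)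
    (hs : Mdl.Gl f a d d') : d'.P = tp a (gs f a) d.P ∧ (∀ c, d'.w (gc f a) c = d.w f c) ∧
      ∀ c, ∃ m : ℤ, d'.y (gc f a) c = d.y f c + th f a d.P * d.w f c + m * d.w f c := by
  have haP : d.P a = 0 := sum_eq_zero fun c _ => ha c
  have eP : d'.P = tp a (gs f a) d.P := by
    funext t
    unfold Dat.P
    rw [sum_congr rfl fun c _ => congrFun (hs.l c) t]
    unfold tp
    refine Fin.succAboveCases (gs f a) ?_ (fun t => ?_) t
    · simp
    · simp
  have hb : ∀ c, d'.l c (gs f a) = 0 := fun c => by rw [hs.l]; exact tp_same _ _ _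
  have hbκ : d'.κ (gc f a) (gs f a) = 0 := by unfold Dat.κ; rw [eP, tp_same, zero_div]
  have hκ := κ_pi eP haP
  set θ := th f a d.P with hθ
  have eθ : len (d'.κ (gc f a)) (pfx f a) = θ := by
    rw [hθ]
    unfold th len Dat.κ
    rw [eP]
  have hl : ∀ c, (fun s => d'.l c (pi a (gs f a) s)) = d.l c := fun c => by rw [hs.l]; exact tp_pi' (ha c)
  have hfil : ∀ (g : Fin 24) (b : Fin 5) (l : Fin 5 → ℝ), l b = 0 →
      len l ((wd g).filter fun s => s ≠ b) = len l (wd g) := fun g b l hb =>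
    len_filter _ (fun s hs => by
      have : s = b := by simpa using hs
      rw [this, hb]) _
  have hfilM : ∀ (g : Fin 24) (b : Fin 5) (κ l : Fin 5 → ℝ), l b = 0 → κ b = 0 →
      MM κ l ((wd g).filter fun s => s ≠ b) = MM κ l (wd g) := fun g b κ l hb hκ =>
    MM_filter _ (fun s hs => by
      have : s = b := by simpa using hs
      rw [this, hb]) (fun s hs => by
      have : s = b := by simpa using hs
      rw [this, hκ]) _
  have hg : (wd (gc f a)).filter (fun s => s ≠ gs f a) = pfx f a ++ sfx f a := (List.take_append_drop _ _).symm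
  -- total weights
  have h1 : len (d'.κ (gc f a)) (pfx f a ++ sfx f a) = 1 := by
    rw [← hg, hfil _ _ _ hbκ, len_eq_count, ← h'.sim.2]
    refine sum_congr rfl fun s _ => ?_
    unfold Dat.κ
    have : ((wd (gc f a)).count s : ℝ) ≠ 0 := by exact_mod_cast (count_pos _ s).ne'
    field_simp
  have h2 : ∀ c, len (d'.l c) (pfx f a ++ sfx f a) = d'.w (gc f a) c := fun c => by
    rw [← hg, hfil _ _ _ (hb c)]; rfl
  have haκ : d.κ f a = 0 := by unfold Dat.κ; rw [haP, zero_div]
  have hw : ∀ c, d'.w (gc f a) c = d.w f c := by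
    intro c
    rw [← h2, len_append, add_comm, ← len_append, ← words_ok f a, len_map, hl, hfil _ _ _ (ha c)]
    rfl
  have hM : ∀ c, MM (d.κ f) (d.l c) (wd f) = MM (d'.κ (gc f a)) (d'.l c) (sfx f a ++ pfx f a) := by
    intro c
    rw [← words_ok f a, MM_map, hκ, hl, hfilM _ _ _ _ (ha c) haκ]
  have hM' : ∀ c, MM (d'.κ (gc f a)) (d'.l c) (wd (gc f a)) =
      MM (d'.κ (gc f a)) (d'.l c) (pfx f a ++ sfx f a) := by
    intro c
    rw [← hg, hfilM _ _ _ _ (hb c) hbκ]
  have hy : ∀ c, ∃ m : ℤ, d'.y (gc f a) c = d.y f c + θ * d.w f c + m * d.w f c := by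
    intro c
    obtain ⟨m, hm⟩ := hs.X c
    refine ⟨m, ?_⟩
    have e1 := MM_rot (d'.κ (gc f a)) (d'.l c) (pfx f a) (sfx f a)
    rw [h1, h2, eθ, ← hM, ← hM', hw] at e1
    have e2 : len (d'.l c) (wd (gc f a)) = d.w f c := hw c
    rw [e2] at hm
    unfold Dat.y
    rw [hm]
    linarith
  exact ⟨eP, hw, hy⟩

omit S in
/-- gluing of the cells: the vector in `ℂ²` -/
lemma u_glue {f : Fin 24} {a : Fin 5} {d d' : Dat} (h' : Nice d') (ha : ∀ c, d.l c a = 0)
    (hs : Mdl.Gl f a d d') (c : Fin 2) : d'.u (gc f a) c = ee (-(th f a d.P)) * d.u f c := by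
  obtain ⟨_, hw, hy⟩ := glue_coord h' ha hs
  rw [Dat.u_apply, Dat.u_apply]
  obtain ⟨m, hm⟩ := hy c
  rw [hw, hm]
  have e3 : -(d.y f c + th f a d.P * d.w f c + m * d.w f c) =
      -(d.y f c) + (-(th f a d.P)) * d.w f c + ((-m : ℤ) : ℝ) * d.w f c := by
    push_cast; ring
  rw [e3, φ_add_int, φ_add_mul]
  rfl

/-- gluing of the cells -/
lemma gd_glue {f : Fin 24} {a : Fin 5} {d d' : Dat} (h : Nice d) (h' : Nice d') (ha : ∀ c, d.l c a = 0)
    (hs : Mdl.Gl f a d d') : gd S f d h = gd S (gc f a) d' h' := by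
  have haP : d.P a = 0 := sum_eq_zero fun c _ => ha c
  have eP := (glue_coord h' ha hs).1
  refine wcl_eq (z := ee (-(th f a d.P))) (norm_ee _) one_pos one_pos (fun c => ?_) (fun k => ?_)
  · rw [u_glue h' ha hs c]; simp
  · rw [Sec.v_apply, Sec.v_apply, eP, S.law f a d.P h.sim haP k, wts_eq, ee_pow]
    have e4 : ee (((k : ℕ) + 2 : ℕ) * -(th f a d.P)) * ee (((k : ℕ) + 2 : ℝ) * th f a d.P) = 1 := by
      rw [← ee_add]
      have : (((k : ℕ) + 2 : ℕ) : ℝ) * -(th f a d.P) + ((k : ℕ) + 2 : ℝ) * th f a d.P = 0 := by push_cast; ring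
      rw [this, ee_zero]
    rw [← mul_assoc (ee _), e4]
    simp

end Pool.Agent.H95.G1N
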