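import Pool.Agent.H95.G1N.Fac

/-!
# Genus one: points of the facets and their coordinates
-/

open Finset

namespace Pool.Agent.H95.G1N

open Pool.Agent.H34.PLE

variable {K : Glue 7} {M : Mdl K}

lemma sum_marks {F : Fac} {d : Dat} (h : Comp F d) (c : Fin 2) (s : Fin 5) :
    (∑ m : Fin 3, if F.Exp (c, s, m) then val F d (c, s, m) else 0) = d.l c s := by
  unfold Fac.Exp
  by_cases ha : al c F.i s = true
  · simp only [ha, true_and]
    by_cases hs : s = F.sl c
    · simp only [hs, if_true]
      rw [Fin.sum_univ_three]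
      simp only [ne_eq, not_true_eq_false, if_false]
      rw [if_pos (by decide), if_pos (by decide)]
      unfold val
      simp only [show (2 : Fin 3) ≠ 0 by decide, show (2 : Fin 3) ≠ 1 by decide, show (1 : Fin 3) ≠ 0 by decide,
        if_false, if_true]
      rw [h.succ]
      ring
    · simp only [hs, if_false]
      rw [Fin.sum_univ_three]
      simp only [if_true]
      rw [if_neg (by decide), if_neg (by decide)]
      unfold val
      simp
  · rw [h.off c s (by simpa using ha)]
    exact sum_eq_zero fun m _ => if_neg fun h => ha h.1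

namespace Mdl

lemma sum_key (hM : M.Good) (k : K.ι) (g : Fin 2 × Fin 5 × Fin 3 → ℝ) :
    ∑ a, g (M.key k a) = ∑ κ, if (M.F k).Exp κ then g κ else 0 := by
  classical
  rw [← sum_filter]
  have : univ.filter (fun κ => (M.F k).Exp κ) = univ.image (M.key k) := by
    ext κ
    simp only [mem_filter, mem_univ, true_and, mem_image]
    exact hM.kex k κ
  rw [this, sum_image fun a _ b _ hab => hM.kinj k hab]

lemma val_nonneg {F : Fac} {d : Dat} (h : Comp F d) (κ : Fin 2 × Fin 5 × Fin 3) : 0 ≤ val F d κ := by
  unfold val
  split_ifs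
  · exact h.nn _ _
  · linarith [h.lo κ.1]
  · linarith [h.hi κ.1]

/-- the point of a facet with given data -/
noncomputable def px (hM : M.Good) (k : K.ι) (d : Dat) (h : Comp (M.F k) d) : Sx 7 :=
  ⟨fun a => val (M.F k) d (M.key k a), fun a => val_nonneg h _, by
    show ∑ a, val (M.F k) d (M.key k a) = 1
    rw [sum_key hM k fun κ => val (M.F k) d κ, Fintype.sum_prod_type, ← h.sum]
    refine sum_congr rfl fun c _ => ?_
    rw [Fintype.sum_prod_type]
    exact sum_congr rfl fun s _ => sum_marks h c s⟩

/-- `p` is the point with the data `d` of the facet `F` -/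
def IsPt (M : Mdl K) (F : Fac) (d : Dat) (p : K.Real) : Prop :=
  Comp F d ∧ ∃ k, M.F k = F ∧ ∃ x : Sx 7, (∀ a, x.1 a = val F d (M.key k a)) ∧ p = K.pt k x

lemma exists_isPt (hM : M.Good) {F : Fac} {d : Dat} (h : Comp F d) : ∃ p, M.IsPt F d p := by
  obtain ⟨k, hk⟩ := hM.ex F h.valid
  subst hk
  exact ⟨K.pt k (px hM k d h), h, k, rfl, px hM k d h, fun _ => rfl, rfl⟩

lemma isPt_unique (hM : M.Good) {F : Fac} {d : Dat} {p p' : K.Real} (h : M.IsPt F d p) (h' : M.IsPt F d p') :
    p = p' := by
  obtain ⟨_, k, hk, x, hx, rfl⟩ := h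
  obtain ⟨_, k', hk', x', hx', rfl⟩ := h'
  obtain rfl := hM.inj k k' (hk.trans hk'.symm)
  congr 1
  apply Subtype.ext
  funext a
  exact (hx a).trans (hx' a).symm

/-- general move -/
lemma move (hM : M.Good) {k k' : K.ι} {a b : Fin 8} (hf : K.face k a = K.face k' b) {d d' : Dat}
    (h : Comp (M.F k) d) (h' : Comp (M.F k') d') (ha : val (M.F k) d (M.key k a) = 0)
    (hb : val (M.F k') d' (M.key k' b) = 0)
    (ht : ∀ t, val (M.F k) d (M.key k (a.succAbove t)) = val (M.F k') d' (M.key k' (b.succAbove t))) {p : K.Real}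
    (hp : M.IsPt (M.F k) d p) : M.IsPt (M.F k') d' p := by
  have e : p = K.pt k (px hM k d h) := isPt_unique hM hp ⟨h, k, rfl, px hM k d h, fun _ => rfl, rfl⟩
  refine ⟨h', k', rfl, px hM k' d' h', fun _ => rfl, ?_⟩
  rw [e]
  exact K.pt_eq_of_rel a b ha hb hf ht

/-- transport of data through a face -/
structure Tr (M : Mdl K) (k : K.ι) (a : Fin 8) (k' : K.ι) (b : Fin 8) (d d' : Dat) : Prop where
  comp : Comp (M.F k') d'
  za : val (M.F k) d (M.key k a) = 0
  zb : val (M.F k') d' (M.key k' b) = 0
  vt : ∀ t, val (M.F k) d (M.key k (a.succAbove t)) = val (M.F k') d' (M.key k' (b.succAbove t))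

lemma Tr.isPt (hM : M.Good) {k k' : K.ι} {a b : Fin 8} {d d' : Dat} (h : M.Tr k a k' b d d')
    (hf : K.face k a = K.face k' b) {p : K.Real} (hp : M.IsPt (M.F k) d p) : M.IsPt (M.F k') d' p :=
  move hM hf hp.1 h.comp h.za h.zb h.vt hp

lemma exp_key (hM : M.Good) (k : K.ι) (a : Fin 8) : (M.F k).Exp (M.key k a) := (hM.kex k _).2 ⟨a, rfl⟩

lemma key_ne (hM : M.Good) (k : K.ι) (a : Fin 8) (t : Fin 7) : M.key k (a.succAbove t) ≠ M.key k a := fun h =>
  Fin.succAbove_ne a t (hM.kinj k h)

/-- the window moves to the next letter -/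
lemma trW (hM : M.Good) {k k' : K.ι} {a b : Fin 8} {c : Fin 2}
    (hr : M.RelW k a k' b c) {d : Dat} (h : Comp (M.F k) d)
    (hX : d.X c = st (d.l c) (wd (M.F k).f) ((M.F k).q c + 1)) :
    M.Tr k a k' b d ⟨d.l, Function.update d.X c (st (d.l c) (wd (M.F k).f) ((M.F k').q c))⟩ := by
  have ef : (M.F k').f = (M.F k).f := by rw [hr.F]
  have ei : (M.F k').i = (M.F k).i := by rw [hr.F]
  have eq : ∀ c' ≠ c, (M.F k').q c' = (M.F k).q c' := fun c' hc' => by
    rw [hr.F]; exact Function.update_of_ne hc' _ _
  have hv := hM.valid k'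
  have hsu : st (d.l c) (wd (M.F k).f) ((M.F k').q c + 1) =
      st (d.l c) (wd (M.F k).f) ((M.F k').q c) + d.l c ((M.F k').sl c) := by
    have h1 := (hv c).1
    rw [ef] at h1
    have h2 := st_succ (l := d.l c) h1
    rw [h2]
    unfold Fac.sl
    rw [ef]
  have h' : Comp (M.F k') ⟨d.l, Function.update d.X c (st (d.l c) (wd (M.F k).f) ((M.F k').q c))⟩ := by
    refine ⟨hv, h.nn, fun c' s hs => h.off c' s (by rw [← ei]; exact hs), h.sum, fun c' => ?_, fun c' => ?_⟩
    · by_cases hc : c' = c
      · subst hc
        simp only [Function.update_self]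
        rw [ef]
      · simp only [Function.update_of_ne hc]
        rw [ef, eq c' hc]
        exact h.lo c'
    · by_cases hc : c' = c
      · subst hc
        simp only [Function.update_self]
        rw [ef]
        exact st_le_succ (h.nn c') _
      · simp only [Function.update_of_ne hc]
        rw [ef, eq c' hc]
        exact h.hi c'
  refine ⟨h', ?_, ?_, ?_⟩
  · rw [hr.ka]
    unfold val
    simp only [show (2 : Fin 3) ≠ 0 by decide, show (2 : Fin 3) ≠ 1 by decide, if_false]
    rw [hX, sub_self]
  · rw [hr.kb]
    unfold val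
    simp only [show (1 : Fin 3) ≠ 0 by decide, if_false, if_true, Function.update_self]
    rw [ef, sub_self]
  · intro t
    have hne := key_ne hM k a t
    rw [hr.ks t]
    rw [hr.ka] at hne
    have hE := exp_key hM k (a.succAbove t)
    generalize M.key k (a.succAbove t) = κ at hne hE ⊢
    obtain ⟨c', s, m⟩ := κ
    unfold mvW
    by_cases hc : c' = c
    · subst hc
      simp only [if_true]
      by_cases hm : m = 1
      · subst hm
        simp only [if_true]
        have hs : s = (M.F k).sl c' := by
          by_contra hn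
          have h2 := hE.2
          simp only [hn, if_false] at h2
          exact absurd h2 (by decide)
        have e1 : val (M.F k) d (c', s, 1) = d.l c' ((M.F k).sl c') := by
          unfold val
          simp only [show (1 : Fin 3) ≠ 0 by decide, if_false, if_true]
          rw [hX, h.succ]
          ring
        rw [e1]
        by_cases hss : (M.F k).sl c' = (M.F k').sl c'
        · rw [if_pos hss]
          unfold val
          simp only [show (2 : Fin 3) ≠ 0 by decide, show (2 : Fin 3) ≠ 1 by decide, if_false, Function.update_self]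
          rw [ef, hsu, hss]
          ring
        · rw [if_neg hss]
          unfold val
          simp only [if_true]
      · rw [if_neg hm]
        have hs : s ≠ (M.F k).sl c' := by
          rintro rfl
          have h2 := hE.2
          simp only [if_true] at h2
          have h3 : m = 2 := by
            have := m.2
            have h4 : (m : ℕ) ≠ 0 := fun h => h2 (Fin.ext h)
            have h5 : (m : ℕ) ≠ 1 := fun h => hm (Fin.ext h)
            apply Fin.ext
            show (m : ℕ) = 2
            omega
          exact hne (by rw [h3])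
        have hm0 : m = 0 := by
          have h2 := hE.2
          simp only [hs, if_false] at h2
          exact h2
        subst hm0
        have e1 : val (M.F k) d (c', s, 0) = d.l c' s := by
          unfold val; simp only [if_true]
        rw [e1]
        by_cases hss : s = (M.F k').sl c'
        · rw [if_pos hss]
          unfold val
          simp only [show (2 : Fin 3) ≠ 0 by decide, show (2 : Fin 3) ≠ 1 by decide, if_false, Function.update_self]
          rw [ef, hsu, hss]
          ring
        · rw [if_neg hss]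
          unfold val
          simp only [if_true]
    · simp only [hc, if_false]
      unfold val
      simp only [Function.update_of_ne hc]
      rw [ef, eq c' hc]

lemma moveW (hM : M.Good) {k k' : K.ι} {a b : Fin 8} {c : Fin 2} (hf : K.face k a = K.face k' b)
    (hr : M.RelW k a k' b c) {d : Dat} {p : K.Real} (hp : M.IsPt (M.F k) d p)
    (hX : d.X c = st (d.l c) (wd (M.F k).f) ((M.F k).q c + 1)) :
    M.IsPt (M.F k') ⟨d.l, Function.update d.X c (st (d.l c) (wd (M.F k).f) ((M.F k').q c))⟩ p :=
  (trW hM hr hp.1 hX).isPt hM hf hp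

/-- the level slot decreases -/
lemma trI (hM : M.Good) {k k' : K.ι} {a b : Fin 8}
    (hr : M.RelI k a k' b) {d : Dat} (h : Comp (M.F k) d)
    (hl : d.l 0 (M.F k).i = 0) : M.Tr k a k' b d d := by
  have ef : (M.F k').f = (M.F k).f := by rw [hr.F]
  have eq : (M.F k').q = (M.F k).q := by rw [hr.F]
  have hi := hr.hi
  have h' : Comp (M.F k') d := by
    refine ⟨hM.valid k', h.nn, fun c' s hs => ?_, h.sum, fun c' => ?_, fun c' => ?_⟩
    · have hc : c' = 0 ∨ c' = 1 := by omega
      rcases hc with rfl | rfl
      · unfold al at hs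
        rw [if_pos rfl, decide_eq_false_iff_not, Fin.le_def] at hs
        by_cases h2 : s = (M.F k).i
        · rw [h2]; exact hl
        · apply h.off
          unfold al
          rw [if_pos rfl, decide_eq_false_iff_not, Fin.le_def]
          have : (s : ℕ) ≠ (M.F k).i := fun h => h2 (Fin.ext h)
          omega
      · unfold al at hs
        rw [if_neg (by decide), decide_eq_false_iff_not, Fin.le_def] at hs
        apply h.off
        unfold al
        rw [if_neg (by decide), decide_eq_false_iff_not, Fin.le_def]
        omega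
    · rw [ef, eq]; exact h.lo c'
    · rw [ef, eq]; exact h.hi c'
  have hv : ∀ κ, val (M.F k) d κ = val (M.F k') d κ := by
    intro κ; unfold val; rw [ef, eq]
  refine ⟨h', ?_, ?_, fun t => ?_⟩
  · rw [hr.ka]; unfold val; simp only [if_true]; exact hl
  · rw [hr.kb]; unfold val; simp only [if_true]
    apply h.off
    unfold al
    rw [if_neg (by decide), decide_eq_false_iff_not, Fin.le_def]
    omega
  · rw [hr.ks t]; exact hv _

lemma moveI (hM : M.Good) {k k' : K.ι} {a b : Fin 8} (hf : K.face k a = K.face k' b)
    (hr : M.RelI k a k' b) {d : Dat} {p : K.Real} (hp : M.IsPt (M.F k) d p)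
    (hl : d.l 0 (M.F k).i = 0) : M.IsPt (M.F k') d p := (trI hM hr hp.1 hl).isPt hM hf hp

lemma len_congr {α : Type*} {l l' : α → ℝ} {W : List α} (h : ∀ s ∈ W, l s = l' s) : len l W = len l' W := by
  unfold len
  congr 1
  exact List.map_congr_left h

lemma len_fl {l : Fin 5 → ℝ} {a : Fin 5} (h : l a = 0) (f : Fin 24) (q : ℕ) : len l (fl f a q) = st l (wd f) q := by
  unfold fl st
  exact len_filter _ (fun s hs => by
    have : s = a := by simpa using hs
    rw [this, h]) _

lemma len_gc {f : Fin 24} {a : Fin 5} (l : Fin 5 → ℝ) (hb : l (gs f a) = 0) :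
    len l (wd (gc f a)) = len l (pfx f a) + len l (sfx f a) := by
  rw [← len_append]
  unfold pfx sfx
  rw [List.take_append_drop]
  exact (len_filter _ (fun s hs => by
    have : s = gs f a := by simpa using hs
    rw [this, hb]) _).symm

/-- positions through a gluing -/
lemma st_qt (hM : M.Good) {f : Fin 24} {a : Fin 5} {q : ℕ} (hq : q < (wd f).length) (hqa : lt (wd f) q ≠ a)
    {l : Fin 5 → ℝ} (hl : l a = 0) :
    st (tp a (gs f a) l) (wd (gc f a)) (M.qt f a q) = st l (wd f) q + len (tp a (gs f a) l) (pfx f a) ∨
    st (tp a (gs f a) l) (wd (gc f a)) (M.qt f a q) = st l (wd f) q + len (tp a (gs f a) l) (pfx f a) -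
      len (tp a (gs f a) l) (wd (gc f a)) := by
  obtain ⟨_, _, h⟩ := hM.qtP f a q hq hqa
  have hb : tp a (gs f a) l (gs f a) = 0 := tp_same _ _ _
  have e1 : len (tp a (gs f a) l) ((fl f a q).map (pi a (gs f a))) = st l (wd f) q := by
    rw [len_map, tp_pi' hl, len_fl hl]
  have e2 := len_fl hb (gc f a) (M.qt f a q)
  rcases h with h | h
  · left
    rw [← e2, h, len_append, e1]
    ring
  · right
    rw [h, len_append, e2] at e1
    rw [len_gc _ hb]
    linarith

end Mdl

end Pool.Agent.H95.G1N
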