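import Pool.Agent.H95.G1N.Same

/-!
# Genus one: the points over one cell, and the gluings of the cells
-/

open Finset

namespace Pool.Agent.H95.G1N

open Pool.Agent.H34.PLE

variable {K : Glue 7} {M : Mdl K}

/-- every slot occurs in every word -/
lemma exists_slot : ∀ (f : Fin 24) (s : Fin 5), ∃ q < (wd f).length, lt (wd f) q = s := by decide +kernel

/-- a window letter at a given position -/
lemma exists_win {f : Fin 24} {c : Fin 2} {i : Fin 5} {l : Fin 5 → ℝ} (hl : ∀ s, 0 ≤ l s)
    (hoff : ∀ s, al c i s = false → l s = 0) {X : ℝ} (h0 : 0 ≤ X) (h1 : X ≤ len l (wd f)) :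
    ∃ q, q < (wd f).length ∧ al c i (lt (wd f) q) = true ∧ st l (wd f) q ≤ X ∧ X ≤ st l (wd f) (q + 1) ∧
      (0 < l (lt (wd f) q) ∨ lt (wd f) q = i) := by
  rcases (h0.trans h1).eq_or_lt with hw | hw
  · obtain ⟨q, hq, hs⟩ := exists_slot f i
    have hX : X = 0 := le_antisymm (by rw [hw]; exact h1) h0
    refine ⟨q, hq, ?_, ?_, ?_, Or.inr hs⟩
    · rw [hs]; unfold al; split_ifs <;> exact decide_eq_true le_rfl
    · rw [hX, hw]; exact st_le_len hl _
    · rw [hX]; exact st_nonneg hl _
  · obtain ⟨q, hq, hp, h2, h3⟩ := exists_letter hl hw h0 h1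
    refine ⟨q, hq, ?_, h2, h3, Or.inl hp⟩
    by_contra hne
    rw [Bool.not_eq_true] at hne
    exact absurd (hoff _ hne) hp.ne'

/-- a facet with given data -/
lemma exists_comp {f : Fin 24} {i : Fin 5} {d : Dat} (hl : ∀ c s, 0 ≤ d.l c s)
    (hoff : ∀ c s, al c i s = false → d.l c s = 0) (hs : ∑ c, ∑ s, d.l c s = 1)
    (h0 : ∀ c, 0 ≤ d.X c) (h1 : ∀ c, d.X c ≤ len (d.l c) (wd f)) :
    ∃ q, Comp ⟨f, i, q⟩ d ∧ ∀ c, 0 < d.l c (lt (wd f) (q c)) ∨ lt (wd f) (q c) = i := by
  choose q h2 h3 h4 h5 h6 using fun c => exists_win (f := f) (hl c) (hoff c) (h0 c) (h1 c)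
  exact ⟨q, ⟨fun c => ⟨h2 c, h3 c⟩, hl, hoff, hs, h4, h5⟩, h6⟩

namespace Mdl

lemma SameD.refl (f : Fin 24) (d : Dat) : SameD f d d := ⟨rfl, fun _ => ⟨0, by simp⟩⟩

lemma SameD.symm {f : Fin 24} {d d' : Dat} (h : SameD f d d') : SameD f d' d :=
  ⟨h.l.symm, fun c => by
    obtain ⟨m, hm⟩ := h.X c
    exact ⟨-m, by rw [hm, h.l]; push_cast; ring⟩⟩

/-- **Points over the same cell with the same data are equal.** -/
theorem same_aux (hM : M.Good) : ∀ (n : ℕ) {F F' : Fac} {d d' : Dat} {p p' : K.Real} (_ : M.IsPt F d p)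
    (_ : M.IsPt F' d' p') (_ : F'.f = F.f) (_ : SameD F.f d d'), (F.i : ℕ) = F'.i + n → p = p' := by
  intro n
  induction n with
  | zero => intro F F' d d' p p' hp hp' hf hs hi; exact same_i hM hp hp' hf (Fin.ext (by omega)) hs
  | succ n ih =>
    intro F F' d d' p p' hp hp' hf hs hi
    have h := hp.1
    have h' := hp'.1
    have hl0 : ∀ s : Fin 5, F'.i < s → d.l 0 s = 0 := by
      intro s hs'
      rw [← hs.l]
      apply h'.off
      unfold al
      rw [if_pos rfl, decide_eq_false_iff_not]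
      exact not_le.2 hs'
    obtain ⟨j, hj⟩ : ∃ j : Fin 5, (j : ℕ) + 1 = F.i := ⟨⟨F.i - 1, by omega⟩, by show (F.i : ℕ) - 1 + 1 = F.i; omega⟩
    -- a window of the circle 0 with slot `≤ j`
    have hb := X_bd h 0
    obtain ⟨q, q1, q2, q3, q4, _⟩ := exists_win (f := F.f) (c := 0) (i := j) (l := d.l 0) (h.nn 0) (fun s hs' => by
      apply hl0
      unfold al at hs'
      rw [if_pos rfl, decide_eq_false_iff_not, Fin.le_def] at hs'
      rw [Fin.lt_def]
      omega) hb.1 hb.2
    have q2' : lt (wd F.f) q ≤ j := by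
      unfold al at q2
      rw [if_pos rfl] at q2
      exact of_decide_eq_true q2
    have hA : F.Adm 0 q := by
      refine ⟨q1, ?_⟩
      unfold al
      rw [if_pos rfl]
      apply decide_eq_true
      rw [Fin.le_def] at q2' ⊢
      omega
    have hc : Comp (F.up 0 q) (d.up 0 (d.X 0)) := h.up hA q3 q4
    rw [Dat.up_self] at hc
    obtain ⟨p0, hp0⟩ := exists_isPt hM hc
    have e0 : p = p0 := same_i hM hp hp0 rfl rfl (SameD.refl _ _)
    subst e0
    obtain ⟨k, hk⟩ := hM.ex _ hc.valid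
    have hsl : (M.F k).sl 0 = lt (wd F.f) q := by
      rw [hk]; unfold Fac.sl; rw [Fac.up_q]; rfl
    have hki : (M.F k).i = F.i := by rw [hk]; rfl
    have hE : (M.F k).Exp (0, (M.F k).i, 0) := by
      refine ⟨?_, ?_⟩
      · show al 0 (M.F k).i (M.F k).i = true
        unfold al
        rw [if_pos rfl]
        exact decide_eq_true le_rfl
      · show if (M.F k).i = (M.F k).sl 0 then (0 : Fin 3) ≠ 0 else (0 : Fin 3) = 0
        rw [if_neg]
        rw [hsl, hki]
        intro he
        rw [← he, Fin.le_def] at q2'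
        omega
    obtain ⟨a, ha⟩ := (hM.kex k _).1 hE
    obtain ⟨k', b, hface, hr⟩ := hM.nbI k a ha
    rw [← hk] at hp0
    have hm := moveI hM hface hr hp0 (by
      rw [hki]
      apply hl0
      rw [Fin.lt_def]
      omega)
    have hi' := hr.hi
    rw [hki] at hi'
    have hf' : (M.F k').f = F.f := by rw [hr.F, hk]; rfl
    refine ih hm hp' (by rw [hf']; exact hf) (by rw [hf']; exact hs) ?_
    omega

theorem same (hM : M.Good) {F F' : Fac} {d d' : Dat} {p p' : K.Real} (hp : M.IsPt F d p)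
    (hp' : M.IsPt F' d' p') (hf : F'.f = F.f) (hs : SameD F.f d d') : p = p' := by
  rcases le_total (F'.i : ℕ) F.i with h | h
  · exact same_aux hM (F.i - F'.i) hp hp' hf hs (by omega)
  · refine (same_aux hM (F'.i - F.i) hp' hp hf.symm ?_ (by omega)).symm
    rw [hf]; exact hs.symm

lemma gluing_rel (hM : M.Good) {k k' : K.ι} {a b : Fin 8} {c : Fin 2} {s : Fin 5}
    (hr : M.RelG k a k' b c s) (c' : Fin 2) : (M.F k).sl c' ≠ s := by
  have hE := exp_key hM k a
  rw [hr.ka] at hE
  obtain ⟨h1, h2⟩ := hE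
  intro hs
  by_cases hc : c' = c
  · subst hc
    simp only [hs, if_true] at h2
    exact absurd rfl h2
  · have h3 := (hM.valid k c').2
    rw [hs] at h3
    simp only at h1
    have hi := hr.hs
    unfold al at h1 h3
    have hcc : (c = 0 ∧ c' = 1) ∨ (c = 1 ∧ c' = 0) := by omega
    rcases hcc with ⟨rfl, rfl⟩ | ⟨rfl, rfl⟩
    · rw [if_pos rfl] at h1
      rw [if_neg (by decide)] at h3
      exact hi (le_antisymm (of_decide_eq_true h1) (of_decide_eq_true h3))
    · rw [if_neg (by decide)] at h1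
      rw [if_pos rfl] at h3
      exact hi (le_antisymm (of_decide_eq_true h3) (of_decide_eq_true h1))

lemma al_pi (c : Fin 2) {a b i s : Fin 5} (hi : i ≠ a) (hs : s ≠ a) : al c (pi a b i) (pi a b s) = al c i s := by
  unfold al
  split_ifs
  · rw [decide_eq_decide]; exact pi_lt a b s i hs hi
  · rw [decide_eq_decide]; exact pi_lt a b i s hi hs

lemma tp_nonneg {a b : Fin 5} {P : Fin 5 → ℝ} (h : ∀ s, 0 ≤ P s) (s : Fin 5) : 0 ≤ tp a b P s := by
  unfold tp
  refine Fin.succAboveCases b ?_ (fun t => ?_) s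
  · simp
  · simp only [Fin.insertNth_apply_succAbove]; exact h _

lemma tp_sum {a b : Fin 5} {P : Fin 5 → ℝ} (h : P a = 0) : ∑ s, tp a b P s = ∑ s, P s := by
  rw [Fin.sum_univ_succAbove _ b, Fin.sum_univ_succAbove _ a, h, tp_same]
  unfold tp; simp

/-- data through a gluing of cells -/
structure Gl (f : Fin 24) (a : Fin 5) (d d' : Dat) : Prop where
  l : ∀ c, d'.l c = tp a (gs f a) (d.l c)
  X : ∀ c, ∃ m : ℤ, d'.X c = d.X c + len (d'.l c) (pfx f a) + m * len (d'.l c) (wd (gc f a))

/-- the gluing of cells -/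
lemma trG (hM : M.Good) {k k' : K.ι} {a b : Fin 8} {c : Fin 2} {s : Fin 5}
    (hr : M.RelG k a k' b c s) {d : Dat} (h : Comp (M.F k) d)
    (hl : ∀ c, d.l c s = 0) :
    ∃ d', M.Tr k a k' b d d' ∧ (M.F k').f = gc (M.F k).f s ∧ Gl (M.F k).f s d d' := by
  have ef : (M.F k').f = gc (M.F k).f s := by rw [hr.F]
  have ei : (M.F k').i = pi s (gs (M.F k).f s) (M.F k).i := by rw [hr.F]
  have eq : ∀ c', (M.F k').q c' = M.qt (M.F k).f s ((M.F k).q c') := fun c' => by rw [hr.F]
  have hsl := gluing_rel hM hr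
  have hq := fun c' => hM.qtP (M.F k).f s ((M.F k).q c') (h.valid c').1 (hsl c')
  set f := (M.F k).f with hfd
  set g := gs f s with hg
  have esl : ∀ c', (M.F k').sl c' = pi s g ((M.F k).sl c') := by
    intro c'
    unfold Fac.sl
    rw [ef, eq]
    exact (hq c').2.1
  let d' : Dat := ⟨fun c => tp s g (d.l c), fun c' => d.X c' - st (d.l c') (wd f) ((M.F k).q c') +
    st (tp s g (d.l c')) (wd (gc f s)) ((M.F k').q c')⟩
  have hsu : ∀ c', st (tp s g (d.l c')) (wd (gc f s)) ((M.F k').q c' + 1) =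
      st (tp s g (d.l c')) (wd (gc f s)) ((M.F k').q c') + d.l c' ((M.F k).sl c') := by
    intro c'
    have h1 := (hM.valid k' c').1
    rw [ef] at h1
    rw [st_succ h1]
    congr 1
    have h2 : lt (wd (gc f s)) ((M.F k').q c') = pi s g ((M.F k).sl c') := by
      rw [eq]; exact (hq c').2.1
    rw [h2]
    exact tp_pi s g (d.l c') (hsl c')
  have h' : Comp (M.F k') d' := by
    refine ⟨hM.valid k', fun c' => tp_nonneg (h.nn c'), fun c' t ht => ?_, ?_, fun c' => ?_, fun c' => ?_⟩
    · by_cases htg : t = g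
      · rw [htg]; exact tp_same _ _ _
      · have e1 : t = pi s g (pi g s t) := (pi_pi g s t).symm
        have h2 : pi g s t ≠ s := pi_ne g s t htg
        rw [e1, ei, al_pi c' hr.hs.symm h2] at ht
        show tp s g (d.l c') t = 0
        rw [e1, tp_pi s g _ h2]
        exact h.off c' _ ht
    · show ∑ c, ∑ t, tp s g (d.l c) t = 1
      rw [← h.sum]
      exact sum_congr rfl fun c _ => tp_sum (hl c)
    · show st (tp s g (d.l c')) (wd (M.F k').f) ((M.F k').q c') ≤ d.X c' - st (d.l c') (wd f) ((M.F k).q c') +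
        st (tp s g (d.l c')) (wd (gc f s)) ((M.F k').q c')
      rw [ef]
      linarith [h.lo c']
    · show d.X c' - st (d.l c') (wd f) ((M.F k).q c') + st (tp s g (d.l c')) (wd (gc f s)) ((M.F k').q c') ≤
        st (tp s g (d.l c')) (wd (M.F k').f) ((M.F k').q c' + 1)
      rw [ef, hsu]
      have := h.hi c'
      rw [h.succ] at this
      linarith
  refine ⟨d', ?_, ef, fun _ => rfl, fun c' => ?_⟩
  · refine ⟨h', ?_, ?_, fun t => ?_⟩
    · rw [hr.ka]; unfold val; simp only [if_true]; exact hl c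
    · obtain ⟨c', hc'⟩ := hr.kb
      rw [hc']; unfold val; simp only [if_true]
      exact tp_same _ _ _
    · rw [hr.ks t]
      obtain ⟨c', u, m⟩ := M.key k (a.succAbove t)
      unfold val
      simp only
      split_ifs with hm hm1
      · show d.l c' u = tp s g (d.l c') (pi s g u)
        by_cases hu : u = s
        · subst hu
          rw [pi_self, tp_same, hl]
        · rw [tp_pi s g _ hu]
      · rw [ef]
        show d.X c' - st (d.l c') (wd f) ((M.F k).q c') = (d.X c' - st (d.l c') (wd f) ((M.F k).q c') +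
          st (tp s g (d.l c')) (wd (gc f s)) ((M.F k').q c')) - st (tp s g (d.l c')) (wd (gc f s)) ((M.F k').q c')
        ring
      · rw [ef]
        show st (d.l c') (wd f) ((M.F k).q c' + 1) - d.X c' = st (tp s g (d.l c')) (wd (gc f s)) ((M.F k').q c' + 1) -
          (d.X c' - st (d.l c') (wd f) ((M.F k).q c') + st (tp s g (d.l c')) (wd (gc f s)) ((M.F k').q c'))
        rw [hsu, h.succ]
        ring
  · have h1 := st_qt hM (h.valid c').1 (hsl c') (hl c')
    rw [← eq] at h1
    show ∃ m : ℤ, d.X c' - st (d.l c') (wd f) ((M.F k).q c') +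
      st (tp s g (d.l c')) (wd (gc f s)) ((M.F k').q c') = d.X c' + len (tp s g (d.l c')) (pfx f s) +
      m * len (tp s g (d.l c')) (wd (gc f s))
    rcases h1 with h1 | h1
    · exact ⟨0, by rw [h1]; push_cast; ring⟩
    · exact ⟨-1, by rw [h1]; push_cast; ring⟩

/-- **Crossing a face of a cell.** -/
theorem cross (hM : M.Good) {F : Fac} {d : Dat} {p : K.Real} (hp : M.IsPt F d p) {a : Fin 5}
    (ha : ∀ c, d.l c a = 0) :
    ∃ F' d', M.IsPt F' d' p ∧ F'.f = gc F.f a ∧ Gl F.f a d d' := by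
  have h := hp.1
  -- a level slot different from `a`
  have hi : ∃ i : Fin 5, i ≠ a ∧ ∀ c s, al c i s = false → d.l c s = 0 := by
    by_cases hia : F.i = a
    · rcases Nat.eq_zero_or_pos (a : ℕ) with h0 | h0
      · have ha0 : a = 0 := Fin.ext h0
        refine ⟨1, by rw [ha0]; decide, fun c s hs => ?_⟩
        have hc : c = 0 ∨ c = 1 := by omega
        rcases hc with rfl | rfl
        · apply h.off
          unfold al at hs ⊢
          rw [if_pos rfl, decide_eq_false_iff_not, Fin.le_def] at hs ⊢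
          rw [hia, ha0]
          have e1 : ((1 : Fin 5) : ℕ) = 1 := rfl
          have e0 : ((0 : Fin 5) : ℕ) = 0 := rfl
          omega
        · have hs0 : s = 0 := by
            unfold al at hs
            rw [if_neg (by decide), decide_eq_false_iff_not, Fin.le_def] at hs
            have e1 : ((1 : Fin 5) : ℕ) = 1 := rfl
            apply Fin.ext
            show (s : ℕ) = 0
            omega
          rw [hs0, ← ha0]; exact ha 1
      · obtain ⟨j, hj⟩ : ∃ j : Fin 5, (j : ℕ) + 1 = a := ⟨⟨a - 1, by omega⟩, by show (a : ℕ) - 1 + 1 = a; omega⟩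
        refine ⟨j, fun h => by rw [h] at hj; omega, fun c s hs => ?_⟩
        by_cases hsa : s = a
        · rw [hsa]; exact ha c
        · have hsa' : (s : ℕ) ≠ a := fun h => hsa (Fin.ext h)
          apply h.off
          have hc : c = 0 ∨ c = 1 := by omega
          rcases hc with rfl | rfl
          · unfold al at hs ⊢
            rw [if_pos rfl, decide_eq_false_iff_not, Fin.le_def] at hs ⊢
            rw [hia]
            omega
          · unfold al at hs ⊢
            rw [if_neg (by decide), decide_eq_false_iff_not, Fin.le_def] at hs ⊢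
            rw [hia]
            omega
    · exact ⟨F.i, hia, h.off⟩
  obtain ⟨i, hia, hoff⟩ := hi
  have hb := fun c => X_bd h c
  obtain ⟨q, hc, hq⟩ := exists_comp (f := F.f) (i := i) h.nn hoff h.sum (fun c => (hb c).1) fun c => (hb c).2
  obtain ⟨p0, hp0⟩ := exists_isPt hM hc
  have e0 : p = p0 := same hM hp hp0 rfl (SameD.refl _ _)
  subst e0
  obtain ⟨k, hk⟩ := hM.ex _ hc.valid
  -- the circle of the slot `a`
  have hcir : ∃ c, al c i a = true := by
    rcases le_total a i with h1 | h1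
    · exact ⟨0, by unfold al; rw [if_pos rfl]; exact decide_eq_true h1⟩
    · exact ⟨1, by unfold al; rw [if_neg (by decide)]; exact decide_eq_true h1⟩
  obtain ⟨c, hc'⟩ := hcir
  have hE : (M.F k).Exp (c, a, 0) := by
    rw [hk]
    refine ⟨hc', ?_⟩
    show if a = lt (wd F.f) (q c) then (0 : Fin 3) ≠ 0 else (0 : Fin 3) = 0
    rw [if_neg]
    intro he
    rcases hq c with h1 | h1
    · rw [← he, ha c] at h1; exact lt_irrefl _ h1
    · rw [← he] at h1; exact hia h1.symm
  obtain ⟨v, hv⟩ := (hM.kex k _).1 hE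
  obtain ⟨k', b, hface, hr⟩ := hM.nbG k v c a hv (by rw [hk]; exact hia.symm)
  rw [← hk] at hp0
  obtain ⟨d', h1, h2, h3⟩ := trG hM hr hp0.1 ha
  have ef : (M.F k).f = F.f := by rw [hk]
  rw [ef] at h2 h3
  exact ⟨M.F k', d', h1.isPt hM hface hp0, h2, h3⟩

end Mdl

end Pool.Agent.H95.G1N
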