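import Pool.Agent.H95.G1N.Words

/-!
# Genus one: positions of the letters of a word
-/

open Finset

namespace Pool.Agent.H95.G1N

/-- letter number `q` -/
def lt (W : List (Fin 5)) (q : ℕ) : Fin 5 := W.getD q 0

/-- position of the beginning of the letter number `q` -/
noncomputable def st (l : Fin 5 → ℝ) (W : List (Fin 5)) (q : ℕ) : ℝ := len l (W.take q)

variable {l : Fin 5 → ℝ} {W : List (Fin 5)}

lemma st_zero : st l W 0 = 0 := by unfold st; rw [List.take_zero, len_nil]

lemma st_of_le {q : ℕ} (h : W.length ≤ q) : st l W q = len l W := by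
  unfold st; rw [List.take_of_length_le h]

lemma st_succ {q : ℕ} (h : q < W.length) : st l W (q + 1) = st l W q + l (lt W q) := by
  unfold st lt
  rw [List.take_add_one, len_append, List.getElem?_eq_getElem h, List.getD_eq_getElem _ _ h]
  congr 1
  show len l [W[q]] = _
  rw [len_cons, len_nil, add_zero]

lemma st_le_succ (hl : ∀ s, 0 ≤ l s) (q : ℕ) : st l W q ≤ st l W (q + 1) := by
  rcases lt_or_ge q W.length with h | h
  · rw [st_succ h]; linarith [hl (lt W q)]
  · rw [st_of_le h, st_of_le (by omega)]

lemma st_mono (hl : ∀ s, 0 ≤ l s) {q q' : ℕ} (h : q ≤ q') : st l W q ≤ st l W q' := by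
  induction q', h using Nat.le_induction with
  | base => exact le_rfl
  | succ n _ ih => exact ih.trans (st_le_succ hl n)

lemma st_nonneg (hl : ∀ s, 0 ≤ l s) (q : ℕ) : 0 ≤ st l W q := len_nonneg hl _

lemma st_le_len (hl : ∀ s, 0 ≤ l s) (q : ℕ) : st l W q ≤ len l W := by
  rcases lt_or_ge q W.length with h | h
  · rw [← st_of_le (le_refl W.length)]; exact st_mono hl h.le
  · rw [st_of_le h]

/-- no length between two letters -/
lemma st_eq_between {q q' : ℕ} (h : q ≤ q') (hz : ∀ r, q ≤ r → r < q' → r < W.length → l (lt W r) = 0) :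
    st l W q' = st l W q := by
  induction q', h using Nat.le_induction with
  | base => rfl
  | succ n hn ih =>
    rw [← ih fun r h1 h2 h3 => hz r h1 (by omega) h3]
    rcases lt_or_ge n W.length with h | h
    · rw [st_succ h, hz n hn (Nat.lt_succ_self n) h, add_zero]
    · rw [st_of_le h, st_of_le (by omega)]

/-- a letter of positive length at the position `X` -/
lemma exists_letter (hl : ∀ s, 0 ≤ l s) (hw : 0 < len l W) {X : ℝ} (h0 : 0 ≤ X) (h1 : X ≤ len l W) :
    ∃ q < W.length, 0 < l (lt W q) ∧ st l W q ≤ X ∧ X ≤ st l W (q + 1) := by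
  -- first letter of positive length ending at or after `X`
  have hex : ∃ q, q < W.length ∧ 0 < l (lt W q) ∧ X ≤ st l W (q + 1) := by
    by_contra hn
    push Not at hn
    -- the last letter of positive length
    have key : ∀ n, st l W n = 0 ∨ ∃ q < n, q < W.length ∧ 0 < l (lt W q) ∧ st l W n = st l W (q + 1) := by
      intro n
      induction n with
      | zero => left; exact st_zero
      | succ n ih =>
        rcases lt_or_ge n W.length with h | h
        · rcases (hl (lt W n)).eq_or_lt with h2 | h2
          · rw [st_succ h, ← h2, add_zero]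
            rcases ih with h3 | ⟨q, h3, h4⟩
            · left; exact h3
            · right; exact ⟨q, by omega, h4⟩
          · right; exact ⟨n, Nat.lt_succ_self n, h, h2, rfl⟩
        · have e : st l W (n + 1) = st l W n := by rw [st_of_le h, st_of_le (by omega)]
          rw [e]
          rcases ih with h3 | ⟨q, h3, h4⟩
          · left; exact h3
          · right; exact ⟨q, by omega, h4⟩
    rcases key W.length with h | ⟨q, _, h2, h3, h4⟩
    · rw [st_of_le le_rfl] at h; linarith
    · rw [st_of_le le_rfl] at h4
      have := hn q h2 h3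
      linarith
  classical
  let q := Nat.find hex
  obtain ⟨a1, a2, a3⟩ := Nat.find_spec hex
  have hmin : ∀ r < q, ¬ (r < W.length ∧ 0 < l (lt W r) ∧ X ≤ st l W (r + 1)) := fun r hr => Nat.find_min hex hr
  refine ⟨q, a1, a2, ?_, a3⟩
  -- all the letters before `q` end before `X` or have length zero
  have key : ∀ n ≤ q, st l W n ≤ X := by
    intro n
    induction n with
    | zero => intro _; rw [st_zero]; exact h0
    | succ n ih =>
      intro hn
      have h2 := ih (by omega)
      rcases lt_or_ge n W.length with h | h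
      · rcases (hl (lt W n)).eq_or_lt with h3 | h3
        · rw [st_succ h, ← h3, add_zero]; exact h2
        · by_contra hlt
          push Not at hlt
          exact hmin n (by omega) ⟨h, h3, hlt.le⟩
      · rw [st_of_le (by omega)]; rw [st_of_le h] at h2; exact h2
  exact key q le_rfl

/-- `q'` is the (cyclically) next letter after `q` in the set `A` -/
def IsNext (W : List (Fin 5)) (A : Fin 5 → Bool) (q q' : ℕ) : Prop :=
  q' < W.length ∧ A (lt W q') = true ∧
    ((q < q' ∧ ∀ r, q < r → r < q' → A (lt W r) = false) ∨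
      (q' ≤ q ∧ (∀ r, q < r → r < W.length → A (lt W r) = false) ∧ ∀ r < q', A (lt W r) = false))

variable {A : Fin 5 → Bool}

lemma next_st (hA : ∀ s, A s = false → l s = 0) {q q' : ℕ} (h : IsNext W A q q') :
    (q < q' ∧ st l W q' = st l W (q + 1)) ∨ (q' ≤ q ∧ st l W q' = 0 ∧ st l W (q + 1) = len l W) := by
  obtain ⟨h1, h2, ⟨h3, h4⟩ | ⟨h3, h4, h5⟩⟩ := h
  · left
    exact ⟨h3, st_eq_between (by omega) fun r h6 h7 _ => hA _ (h4 r (by omega) h7)⟩
  · right
    refine ⟨h3, ?_, ?_⟩
    · rw [st_eq_between (Nat.zero_le q') fun r _ h7 _ => hA _ (h5 r h7), st_zero]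
    · rcases lt_or_ge (q + 1) W.length with h | h
      · rw [← st_eq_between (le_of_lt h) fun r h6 _ h7 => hA _ (h4 r (by omega) h7), st_of_le le_rfl]
      · exact st_of_le h

/-- the next letter does not jump over letters of `A` -/
lemma next_le {q q' r : ℕ} (h : IsNext W A q q') (hr : q < r) (hr2 : r < W.length) (hA : A (lt W r) = true) :
    q < q' ∧ q' ≤ r := by
  obtain ⟨h1, h2, ⟨h3, h4⟩ | ⟨h3, h4, h5⟩⟩ := h
  · refine ⟨h3, ?_⟩
    by_contra hn
    push Not at hn
    rw [h4 r hr hn] at hA
    exact absurd hA (by decide)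
  · rw [h4 r hr hr2] at hA
    exact absurd hA (by decide)

end Pool.Agent.H95.G1N
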