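import Pool.Agent.H95.G1N.Move

/-!
# Genus one: points over the same cell with the same data are equal
-/

open Finset

namespace Pool.Agent.H95.G1N

open Pool.Agent.H34.PLE

variable {K : Glue 7} {M : Mdl K}

/-- replace the window of the circle `c` and its position -/
noncomputable def Fac.up (F : Fac) (c : Fin 2) (q : ℕ) : Fac := ⟨F.f, F.i, Function.update F.q c q⟩

/-- replace the position of the circle `c` -/
noncomputable def Dat.up (d : Dat) (c : Fin 2) (X : ℝ) : Dat := ⟨d.l, Function.update d.X c X⟩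

lemma Fac.up_q (F : Fac) (c : Fin 2) (q : ℕ) : (F.up c q).q c = q := Function.update_self _ _ _

lemma Fac.up_q' (F : Fac) {c c' : Fin 2} (h : c' ≠ c) (q : ℕ) : (F.up c q).q c' = F.q c' :=
  Function.update_of_ne h _ _

lemma Fac.up_up (F : Fac) (c : Fin 2) (q q' : ℕ) : (F.up c q).up c q' = F.up c q' := by
  unfold Fac.up; simp

lemma Fac.up_self (F : Fac) (c : Fin 2) : F.up c (F.q c) = F := by
  unfold Fac.up; rw [Function.update_eq_self]

lemma Dat.up_X (d : Dat) (c : Fin 2) (X : ℝ) : (d.up c X).X c = X := Function.update_self _ _ _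

lemma Dat.up_X' (d : Dat) {c c' : Fin 2} (h : c' ≠ c) (X : ℝ) : (d.up c X).X c' = d.X c' :=
  Function.update_of_ne h _ _

lemma Dat.up_up (d : Dat) (c : Fin 2) (X X' : ℝ) : (d.up c X).up c X' = d.up c X' := by
  unfold Dat.up; simp

lemma Dat.up_self (d : Dat) (c : Fin 2) : d.up c (d.X c) = d := by
  unfold Dat.up; rw [Function.update_eq_self]

/-- admissible window letter of the circle `c` -/
def Fac.Adm (F : Fac) (c : Fin 2) (q : ℕ) : Prop := q < (wd F.f).length ∧ al c F.i (lt (wd F.f) q) = true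

lemma Comp.up {F : Fac} {d : Dat} (h : Comp F d) {c : Fin 2} {q : ℕ} (hq : F.Adm c q) {X : ℝ}
    (h1 : st (d.l c) (wd F.f) q ≤ X) (h2 : X ≤ st (d.l c) (wd F.f) (q + 1)) : Comp (F.up c q) (d.up c X) := by
  refine ⟨fun c' => ?_, h.nn, h.off, h.sum, fun c' => ?_, fun c' => ?_⟩
  · unfold Fac.sl
    by_cases hc : c' = c
    · subst hc; rw [Fac.up_q]; exact hq
    · rw [Fac.up_q' F hc]; exact h.valid c'
  · by_cases hc : c' = c
    · subst hc; rw [Fac.up_q, Dat.up_X]; exact h1
    · rw [Fac.up_q' F hc, Dat.up_X' d hc]; exact h.lo c'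
  · by_cases hc : c' = c
    · subst hc; rw [Fac.up_q, Dat.up_X]; exact h2
    · rw [Fac.up_q' F hc, Dat.up_X' d hc]; exact h.hi c'

namespace Mdl

/-- one step forward -/
lemma forward (hM : M.Good) {F : Fac} {d : Dat} {p : K.Real} (hp : M.IsPt F d p) (c : Fin 2)
    (hX : d.X c = st (d.l c) (wd F.f) (F.q c + 1)) :
    ∃ q, IsNext (wd F.f) (al c F.i) (F.q c) q ∧
      M.IsPt (F.up c q) (d.up c (st (d.l c) (wd F.f) q)) p := by
  obtain ⟨h, k, rfl, hx⟩ := id hp
  have hE : (M.F k).Exp (c, (M.F k).sl c, 2) := by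
    refine ⟨(h.valid c).2, ?_⟩
    rw [if_pos rfl]
    show (2 : Fin 3) ≠ 0
    decide
  obtain ⟨a, ha⟩ := (hM.kex k _).1 hE
  obtain ⟨k', b, hf, hr⟩ := hM.nbW k a c ha
  refine ⟨(M.F k').q c, hr.next, ?_⟩
  have := moveW hM hf hr hp hX
  have e : (M.F k).up c ((M.F k').q c) = M.F k' := hr.F.symm
  rw [e]
  exact this

/-- two windows with the same position -/
lemma same_X (hM : M.Good) (c : Fin 2) : ∀ (n : ℕ) {F : Fac} {d : Dat} {p : K.Real} (_ : M.IsPt F d p) {q : ℕ},
    F.Adm c q → st (d.l c) (wd F.f) q ≤ d.X c → d.X c ≤ st (d.l c) (wd F.f) (q + 1) → F.q c ≤ q → q - F.q c ≤ n →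
    M.IsPt (F.up c q) d p := by
  intro n
  induction n with
  | zero =>
    intro F d p hp q hq h1 h2 h3 h4
    have : q = F.q c := by omega
    rw [this, Fac.up_self]; exact hp
  | succ n ih =>
    intro F d p hp q hq h1 h2 h3 h4
    rcases h3.eq_or_lt with h5 | h5
    · rw [← h5, Fac.up_self]; exact hp
    · have h := hp.1
      have h6 : st (d.l c) (wd F.f) (F.q c + 1) ≤ st (d.l c) (wd F.f) q := st_mono (h.nn c) h5
      have h7 := h.hi c
      have h8 : d.X c = st (d.l c) (wd F.f) (F.q c + 1) := by linarith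
      obtain ⟨q', hn, hp'⟩ := forward hM hp c h8
      obtain ⟨h9, h10⟩ := next_le hn h5 hq.1 hq.2
      have h11 := next_st (h.off c) hn
      have h12 : st (d.l c) (wd F.f) q' = d.X c := by
        rcases h11 with h11 | h11
        · rw [h11.2, h8]
        · omega
      rw [h12, Dat.up_self] at hp'
      have := ih hp' (q := q) hq h1 h2 (by rw [Fac.up_q]; exact h10) (by rw [Fac.up_q]; omega)
      rwa [Fac.up_up] at this

/-- the last admissible letter -/
lemma exists_last {W : List (Fin 5)} {A : Fin 5 → Bool} {q : ℕ} (hq : q < W.length) (hA : A (lt W q) = true) :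
    ∃ r, q ≤ r ∧ r < W.length ∧ A (lt W r) = true ∧ ∀ s, r < s → s < W.length → A (lt W s) = false := by
  classical
  obtain ⟨r, hr, hmax⟩ := exists_max_image ((range W.length).filter fun r => A (lt W r) = true) id
    ⟨q, by simp [hq, hA]⟩
  simp only [mem_filter, mem_range, id] at hr hmax
  refine ⟨r, hmax q ⟨hq, hA⟩, hr.1, hr.2, fun s hs hs2 => ?_⟩
  by_contra hne
  rw [Bool.not_eq_false] at hne
  have := hmax s ⟨hs2, hne⟩
  omega

/-- the first admissible letter -/
lemma exists_first {W : List (Fin 5)} {A : Fin 5 → Bool} {q : ℕ} (hq : q < W.length) (hA : A (lt W q) = true) :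
    ∃ r, r ≤ q ∧ r < W.length ∧ A (lt W r) = true ∧ ∀ s < r, A (lt W s) = false := by
  classical
  obtain ⟨r, hr, hmin⟩ := exists_min_image ((range W.length).filter fun r => A (lt W r) = true) id
    ⟨q, by simp [hq, hA]⟩
  simp only [mem_filter, mem_range, id] at hr hmin
  refine ⟨r, hmin q ⟨hq, hA⟩, hr.1, hr.2, fun s hs => ?_⟩
  by_contra hne
  rw [Bool.not_eq_false] at hne
  have := hmin s ⟨by omega, hne⟩
  omega

/-- from the position 0 to the position `w` -/
lemma wrap (hM : M.Good) (c : Fin 2) {F F' : Fac} {d d' : Dat} {p p' : K.Real} (hp : M.IsPt F d p)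
    (hp' : M.IsPt F' d' p') (hF : F' = F.up c (F'.q c)) (hd : d' = d.up c (d'.X c))
    (h1 : d.X c = len (d.l c) (wd F.f)) (h0 : d'.X c = 0) : p = p' := by
  have h := hp.1
  have h' := hp'.1
  have hl : d'.l = d.l := by rw [hd]; rfl
  have hf : F'.f = F.f := by rw [hF]; rfl
  have hi : F'.i = F.i := by rw [hF]; rfl
  -- move to the last letter
  obtain ⟨r, r1, r2, r3, r4⟩ := exists_last (W := wd F.f) (A := al c F.i) (h.valid c).1 (h.valid c).2
  have e1 : st (d.l c) (wd F.f) (r + 1) = len (d.l c) (wd F.f) := by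
    rcases lt_or_ge (r + 1) (wd F.f).length with h2 | h2
    · rw [← st_eq_between (le_of_lt h2) fun s h6 _ h7 => h.off c _ (r4 s (by omega) h7), st_of_le le_rfl]
    · exact st_of_le h2
  have hpr : M.IsPt (F.up c r) d p := by
    refine same_X hM c (r - F.q c) hp ⟨r2, r3⟩ ?_ ?_ r1 le_rfl
    · rw [h1]; exact st_le_len (h.nn c) _
    · rw [h1, e1]
  -- wrap around
  obtain ⟨q, hn, hq⟩ := forward hM hpr c (by rw [Fac.up_q]; show d.X c = st (d.l c) (wd F.f) (r + 1); rw [e1, h1])
  rw [Fac.up_q, Fac.up_up] at *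
  obtain ⟨q1, q2, ⟨q3, q4⟩ | ⟨q3, q4, q5⟩⟩ := hn
  · exfalso
    have := r4 q q3 q1
    have hq2 : al c F.i (lt (wd F.f) q) = true := q2
    rw [this] at hq2
    exact absurd hq2 (by decide)
  · have e0 : st (d.l c) (wd F.f) q = 0 := by
      have := st_eq_between (l := d.l c) (W := wd F.f) (Nat.zero_le q) fun s _ h7 _ => h.off c _ (q5 s h7)
      rw [this, st_zero]
    have hq' : M.IsPt (F.up c q) (d.up c 0) p := by
      have := hq
      change M.IsPt (F.up c q) (d.up c (st (d.l c) (wd F.f) q)) p at this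
      rwa [e0] at this
    -- `q` is the first letter
    have hle : q ≤ F'.q c := by
      by_contra hn
      push Not at hn
      have h2 := q5 _ hn
      have h3 := (h'.valid c).2
      unfold Fac.sl at h3
      rw [hf, hi] at h3
      have h2' : al c F.i (lt (wd F.f) (F'.q c)) = false := h2
      rw [h2'] at h3
      exact absurd h3 (by decide)
    have hA := h'.valid c
    unfold Fac.sl at hA
    rw [hf, hi] at hA
    have h4 := h'.lo c
    have h5 := h'.hi c
    rw [h0, hl, hf] at h4 h5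
    have hfin := same_X hM c (F'.q c - q) hq' (q := F'.q c) hA
      (by rw [Dat.up_X]; exact h4) (by rw [Dat.up_X]; exact h5) (by rw [Fac.up_q]; exact hle)
      (by rw [Fac.up_q])
    rw [Fac.up_up, ← hF] at hfin
    have hd' : d.up c 0 = d' := by rw [hd, h0]
    rw [hd'] at hfin
    exact isPt_unique hM hfin hp'

/-- equality of data modulo the lengths of the words -/
structure SameD (f : Fin 24) (d d' : Dat) : Prop where
  l : d'.l = d.l
  X : ∀ c, ∃ m : ℤ, d'.X c = d.X c + m * len (d.l c) (wd f)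

lemma X_bd {F : Fac} {d : Dat} (h : Comp F d) (c : Fin 2) : 0 ≤ d.X c ∧ d.X c ≤ len (d.l c) (wd F.f) :=
  ⟨(st_nonneg (h.nn c) _).trans (h.lo c), (h.hi c).trans (st_le_len (h.nn c) _)⟩

/-- one circle -/
lemma same_one (hM : M.Good) (c : Fin 2) {F F' : Fac} {d d' : Dat} {p p' : K.Real} (hp : M.IsPt F d p)
    (hp' : M.IsPt F' d' p') (hF : F' = F.up c (F'.q c)) (hd : d' = d.up c (d'.X c)) (m : ℤ)
    (hX : d'.X c = d.X c + m * len (d.l c) (wd F.f)) : p = p' := by
  have h := hp.1
  have h' := hp'.1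
  have hl : d'.l = d.l := by rw [hd]; rfl
  have hf : F'.f = F.f := by rw [hF]; rfl
  have hi : F'.i = F.i := by rw [hF]; rfl
  have b1 := X_bd h c
  have b2 := X_bd h' c
  rw [hl, hf] at b2
  -- same position
  have same : ∀ {F F' : Fac} {d d' : Dat} {p p' : K.Real} (_ : M.IsPt F d p) (_ : M.IsPt F' d' p')
      (_ : F' = F.up c (F'.q c)) (_ : d' = d), F.q c ≤ F'.q c → p = p' := by
    intro F F' d d' p p' hp hp' hF hd hle
    subst hd
    have hf : F'.f = F.f := by rw [hF]; rfl
    have hi : F'.i = F.i := by rw [hF]; rfl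
    have h' := hp'.1
    have hA := h'.valid c
    unfold Fac.sl at hA
    rw [hf, hi] at hA
    have h4 := h'.lo c
    have h5 := h'.hi c
    rw [hf] at h4 h5
    have := same_X hM c (F'.q c - F.q c) hp hA h4 h5 hle le_rfl
    rw [← hF] at this
    exact isPt_unique hM this hp'
  have hF2 : F = F'.up c (F.q c) := by rw [hF, Fac.up_up, Fac.up_self]
  have hd2 : d = d'.up c (d.X c) := by rw [hd, Dat.up_up, Dat.up_self]
  rcases eq_or_ne (d'.X c) (d.X c) with he | he
  · have hdd : d' = d := by rw [hd, he, Dat.up_self]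
    rcases le_total (F.q c) (F'.q c) with h1 | h1
    · exact same hp hp' hF hdd h1
    · exact (same hp' hp hF2 hdd.symm h1).symm
  · have hw : 0 < len (d.l c) (wd F.f) := by
      rcases (b1.1.trans b1.2).eq_or_lt with h2 | h2
      · exfalso
        apply he
        rw [hX, ← h2, mul_zero, add_zero]
      · exact h2
    rcases TB.int_cases hw hX b2.1 b2.2 b1.1 b1.2 with h3 | ⟨h3, h4⟩ | ⟨h3, h4⟩
    · exact absurd h3 he
    · have := wrap hM c hp' hp hF2 hd2 (by rw [h3, hl, hf]) h4
      exact this.symm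
    · exact wrap hM c hp hp' hF hd h4 h3

/-- both circles, same level slot -/
lemma same_i (hM : M.Good) {F F' : Fac} {d d' : Dat} {p p' : K.Real} (hp : M.IsPt F d p)
    (hp' : M.IsPt F' d' p') (hf : F'.f = F.f) (hi : F'.i = F.i) (hs : SameD F.f d d') : p = p' := by
  have h := hp.1
  have h' := hp'.1
  obtain ⟨m0, hm0⟩ := hs.X 0
  obtain ⟨m1, hm1⟩ := hs.X 1
  -- intermediate: change the circle 0 only
  have hA := h'.valid 0
  unfold Fac.sl at hA
  rw [hf, hi] at hA
  have h4 := h'.lo 0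
  have h5 := h'.hi 0
  rw [hf, hs.l] at h4 h5
  have hc : Comp (F.up 0 (F'.q 0)) (d.up 0 (d'.X 0)) := h.up hA h4 h5
  obtain ⟨p1, hp1⟩ := exists_isPt hM hc
  have e1 : p = p1 := same_one hM 0 hp hp1 (by rw [Fac.up_q]) (by rw [Dat.up_X]) m0 (by rw [Dat.up_X]; exact hm0)
  have e2 : p1 = p' := by
    refine same_one hM 1 hp1 hp' ?_ ?_ m1 ?_
    · apply Fac.ext
      · exact hf
      · exact hi
      · funext c
        have hc : c = 0 ∨ c = 1 := by omega
        rcases hc with rfl | rfl
        · rw [Fac.up_q' _ (by decide), Fac.up_q]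
        · rw [Fac.up_q]
    · apply Dat.ext
      · exact hs.l
      · funext c
        have hc : c = 0 ∨ c = 1 := by omega
        rcases hc with rfl | rfl
        · rw [Dat.up_X' _ (by decide), Dat.up_X]
        · rw [Dat.up_X]
    · rw [Dat.up_X' _ (by decide)]
      exact hm1
  rw [e1, e2]

end Mdl

end Pool.Agent.H95.G1N
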