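import Pool.Agent.H95.G1N.Tab
import Pool.Agent.H95.G1N.Over

/-!
# Genus one: soundness of the checks
-/

open Finset

namespace Pool.Agent.H95.G1N

open Pool.Agent.H34.PLE Pool.Agent.H95.TB

/-! ### letters, slots and keys -/

lemma wN_lt : ∀ W ∈ wdL, ∀ x ∈ W, x < 5 := by decide

lemma ltN_lt (f q : ℕ) : ltN f q < 5 := by
  unfold ltN wN
  by_cases hf : f < wdL.length
  · rw [List.getD_eq_getElem _ _ hf]
    by_cases hq : q < wdL[f].length
    · rw [List.getD_eq_getElem _ _ hq]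
      exact wN_lt _ (List.getElem_mem hf) _ (List.getElem_mem hq)
    · rw [List.getD_eq_default _ _ (not_lt.1 hq)]; norm_num
  · rw [List.getD_eq_default _ _ (not_lt.1 hf)]
    simp

lemma wd_length (f : Fin 24) : (wd f).length = (wN f).length := by unfold wd wN; rw [List.length_map]

lemma lt_wd (f : Fin 24) (q : ℕ) : ((lt (wd f) q : Fin 5) : ℕ) = ltN f q := by
  have h : lt (wd f) q = Fin.ofNat 5 (ltN f q) := by
    unfold lt wd ltN wN
    rw [show (0 : Fin 5) = Fin.ofNat 5 0 from rfl, List.getD_map]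
  rw [h]
  exact Nat.mod_eq_of_lt (ltN_lt f q)

lemma al_alN : ∀ (c : Fin 2) (i s : Fin 5), al c i s = alN c i s := by decide

lemma pi_piN : ∀ a b s : Fin 5, ((pi a b s : Fin 5) : ℕ) = piN a b s := by decide

/-- decoding of keys -/
def dk (κ : ℕ) : Fin 2 × Fin 5 × Fin 3 := (Fin.ofNat 2 (κ / 32), Fin.ofNat 5 (κ / 4 % 8), Fin.ofNat 3 (κ % 4))

/-- valid keys -/
def VK (κ : ℕ) : Prop := κ < 64 ∧ κ / 4 % 8 < 5 ∧ κ % 4 < 3

instance (κ : ℕ) : Decidable (VK κ) := by unfold VK; exact instDecidableAnd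

lemma dk_enc : ∀ (c : Fin 2) (s : Fin 5) (m : Fin 3), dk (32 * c + 4 * s + m) = (c, s, m) ∧
    VK (32 * c + 4 * s + m) := by decide

lemma dk_mv : ∀ κ < 64, VK κ → ∀ (c : Fin 2) (s s' : Fin 5), dk (mvN c s s' κ) = mvW c s s' (dk κ) := by
  decide +kernel

lemma dk_pk : ∀ κ < 64, VK κ → ∀ (s b : Fin 5), dk (pkN s b κ) = ((dk κ).1, pi s b (dk κ).2.1, (dk κ).2.2) := by
  decide +kernel

lemma dk_val {κ : ℕ} (h : VK κ) : ((dk κ).1 : ℕ) = κ / 32 ∧ ((dk κ).2.1 : ℕ) = κ / 4 % 8 ∧ ((dk κ).2.2 : ℕ) = κ % 4 := by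
  obtain ⟨h1, h2, h3⟩ := h
  unfold dk
  refine ⟨?_, ?_, ?_⟩
  · show κ / 32 % 2 = κ / 32; omega
  · show κ / 4 % 8 % 5 = κ / 4 % 8; exact Nat.mod_eq_of_lt h2
  · show κ % 4 % 3 = κ % 4; exact Nat.mod_eq_of_lt h3

lemma dk_inj {κ κ' : ℕ} (h : VK κ) (h' : VK κ') (he : dk κ = dk κ') : κ = κ' := by
  obtain ⟨a1, a2, a3⟩ := dk_val h
  obtain ⟨b1, b2, b3⟩ := dk_val h'
  rw [he] at a1 a2 a3
  rw [b1] at a1
  rw [b2] at a2
  rw [b3] at a3
  obtain ⟨h1, _, _⟩ := h
  obtain ⟨h1', _, _⟩ := h'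
  omega

lemma blt_t {a b : ℕ} (h : a < b) : Nat.blt a b = true := Nat.blt_eq ▸ h

lemma nx_sound {f : Fin 24} {c : Fin 2} {i : Fin 5} {q q' : ℕ} (h : nxB (wN f) (alN c i) q q' = true) :
    IsNext (wd f) (al c i) q q' := by
  have hA : ∀ r, al c i (lt (wd f) r) = alN c i ((wN f).getD r 0) := by
    intro r
    rw [al_alN, lt_wd]
    rfl
  unfold nxB at h
  rw [Bool.and_eq_true, Bool.and_eq_true, Nat.blt_eq, List.all_eq_true] at h
  obtain ⟨h1, h2, h3⟩ := h
  refine ⟨by rw [wd_length]; exact h1, by rw [hA]; exact h2, ?_⟩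
  by_cases hq : q < q'
  · left
    refine ⟨hq, fun r hr1 hr2 => ?_⟩
    have := h3 r (List.mem_range.2 (by omega))
    rw [blt_t hq, cond_true, blt_t hr1, blt_t hr2, Bool.and_self, cond_true, Bool.not_eq_true'] at this
    rw [hA]; exact this
  · right
    have hq' : Nat.blt q q' = false := by
      rw [Bool.eq_false_iff]
      intro h
      exact hq (Nat.blt_eq ▸ h)
    refine ⟨by omega, fun r hr1 hr2 => ?_, fun r hr => ?_⟩
    · have := h3 r (List.mem_range.2 (by rw [wd_length] at hr2; exact hr2))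
      rw [hq', cond_false, blt_t hr1, Bool.true_or, cond_true, Bool.not_eq_true'] at this
      rw [hA]; exact this
    · have := h3 r (List.mem_range.2 (by omega))
      rw [hq', cond_false, blt_t hr, Bool.or_true, cond_true, Bool.not_eq_true'] at this
      rw [hA]; exact this

namespace Tab

variable {D : Tab}

/-- the complex -/
abbrev K (D : Tab) : Glue 7 := glueL 7 24 D.rows

/-- number of a facet -/
def ixn (k : (K D).ι) : ℕ := Fin.val (n := D.rows.length) k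

/-- the facet with given number -/
def fac (e : ℕ) : Fac := ⟨Fin.ofNat 24 (fN e), Fin.ofNat 5 (iN e), fun c => qN e c⟩

/-- the model -/
def model (D : Tab) : Mdl (K D) where
  F k := fac (D.e (ixn k))
  key k a := dk (kN (D.e (ixn k)) a)
  qt f a q := D.qt f a q

lemma face_eq (k : (K D).ι) (a : Fin 8) : (K D).face k a = dg 24 (D.rows.getD (ixn k) 0) a := by
  show row 7 24 (D.rows.get k) a = _
  unfold row
  congr 1
  exact (List.getD_eq_getElem _ 0 (Fin.isLt (n := D.rows.length) k)).symm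

/-- properties of a checked record -/
structure RecOK (D : Tab) (k e : ℕ) : Prop where
  f : fN e < 24
  i : iN e < 5
  q : ∀ c : Fin 2, qN e c < (wN (fN e)).length ∧ alN c (iN e) (ltN (fN e) (qN e c)) = true
  ix : D.ix (fN e) (iN e) (qN e 0) (qN e 1) = k
  vk : ∀ a < 8, VK (kN e a)
  ek : ∀ a < 8, alN (kN e a / 32) (iN e) (kN e a / 4 % 8) = true ∧
    (kN e a / 4 % 8 = ltN (fN e) (qN e (kN e a / 32)) ↔ kN e a % 4 ≠ 0)
  inj : ∀ a < 8, ∀ b < a, kN e a ≠ kN e b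
  mem : ∀ c : Fin 2, ∀ s < 5, alN c (iN e) s = true →
    if s = ltN (fN e) (qN e c) then (∃ a < 8, kN e a = 32 * c + 4 * s + 1) ∧ (∃ a < 8, kN e a = 32 * c + 4 * s + 2)
    else ∃ a < 8, kN e a = 32 * c + 4 * s

lemma recOK_of {k e : ℕ} (h : D.chkF k e = true) : RecOK D k e := by
  unfold chkF at h
  simp only [fc_eq, Bool.and_eq_true, List.all_eq_true, List.mem_range, Nat.blt_eq, Nat.beq_eq] at h
  obtain ⟨h1, h2, h3, h4, h5, h6, h7, h8, h9⟩ := h
  have hc : ∀ c : Fin 2, cond (Nat.beq c 0) (ltN (fN e) (qN e 0)) (ltN (fN e) (qN e 1)) = ltN (fN e) (qN e c) := by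
    intro c
    fin_cases c <;> rfl
  have hd : ∀ κ < 64, cond (Nat.beq (κ / 32) 0) (ltN (fN e) (qN e 0)) (ltN (fN e) (qN e 1)) =
      ltN (fN e) (qN e (κ / 32)) := by
    intro κ hκ
    have : κ / 32 = 0 ∨ κ / 32 = 1 := by omega
    rcases this with h | h <;> rw [h] <;> rfl
  refine ⟨h1, h2, fun c => ?_, h7, fun a ha => ?_, fun a ha => ?_, fun a ha b hb => ?_,
    fun c s hs ha => ?_⟩
  · fin_cases c
    · exact ⟨h3, h5⟩
    · exact ⟨h4, h6⟩
  · obtain ⟨g1, g2, g3, _⟩ := h8 a ha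
    exact ⟨g1, g2, g3⟩
  · obtain ⟨g1, g2, g3, g4, g5, _⟩ := h8 a ha
    refine ⟨g4, ?_⟩
    rw [hd _ g1] at g5
    constructor
    · intro h0 h0'
      rw [h0, h0'] at g5
      simp at g5
    · intro h0
      by_contra h0'
      rw [show Nat.beq (kN e a / 4 % 8) (ltN (fN e) (qN e (kN e a / 32))) = false from
        Bool.eq_false_iff.2 fun h => h0' (Nat.eq_of_beq_eq_true h)] at g5
      rw [Bool.false_xor] at g5
      exact h0 (Nat.eq_of_beq_eq_true g5)
  · obtain ⟨g1, g2, g3, g4, g5, g6⟩ := h8 a ha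
    have := g6 b hb
    intro he
    rw [he] at this
    simp at this
  · have g := h9 c c.2 s hs
    rw [ha, cond_true, hc] at g
    by_cases hsl : s = ltN (fN e) (qN e c)
    · rw [if_pos hsl]
      rw [← hsl, Nat.beq_refl, cond_true, Bool.and_eq_true] at g
      exact ⟨bit_mk g.1, bit_mk g.2⟩
    · rw [if_neg hsl]
      rw [show Nat.beq s (ltN (fN e) (qN e c)) = false from
        Bool.eq_false_iff.2 fun h => hsl (Nat.eq_of_beq_eq_true h), cond_false] at g
      exact bit_mk g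

section

variable {k e : ℕ} (h : RecOK D k e)

include h

lemma RecOK.fv : (((fac e).f : Fin 24) : ℕ) = fN e := Nat.mod_eq_of_lt h.f

lemma RecOK.iv : (((fac e).i : Fin 5) : ℕ) = iN e := Nat.mod_eq_of_lt h.i

lemma RecOK.slv (c : Fin 2) : (((fac e).sl c : Fin 5) : ℕ) = ltN (fN e) (qN e c) := by
  unfold Fac.sl
  rw [lt_wd, h.fv]
  rfl

lemma RecOK.alv (c : Fin 2) (s : Fin 5) : al c (fac e).i s = alN c (iN e) s := by
  rw [al_alN, h.iv]

lemma RecOK.valid : (fac e).Valid := by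
  intro c
  obtain ⟨h1, h2⟩ := h.q c
  refine ⟨?_, ?_⟩
  · rw [wd_length, h.fv]; exact h1
  · rw [h.alv, h.slv]; exact h2

lemma RecOK.kinj : Function.Injective fun a : Fin 8 => dk (kN e a) := by
  intro a b hab
  have h1 := dk_inj (h.vk a a.2) (h.vk b b.2) hab
  rcases lt_trichotomy (a : ℕ) b with h2 | h2 | h2
  · exact absurd h1.symm (h.inj b b.2 a h2)
  · exact Fin.ext h2
  · exact absurd h1 (h.inj a a.2 b h2)

lemma RecOK.kex (κ : Fin 2 × Fin 5 × Fin 3) : (fac e).Exp κ ↔ ∃ a : Fin 8, dk (kN e a) = κ := by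
  constructor
  · rintro ⟨h1, h2⟩
    obtain ⟨c, s, m⟩ := κ
    simp only at h1 h2
    rw [h.alv] at h1
    have hm := h.mem c s s.2 h1
    have hsl : s = (fac e).sl c ↔ (s : ℕ) = ltN (fN e) (qN e c) := by
      rw [Fin.ext_iff, h.slv]
    by_cases hs : s = (fac e).sl c
    · rw [if_pos hs] at h2
      rw [if_pos (hsl.1 hs)] at hm
      obtain ⟨⟨a, ha, ha'⟩, b, hb, hb'⟩ := hm
      have hm2 : m = 1 ∨ m = 2 := by
        have := m.2
        have h4 : (m : ℕ) ≠ 0 := fun h => h2 (Fin.ext h)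
        rcases (by omega : (m : ℕ) = 1 ∨ (m : ℕ) = 2) with h | h
        · left; exact Fin.ext h
        · right; exact Fin.ext h
      rcases hm2 with rfl | rfl
      · exact ⟨⟨a, ha⟩, by show dk (kN e a) = _; rw [ha']; exact (dk_enc c s 1).1⟩
      · exact ⟨⟨b, hb⟩, by show dk (kN e b) = _; rw [hb']; exact (dk_enc c s 2).1⟩
    · rw [if_neg hs] at h2
      rw [if_neg (fun h => hs (hsl.2 h))] at hm
      obtain ⟨a, ha, ha'⟩ := hm
      subst h2
      exact ⟨⟨a, ha⟩, by show dk (kN e a) = _; rw [ha']; exact (dk_enc c s 0).1⟩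
  · rintro ⟨a, rfl⟩
    obtain ⟨h1, h2⟩ := h.ek a a.2
    obtain ⟨v1, v2, v3⟩ := dk_val (h.vk a a.2)
    refine ⟨?_, ?_⟩
    · rw [h.alv, v1, v2]; exact h1
    · have e1 : (dk (kN e a)).2.1 = (fac e).sl (dk (kN e a)).1 ↔ kN e a % 4 ≠ 0 := by
        rw [Fin.ext_iff, h.slv, v1, v2]; exact h2
      have e2 : (dk (kN e a)).2.2 = 0 ↔ kN e a % 4 = 0 := by
        rw [Fin.ext_iff, v3]; rfl
      by_cases h3 : (dk (kN e a)).2.1 = (fac e).sl (dk (kN e a)).1
      · rw [if_pos h3]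
        intro h4
        exact e1.1 h3 (e2.1 h4)
      · rw [if_neg h3]
        rw [e2]
        by_contra h4
        exact h3 (e1.2 h4)

end

end Tab

end Pool.Agent.H95.G1N
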