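import Pool.Agent.H95.G1N.Sound

/-!
# Genus one: soundness of the checks of the relations
-/

open Finset

namespace Pool.Agent.H95.G1N

open Pool.Agent.H34.PLE Pool.Agent.H95.TB

namespace Tab

variable {D : Tab}

lemma sa_lt {a t : ℕ} (ht : t < 7) : sa a t < 8 := by unfold sa; split_ifs <;> omega

/-- the relation of the windows -/
lemma relW_sound {k k' : ℕ} {e e' : ℕ} (h : RecOK D k e) (h' : RecOK D k' e') {a b : Fin 8}
    (hr : relW e e' a b = true) :
    ∃ c, IsNext (wd (fac e).f) (al c (fac e).i) ((fac e).q c) ((fac e').q c) ∧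
      fac e' = ⟨(fac e).f, (fac e).i, Function.update (fac e).q c ((fac e').q c)⟩ ∧
      dk (kN e a) = (c, (fac e).sl c, 2) ∧ dk (kN e' b) = (c, (fac e').sl c, 1) ∧
      ∀ t : Fin 7, dk (kN e' (b.succAbove t : Fin 8)) =
        mvW c ((fac e).sl c) ((fac e').sl c) (dk (kN e (a.succAbove t : Fin 8))) := by
  unfold relW at hr
  simp only [fc_eq, Bool.and_eq_true, List.all_eq_true, List.mem_range, Nat.beq_eq] at hr
  obtain ⟨h1, h2, h3, h4, h5, h6, h7⟩ := hr
  have hc2 : kN e a / 32 < 2 := by have := (h.vk a a.2).1; omega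
  generalize hκ : kN e a = κ at *
  obtain ⟨c, hc⟩ : ∃ c : Fin 2, (c : ℕ) = κ / 32 := ⟨⟨κ / 32, hc2⟩, rfl⟩
  rw [← hc] at h3 h4 h5 h6 h7
  have ef : (fac e').f = (fac e).f := by
    apply Fin.ext; rw [h'.fv, h.fv, h1]
  have ei : (fac e').i = (fac e).i := by
    apply Fin.ext; rw [h'.iv, h.iv, h2]
  have es : ((fac e).sl c : ℕ) = ltN (fN e) (qN e c) := h.slv c
  have es' : ((fac e').sl c : ℕ) = ltN (fN e) (qN e' c) := by rw [h'.slv c, h1]
  have hf : wN (fN e) = wN (fac e).f := by rw [h.fv]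
  have hi : iN e = (fac e).i := h.iv.symm
  refine ⟨c, ?_, ?_, ?_, ?_, fun t => ?_⟩
  · apply nx_sound
    rw [← hf, ← hi]
    exact h4
  · apply Fac.ext
    · exact ef
    · exact ei
    · funext c'
      by_cases hcc : c' = c
      · subst hcc; simp
      · show (fac e').q c' = Function.update (fac e).q c ((fac e').q c) c'
        rw [Function.update_of_ne hcc]
        have : (c' : ℕ) = 1 - c := by
          have := c.2
          have := c'.2
          have : (c' : ℕ) ≠ c := fun h => hcc (Fin.ext h)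
          omega
        show qN e' c' = qN e c'
        rw [this]; exact h3
  · rw [h5, ← es]
    exact (dk_enc c _ 2).1
  · rw [h6, ← es']
    exact (dk_enc c _ 1).1
  · have h8 := h7 t t.2
    rw [val_succAbove, val_succAbove, h8, ← es, ← es']
    have hv := h.vk _ (sa_lt (a := a) t.2)
    exact dk_mv _ hv.1 hv c _ _

/-- the relation of the level slots -/
lemma relI_sound {k k' : ℕ} {e e' : ℕ} (h : RecOK D k e) (h' : RecOK D k' e') {a b : Fin 8}
    (hr : relI e e' a b = true) :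
    ((fac e').i : ℕ) + 1 = (fac e).i ∧ fac e' = ⟨(fac e).f, (fac e').i, (fac e).q⟩ ∧
      dk (kN e a) = (0, (fac e).i, 0) ∧ dk (kN e' b) = (1, (fac e').i, 0) ∧
      ∀ t : Fin 7, dk (kN e' (b.succAbove t : Fin 8)) = dk (kN e (a.succAbove t : Fin 8)) := by
  unfold relI at hr
  simp only [fc_eq, Bool.and_eq_true, List.all_eq_true, List.mem_range, Nat.beq_eq] at hr
  obtain ⟨h1, h2, h3, h4, h5, h6, h7⟩ := hr
  refine ⟨?_, ?_, ?_, ?_, fun t => ?_⟩
  · rw [h'.iv, h.iv]; exact h2
  · apply Fac.ext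
    · apply Fin.ext; rw [h'.fv]; show fN e' = ((fac e).f : ℕ); rw [h.fv, h1]
    · rfl
    · funext c
      fin_cases c
      · exact h3
      · exact h4
  · rw [h5, ← h.iv]
    have := (dk_enc 0 (fac e).i 0).1
    simpa using this
  · rw [h6, ← h'.iv]
    have := (dk_enc 1 (fac e').i 0).1
    simpa using this
  · rw [val_succAbove, val_succAbove, h7 t t.2]

/-- the relation of the cells -/
lemma relG_sound {k k' : ℕ} {e e' : ℕ} (h : RecOK D k e) (h' : RecOK D k' e') {a b : Fin 8}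
    (hr : D.relG e e' a b = true) :
    ∃ c s, s ≠ (fac e).i ∧
      fac e' = ⟨gc (fac e).f s, pi s (gs (fac e).f s) (fac e).i, fun c => D.qt (fac e).f s ((fac e).q c)⟩ ∧
      dk (kN e a) = (c, s, 0) ∧ (∃ c', dk (kN e' b) = (c', gs (fac e).f s, 0)) ∧
      ∀ t : Fin 7, dk (kN e' (b.succAbove t : Fin 8)) = ((dk (kN e (a.succAbove t : Fin 8))).1,
        pi s (gs (fac e).f s) (dk (kN e (a.succAbove t : Fin 8))).2.1, (dk (kN e (a.succAbove t : Fin 8))).2.2) := by
  unfold relG at hr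
  simp only [fc_eq, Bool.and_eq_true, List.all_eq_true, List.mem_range, Nat.beq_eq, Bool.not_eq_true'] at hr
  obtain ⟨h1, h2, h3, h4, h5, h6, h7, h8⟩ := hr
  obtain ⟨v1, v2, v3⟩ := dk_val (h.vk a a.2)
  obtain ⟨w1, w2, w3⟩ := dk_val (h'.vk b b.2)
  generalize hκ : dk (kN e a) = κ at *
  obtain ⟨c, s, m⟩ := κ
  simp only at v1 v2 v3
  have hg : (glL.getD (fN e) []).getD (kN e a / 4 % 8) 0 = glu (fac e).f s := by
    unfold glu
    rw [h.fv, ← v2]
  rw [hg] at h3 h4 h7 h8
  rw [← v2] at h2 h4 h5 h6 h8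
  have hgc : (gc (fac e).f s : ℕ) = glu (fac e).f s / 200 := by
    show (glu (fac e).f s / 200) % 24 = _
    rw [← h3]
    exact Nat.mod_eq_of_lt h'.f
  have hgs : (gs (fac e).f s : ℕ) = glu (fac e).f s % 200 / 20 := by
    show (glu (fac e).f s % 200 / 20) % 5 = _
    apply Nat.mod_eq_of_lt
    have hb := (h'.vk b b.2)
    have : kN e' b % 32 = 4 * (glu (fac e).f s % 200 / 20) := h7
    have h9 := hb.2.1
    omega
  rw [← hgs] at h4 h7 h8
  have hi : iN e = (fac e).i := h.iv.symm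
  refine ⟨c, s, ?_, ?_, ?_, ⟨(dk (kN e' b)).1, ?_⟩, fun t => ?_⟩
  · intro he
    rw [he, ← hi] at h2
    simp at h2
  · apply Fac.ext
    · apply Fin.ext
      rw [h'.fv, h3]
      show _ = (gc (fac e).f s : ℕ)
      rw [hgc]
    · apply Fin.ext
      rw [h'.iv, h4, hi]
      exact (pi_piN _ _ _).symm
    · funext c
      fin_cases c
      · show qN e' 0 = D.qt (fac e).f s (qN e 0)
        rw [h5, h.fv]
      · show qN e' 1 = D.qt (fac e).f s (qN e 1)
        rw [h6, h.fv]
  · refine Prod.ext rfl (Prod.ext rfl ?_)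
    apply Fin.ext
    show (m : ℕ) = 0
    rw [v3]; exact h1
  · refine Prod.ext rfl (Prod.ext ?_ ?_)
    · apply Fin.ext
      rw [w2]
      show _ = (gs (fac e).f s : ℕ)
      omega
    · apply Fin.ext
      rw [w3]
      show _ = 0
      omega
  · rw [val_succAbove, val_succAbove, h8 t t.2]
    have hv := h.vk _ (sa_lt (a := a) t.2)
    exact dk_pk _ hv.1 hv s _

end Tab

end Pool.Agent.H95.G1N
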