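import Pool.Agent.H95.G1N.Fac
import Pool.Agent.H95.TB.Bits
import Pool.Agent.H34.PLE.Tools

/-!
# Genus one: tables of the facets and their checks
-/

open Finset

namespace Pool.Agent.H95.G1N

open Pool.Agent.H34.PLE Pool.Agent.H95.TB

/-- word -/
def wN (f : ℕ) : List ℕ := wdL.getD f []

/-- letter -/
def ltN (f q : ℕ) : ℕ := (wN f).getD q 0

/-- slots of the circles -/
def alN (c i s : ℕ) : Bool := cond (Nat.beq c 0) (Nat.ble s i) (Nat.ble i s)

/-- bijection of slots -/
def piN (a b s : ℕ) : ℕ :=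
  cond (Nat.beq s a) b (fc (cond (Nat.blt s a) s (Nat.pred s)) fun t => cond (Nat.blt t b) t (Nat.succ t))

/-- next letter -/
def nxB (W : List ℕ) (A : ℕ → Bool) (q q' : ℕ) : Bool :=
  Nat.blt q' W.length && (A (W.getD q' 0) && (List.range W.length).all fun r =>
    cond (cond (Nat.blt q q') (Nat.blt q r && Nat.blt r q') (Nat.blt q r || Nat.blt r q')) (!(A (W.getD r 0))) true)

/-- keys through a change of the window -/
def mvN (c s s' κ : ℕ) : ℕ :=
  cond (Nat.beq (κ / 32) c) (cond (Nat.beq (κ % 4) 1) (32 * c + 4 * s + cond (Nat.beq s s') 2 0)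
    (cond (Nat.beq (κ / 4 % 8) s') (32 * c + 4 * s' + 2) κ)) κ

/-- keys through a gluing -/
def pkN (s b κ : ℕ) : ℕ := κ / 32 * 32 + 4 * piN s b (κ / 4 % 8) + κ % 4

/-- the tables: `E`: 8 keys of 8 bits, then cell (8 bits), level slot, windows (4 bits each), the row (8 names of 24
bits), starting at the bit 88, 64 facets in an entry;
`PT`: the two positions (16 bits) of every name, 256 names in an entry; `IX`: facets with given cell, level slot and
windows (12 bits); `QT`: windows through gluings (4 bits) -/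
structure Tab where
  N : ℕ
  rows : List ℕ
  E : List ℕ
  PT : List ℕ
  IX : List (List ℕ)
  QT : List (List ℕ)

/-- key of a vertex -/
def kN (e a : ℕ) : ℕ := dg 8 e a

/-- cell -/
def fN (e : ℕ) : ℕ := dg 8 e 8

/-- level slot -/
def iN (e : ℕ) : ℕ := dg 4 e 18

/-- window -/
def qN (e c : ℕ) : ℕ := dg 4 e (19 + c)

namespace Tab

variable (D : Tab)

/-- record of a facet -/
def e (k : ℕ) : ℕ := dg 280 (D.E.getD (Nat.div k 64) 0) (Nat.mod k 64)

/-- transport of a window -/
def qt (f a q : ℕ) : ℕ := dg 4 ((D.QT.getD f []).getD a 0) q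

/-- positions of a name -/
def pos (n : ℕ) : ℕ := dg 32 (D.PT.getD (Nat.div n 256) 0) (Nat.mod n 256)

/-- facet with given cell, level slot and windows -/
def ix (f i q0 q1 : ℕ) : ℕ := dg 12 ((D.IX.getD f []).getD i 0) (16 * q0 + q1)

/-- change of a window -/
def relW (e e' a b : ℕ) : Bool :=
  fc (kN e a) fun κ => fc (κ / 32) fun c => fc (fN e) fun f => fc (iN e) fun i => fc (qN e c) fun q =>
  fc (qN e' c) fun q' => fc (ltN f q) fun s => fc (ltN f q') fun s' =>
    Nat.beq (fN e') f && (Nat.beq (iN e') i && (Nat.beq (qN e' (1 - c)) (qN e (1 - c)) &&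
      (nxB (wN f) (alN c i) q q' && (Nat.beq κ (32 * c + 4 * s + 2) && (Nat.beq (kN e' b) (32 * c + 4 * s' + 1) &&
        (List.range 7).all fun t => Nat.beq (kN e' (sa b t)) (mvN c s s' (kN e (sa a t))))))))

/-- decrease of the level slot -/
def relI (e e' a b : ℕ) : Bool :=
  fc (iN e) fun i => fc (iN e') fun i' =>
    Nat.beq (fN e') (fN e) && (Nat.beq (Nat.succ i') i && (Nat.beq (qN e' 0) (qN e 0) && (Nat.beq (qN e' 1) (qN e 1) &&
      (Nat.beq (kN e a) (4 * i) && (Nat.beq (kN e' b) (32 + 4 * i') &&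
        (List.range 7).all fun t => Nat.beq (kN e' (sa b t)) (kN e (sa a t)))))))

/-- gluing of cells -/
def relG (e e' a b : ℕ) : Bool :=
  fc (kN e a) fun κ => fc (κ / 4 % 8) fun s => fc (fN e) fun f => fc (iN e) fun i =>
  fc ((glL.getD f []).getD s 0) fun g => fc (g % 200 / 20) fun u =>
    Nat.beq (κ % 4) 0 && (!(Nat.beq s i) && (Nat.beq (fN e') (g / 200) && (Nat.beq (iN e') (piN s u i) &&
      (Nat.beq (qN e' 0) (D.qt f s (qN e 0)) && (Nat.beq (qN e' 1) (D.qt f s (qN e 1)) &&
        (Nat.beq (kN e' b % 32) (4 * u) &&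
          (List.range 7).all fun t => Nat.beq (kN e' (sa b t)) (pkN s u (kN e (sa a t)))))))))

/-- the relation given by the type of the vertex -/
def relB (e e' a b : ℕ) : Bool :=
  cond (Nat.beq (kN e a % 4) 2) (relW e e' a b) (cond (Nat.beq (kN e a) (4 * iN e)) (relI e e' a b) (D.relG e e' a b))

/-- vertices which are crossed from the other side -/
def typ1 (e a : ℕ) : Bool := Nat.beq (kN e a % 4) 1 || Nat.beq (kN e a) (32 + 4 * iN e)

/-- check of a face -/
def chkP (k e name a : ℕ) : Bool :=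
  fc (D.pos name) fun p => fc (p % 65536) fun lo => fc (p / 65536) fun hi => fc (8 * k + a) fun me =>
    (Nat.beq me lo || Nat.beq me hi) && fc (lo + hi - me) fun o => fc (D.e (o / 8)) fun e' =>
      Nat.blt (o / 8) D.N && (Nat.beq (dg 24 (Nat.shiftRight e' 88) (o % 8)) name &&
        cond (typ1 e a) (D.relB e' e (o % 8) a) (D.relB e e' a (o % 8)))

/-- check of a facet -/
def chkF (k e : ℕ) : Bool :=
  fc (fN e) fun f => fc (iN e) fun i => fc (ltN f (qN e 0)) fun s0 => fc (ltN f (qN e 1)) fun s1 =>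
  fc (mkS (fun a => kN e a) 8) fun MK =>
    Nat.blt f 24 && (Nat.blt i 5 && (Nat.blt (qN e 0) (wN f).length && (Nat.blt (qN e 1) (wN f).length &&
      (alN 0 i s0 && (alN 1 i s1 && (Nat.beq (D.ix f i (qN e 0) (qN e 1)) k &&
      ((List.range 8).all (fun a => fc (kN e a) fun κ => Nat.blt κ 64 && (Nat.blt (κ / 4 % 8) 5 && (Nat.blt (κ % 4) 3 &&
        (alN (κ / 32) i (κ / 4 % 8) && (xor (Nat.beq (κ / 4 % 8) (cond (Nat.beq (κ / 32) 0) s0 s1)) (Nat.beq (κ % 4) 0) &&
          (List.range a).all fun b => !(Nat.beq κ (kN e b))))))) &&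
      (List.range 2).all fun c => (List.range 5).all fun s =>
        cond (alN c i s) (cond (Nat.beq s (cond (Nat.beq c 0) s0 s1))
          (bit MK (32 * c + 4 * s + 1) && bit MK (32 * c + 4 * s + 2)) (bit MK (32 * c + 4 * s))) true)))))))

/-- check of a row -/
def chkR (k row : ℕ) : Bool :=
  fc (D.e k) fun e => Nat.beq (Nat.shiftRight e 88) row && (D.chkF k e &&
    (List.range 8).all fun a => D.chkP k e (dg 24 row a) a)

/-- check of a list of rows -/
def chkL : List ℕ → ℕ → Bool
  | [], _ => true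
  | r :: L, k => D.chkR k r && chkL L (Nat.succ k)

/-- existence of the facets over a cell -/
def chkX (f : ℕ) : Bool :=
  (List.range 5).all fun i => (List.range (wN f).length).all fun q0 => (List.range (wN f).length).all fun q1 =>
    cond (alN 0 i (ltN f q0) && alN 1 i (ltN f q1))
      (fc (D.ix f i q0 q1) fun k => Nat.blt k D.N && Nat.beq (dg 24 (Nat.shiftRight (D.e k) 64) 0)
        (f + 256 * i + 4096 * q0 + 65536 * q1)) true

/-- windows through gluings -/
def QtOK : Prop := ∀ (f : Fin 24) (a : Fin 5), ∀ q < (wd f).length, lt (wd f) q ≠ a →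
  D.qt f a q < (wd (gc f a)).length ∧ lt (wd (gc f a)) (D.qt f a q) = pi a (gs f a) (lt (wd f) q) ∧
    (fl (gc f a) (gs f a) (D.qt f a q) = pfx f a ++ (fl f a q).map (pi a (gs f a)) ∨
      (fl f a q).map (pi a (gs f a)) = sfx f a ++ fl (gc f a) (gs f a) (D.qt f a q))

/-- all checks -/
structure OK : Prop where
  len : D.rows.length = D.N
  cR : ∀ k < D.N, D.chkR k (D.rows.getD k 0) = true
  cX : ∀ f < 24, D.chkX f = true
  cQ : D.QtOK

end Tab

end Pool.Agent.H95.G1N
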